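import Pool.Agent.Lib.MP_7ed9c3_nt.Zr.Spec

/-!
# MP_7ed9c3_nt, part Zr: F3, the logarithm of the rest
-/

set_option autoImplicit false

namespace MP7ed9c3.Zr

open Filter Topology Metric

/-- the coefficients of a convergent power series are the Taylor coefficients -/
theorem logz_coeff {f : ℂ → ℂ} {a : ℕ → ℂ} {δ : ℝ} (hδ : 0 < δ)
    (h : ∀ z : ℂ, ‖z‖ < δ → HasSum (fun n : ℕ => a n * z ^ n) (f z)) (n : ℕ) :
    iteratedDeriv n f 0 / (n.factorial : ℂ) = a n := by
  have hb : HasFPowerSeriesOnBall f (FormalMultilinearSeries.ofScalars ℂ a) 0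
      (ENNReal.ofReal (δ / 2)) := by
    refine ⟨?_, by simpa using hδ, ?_⟩
    · have hs := (h ((δ / 2 : ℝ) : ℂ) (by
        rw [Complex.norm_real, Real.norm_eq_abs, abs_of_pos (by linarith)]; linarith)).summable.norm
      rw [ENNReal.ofReal]
      apply FormalMultilinearSeries.le_radius_of_summable
      refine hs.congr ?_
      intro n
      rw [FormalMultilinearSeries.ofScalars_norm, norm_mul, norm_pow, Complex.norm_real,
        Real.norm_eq_abs, abs_of_pos (show 0 < δ / 2 by linarith),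
        Real.coe_toNNReal _ (show 0 ≤ δ / 2 by linarith)]
    · intro y hy
      have hy' : ‖y‖ < δ := by
        rw [Metric.mem_eball, edist_zero_right, ← ofReal_norm,
          ENNReal.ofReal_lt_ofReal_iff (by linarith)] at hy
        linarith
      rw [zero_add]
      have := h y hy'
      simpa [FormalMultilinearSeries.ofScalars_apply_eq, mul_comm] using this
  have hat : HasFPowerSeriesAt f (FormalMultilinearSeries.ofScalars ℂ a) 0 :=
    hb.hasFPowerSeriesAt
  have h2 := hat.analyticAt.hasFPowerSeriesAt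
  have h3 := h2.eq_formalMultilinearSeries hat
  have h4 := FormalMultilinearSeries.ofScalars_series_injective ℂ ℂ h3
  exact congrFun h4 n

/-- a holomorphic logarithm on a ball -/
theorem logz_exists {G : ℂ → ℂ} (hG : Differentiable ℂ G) (h1 : G 0 = 1) {R : ℝ} (hR : 0 < R)
    (hne : ∀ z : ℂ, ‖z‖ < R → G z ≠ 0) :
    ∃ g : ℂ → ℂ, DifferentiableOn ℂ g (ball 0 R) ∧ g 0 = 0 ∧
      ∀ z : ℂ, ‖z‖ < R → Complex.exp (g z) = G z := by
  have hd : DifferentiableOn ℂ (fun z => deriv G z / G z) (ball 0 R) := by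
    apply DifferentiableOn.div
    · exact fun z _ => (hG.analyticAt z).deriv.differentiableAt.differentiableWithinAt
    · exact hG.differentiableOn
    · intro z hz
      exact hne z (by simpa using hz)
  obtain ⟨g, hg0, hg⟩ := hd.isExactOn_ball.with_val_at 0 0
  have hgd : DifferentiableOn ℂ g (ball 0 R) := fun z hz =>
    (hg z hz).differentiableAt.differentiableWithinAt
  refine ⟨g, hgd, hg0, ?_⟩
  have hconst : ∀ z ∈ ball (0 : ℂ) R, G z * Complex.exp (-g z) = 1 := by
    have hder : ∀ z ∈ ball (0 : ℂ) R, HasDerivAt (fun z => G z * Complex.exp (-g z)) 0 z := by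
      intro z hz
      have h2 : HasDerivAt (fun z => G z * Complex.exp (-g z))
          (deriv G z * Complex.exp (-g z) +
            G z * (Complex.exp (-g z) * (-(deriv G z / G z)))) z :=
        (hG z).hasDerivAt.mul ((hg z hz).neg.cexp)
      have hne' := hne z (by simpa using hz)
      have e : deriv G z * Complex.exp (-g z) +
            G z * (Complex.exp (-g z) * (-(deriv G z / G z))) = 0 := by
        field_simp
        ring
      rwa [e] at h2
    intro z hz
    have h3 := isOpen_ball.is_const_of_deriv_eq_zero (convex_ball (0 : ℂ) R).isPreconnected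
      (f := fun z => G z * Complex.exp (-g z)) (fun w hw =>
        (hder w hw).differentiableAt.differentiableWithinAt) (fun w hw => (hder w hw).deriv)
      hz (mem_ball_self hR)
    rw [h3, h1, hg0]
    simp
  intro z hz
  have := hconst z (by simpa using hz)
  rw [Complex.exp_neg] at this
  have he := Complex.exp_ne_zero (g z)
  field_simp at this
  exact this.symm

/-- the product over the zeros is at least one in absolute value far out -/
theorem logz_prod {Φ : ℂ → ℂ} {R : ℝ} (hm : ∀ ρ ∈ zer Φ R, ‖ρ‖ < R ∧ ρ ≠ 0) {z : ℂ}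
    (hz : ‖z‖ = 2 * R) : 1 ≤ ‖prodZ Φ R z‖ := by
  rw [prodZ, norm_prod]
  refine Finset.prod_induction _ (fun x : ℝ => 1 ≤ x)
    (fun a b ha hb => one_le_mul_of_one_le_of_one_le ha hb) le_rfl ?_
  intro ρ hρ
  rw [norm_pow]
  apply one_le_pow₀
  obtain ⟨h1, h2⟩ := hm ρ hρ
  have h3 : 0 < ‖ρ‖ := norm_pos_iff.mpr h2
  have h4 : 2 ≤ ‖z / ρ‖ := by
    rw [norm_div, le_div_iff₀ h3, hz]
    linarith
  have h5 := norm_sub_norm_le (z / ρ) 1
  rw [norm_one, norm_sub_rev] at h5
  linarith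

theorem logz_zer {Φ : ℂ → ℂ} {R : ℝ} (hfin : {ρ : ℂ | ‖ρ‖ < R ∧ Φ ρ = 0}.Finite) (ρ : ℂ) :
    ρ ∈ zer Φ R ↔ ‖ρ‖ < R ∧ Φ ρ = 0 := by
  rw [zer, dif_pos hfin, Set.Finite.mem_toFinset]
  rfl

/-- the bound of the quotient -/
theorem logz_bound {Φ G : ℂ → ℂ} {C a R : ℝ} (hR : 0 < R)
    (hG : Differentiable ℂ G) (hO : Ord Φ C a)
    (hm : ∀ ρ ∈ zer Φ R, ‖ρ‖ < R ∧ ρ ≠ 0) (hΦ : ∀ z, Φ z = G z * prodZ Φ R z)
    (z : ℂ) (hz : ‖z‖ ≤ 2 * R) : ‖G z‖ ≤ Real.exp (C * (1 + 2 * R) ^ a) := by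
  have hcl : z ∈ closure (ball (0 : ℂ) (2 * R)) := by
    rw [closure_ball _ (by positivity)]
    simpa using hz
  refine Complex.norm_le_of_forall_mem_frontier_norm_le isBounded_ball
    hG.diffContOnCl ?_ hcl
  intro w hw
  rw [frontier_ball _ (by positivity), mem_sphere_zero_iff_norm] at hw
  have h1 := logz_prod hm hw
  have h2 := hO w
  rw [hΦ w, norm_mul, hw] at h2
  exact (le_mul_of_one_le_right (norm_nonneg _) h1).trans h2

/-- the Taylor remainder of the logarithm -/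
theorem logz_taylor {g : ℂ → ℂ} {M R : ℝ} (hM : 0 < M) (hR : 0 < R)
    (hg : DifferentiableOn ℂ g (ball 0 R)) (hb : ∀ z : ℂ, ‖z‖ ≤ R / 2 → ‖g z‖ ≤ M) (N : ℕ)
    (z : ℂ) (hz : ‖z‖ ≤ R / 4) :
    ‖g z - ∑ k ∈ Finset.range (N + 1), iteratedDeriv k g 0 / (k.factorial : ℂ) * z ^ k‖ ≤
      2 * M * (2 * ‖z‖ / R) ^ (N + 1) := by
  have hcoef : ∀ k : ℕ, ‖iteratedDeriv k g 0 / (k.factorial : ℂ)‖ ≤ M * (2 / R) ^ k := by
    intro k
    have hdc : DiffContOnCl ℂ g (ball 0 (R / 2)) := by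
      apply DifferentiableOn.diffContOnCl
      rw [closure_ball _ (by positivity)]
      exact hg.mono (closedBall_subset_ball (by linarith))
    have h1 := Complex.norm_iteratedDeriv_le_of_forall_mem_sphere_norm_le k
      (show 0 < R / 2 by positivity) hdc (C := M) (fun w hw => hb w (by
        rw [mem_sphere_zero_iff_norm] at hw
        exact hw.le))
    rw [norm_div, Complex.norm_natCast, div_le_iff₀ (by positivity)]
    refine h1.trans (le_of_eq ?_)
    rw [div_pow, div_pow]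
    field_simp
  have hsum : HasSum (fun k : ℕ => iteratedDeriv k g 0 / (k.factorial : ℂ) * z ^ k) (g z) := by
    have := Complex.hasSum_taylorSeries_on_ball hg (z := z) (by
      rw [mem_ball_zero_iff]; linarith)
    refine this.congr_fun ?_ |> id
    intro k
    rw [sub_zero, smul_eq_mul, smul_eq_mul]
    ring
  have hq0 : 0 ≤ 2 * ‖z‖ / R := by positivity
  have hq : 2 * ‖z‖ / R ≤ 1 / 2 := by
    rw [div_le_iff₀ hR]
    linarith
  have htail := (hasSum_nat_add_iff' (N + 1)).mpr hsum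
  have hgeo : HasSum (fun k : ℕ => M * (2 * ‖z‖ / R) ^ (k + (N + 1)))
      (M * (2 * ‖z‖ / R) ^ (N + 1) * (1 - 2 * ‖z‖ / R)⁻¹) := by
    have := (hasSum_geometric_of_lt_one hq0 (by linarith)).mul_left
      (M * (2 * ‖z‖ / R) ^ (N + 1))
    refine this.congr_fun ?_ |> id
    intro k
    rw [pow_add]
    ring
  have hbd : ∀ k : ℕ, ‖iteratedDeriv (k + (N + 1)) g 0 / ((k + (N + 1)).factorial : ℂ) *
      z ^ (k + (N + 1))‖ ≤ M * (2 * ‖z‖ / R) ^ (k + (N + 1)) := by
    intro k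
    rw [norm_mul, norm_pow]
    calc _ ≤ (M * (2 / R) ^ (k + (N + 1))) * ‖z‖ ^ (k + (N + 1)) :=
          mul_le_mul_of_nonneg_right (hcoef _) (by positivity)
      _ = M * (2 * ‖z‖ / R) ^ (k + (N + 1)) := by
          rw [mul_assoc, ← mul_pow]
          congr 2
          ring
  have hle := tsum_of_norm_bounded hgeo hbd
  rw [htail.tsum_eq] at hle
  refine hle.trans ?_
  have h3 : (1 - 2 * ‖z‖ / R)⁻¹ ≤ 2 := by
    rw [inv_le_comm₀ (by linarith) (by norm_num)]
    linarith
  calc _ ≤ M * (2 * ‖z‖ / R) ^ (N + 1) * 2 := mul_le_mul_of_nonneg_left h3 (by positivity)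
    _ = _ := by ring

/-- the logarithm near the origin -/
theorem logz_near {Φ G g : ℂ → ℂ} {R : ℝ} (hR : 0 < R) (hΦd : Differentiable ℂ Φ)
    (hΦ1 : Φ 0 = 1) (hm : ∀ ρ ∈ zer Φ R, ρ ≠ 0) (hΦ : ∀ z, Φ z = G z * prodZ Φ R z)
    (hg : DifferentiableOn ℂ g (ball 0 R)) (hg0 : g 0 = 0)
    (hexp : ∀ z : ℂ, ‖z‖ < R → Complex.exp (g z) = G z) :
    ∃ δ : ℝ, 0 < δ ∧ DifferentiableOn ℂ (fun z => Complex.log (Φ z)) (ball 0 δ) ∧
      (∀ ρ ∈ zer Φ R, ∀ z : ℂ, ‖z‖ < δ → ‖z / ρ‖ < 1) ∧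
      ∀ z : ℂ, ‖z‖ < δ → g z = Complex.log (Φ z) +
        ∑ ρ ∈ zer Φ R, (analyticOrderNatAt Φ ρ : ℂ) * -Complex.log (1 - z / ρ) := by
  set D : ℂ → ℂ := fun z => g z - (Complex.log (Φ z) +
        ∑ ρ ∈ zer Φ R, (analyticOrderNatAt Φ ρ : ℂ) * -Complex.log (1 - z / ρ)) with hD
  have hslit : Φ 0 ∈ Complex.slitPlane := by rw [hΦ1]; exact Complex.one_mem_slitPlane
  have hgc : ContinuousAt g 0 :=
    (hg.differentiableAt (isOpen_ball.mem_nhds (mem_ball_self hR))).continuousAt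
  have hΦc : ContinuousAt Φ 0 := (hΦd 0).continuousAt
  have hlc : ContinuousAt (fun z => Complex.log (Φ z)) 0 := hΦc.clog hslit
  have hDc : ContinuousAt D 0 := by
    apply hgc.sub
    apply hlc.add
    apply tendsto_finsetSum
    intro ρ hρ
    apply Tendsto.const_mul
    apply Tendsto.neg
    have : ContinuousAt (fun z : ℂ => Complex.log (1 - z / ρ)) 0 := by
      apply ContinuousAt.clog
      · fun_prop
      · simp
    exact this.tendsto
  have hD0 : D 0 = 0 := by
    rw [hD]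
    simp [hg0, hΦ1]
  have e1 : ∀ᶠ z : ℂ in 𝓝 0, ‖D z‖ < 1 := by
    have := hDc.norm.tendsto
    rw [hD0, norm_zero] at this
    exact this.eventually_lt_const one_pos
  have e2 : ∀ᶠ z : ℂ in 𝓝 0, Φ z ∈ Complex.slitPlane :=
    hΦc.eventually (Complex.isOpen_slitPlane.mem_nhds hslit)
  have e3 : ∀ᶠ z : ℂ in 𝓝 0, ∀ ρ ∈ zer Φ R, ‖z / ρ‖ < 1 := by
    rw [eventually_all_finset]
    intro ρ hρ
    have hc : ContinuousAt (fun z : ℂ => ‖z / ρ‖) 0 := by fun_prop
    have := hc.tendsto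
    rw [zero_div, norm_zero] at this
    exact this.eventually_lt_const one_pos
  have e4 : ∀ᶠ z : ℂ in 𝓝 0, ‖z‖ < R := by
    have hc : ContinuousAt (fun z : ℂ => ‖z‖) 0 := by fun_prop
    have := hc.tendsto
    rw [norm_zero] at this
    exact this.eventually_lt_const hR
  obtain ⟨δ, hδ, hball⟩ := Metric.eventually_nhds_iff_ball.mp ((e1.and e2).and (e3.and e4))
  refine ⟨δ, hδ, ?_, ?_, ?_⟩
  · intro z hz
    exact ((hΦd z).clog (hball z hz).1.2).differentiableWithinAt
  · intro ρ hρ z hz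
    exact (hball z (by simpa using hz)).2.1 ρ hρ
  · intro z hz
    obtain ⟨⟨h1, h2⟩, h3, h4⟩ := hball z (by simpa using hz)
    have hone : Complex.exp (D z) = 1 := by
      rw [hD]
      simp only
      rw [Complex.exp_sub, Complex.exp_add, hexp z h4,
        Complex.exp_log (Complex.slitPlane_ne_zero h2), Complex.exp_sum]
      have hprod : ∏ ρ ∈ zer Φ R, Complex.exp ((analyticOrderNatAt Φ ρ : ℂ) *
          -Complex.log (1 - z / ρ)) = (prodZ Φ R z)⁻¹ := by
        rw [prodZ, ← Finset.prod_inv_distrib]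
        apply Finset.prod_congr rfl
        intro ρ hρ
        have hne : 1 - z / ρ ≠ 0 := by
          intro h
          have : z / ρ = 1 := by linear_combination -h
          have h5 := h3 ρ hρ
          rw [this, norm_one] at h5
          exact lt_irrefl _ h5
        rw [Complex.exp_nat_mul, Complex.exp_neg, Complex.exp_log hne, inv_pow]
      rw [hprod]
      have hP : Φ z ≠ 0 := Complex.slitPlane_ne_zero h2
      have hP2 := hΦ z
      have hGz : G z ≠ 0 := by
        intro h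
        rw [h, zero_mul] at hP2
        exact hP hP2
      have hpz : prodZ Φ R z ≠ 0 := by
        intro h
        rw [h, mul_zero] at hP2
        exact hP hP2
      rw [hP2]
      field_simp
    obtain ⟨n, hn⟩ := Complex.exp_eq_one_iff.mp hone
    have hn0 : n = 0 := by
      by_contra hne
      have h6 : ‖D z‖ = |(n : ℝ)| * (2 * Real.pi) := by
        rw [hn, norm_mul, norm_mul, norm_mul, Complex.norm_I, Complex.norm_real,
          Complex.norm_intCast, Real.norm_eq_abs, abs_of_pos Real.pi_pos]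
        simp
      have h7 : (1 : ℝ) ≤ |(n : ℝ)| := by
        have := Int.one_le_abs hne
        exact_mod_cast this
      have h8 := Real.pi_gt_three
      rw [h6] at h1
      nlinarith
    have h9 : D z = 0 := by rw [hn, hn0]; simp
    rw [hD] at h9
    simp only at h9
    exact sub_eq_zero.mp h9

/-- the Taylor coefficients of the logarithm of the quotient -/
theorem logz_coefs {Φ G g : ℂ → ℂ} {R : ℝ} (hR : 0 < R) (hΦd : Differentiable ℂ Φ)
    (hΦ1 : Φ 0 = 1) (hm : ∀ ρ ∈ zer Φ R, ρ ≠ 0) (hΦ : ∀ z, Φ z = G z * prodZ Φ R z)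
    (hg : DifferentiableOn ℂ g (ball 0 R)) (hg0 : g 0 = 0)
    (hexp : ∀ z : ℂ, ‖z‖ < R → Complex.exp (g z) = G z) (n : ℕ) :
    iteratedDeriv n g 0 / (n.factorial : ℂ) =
      iteratedDeriv n (fun z => Complex.log (Φ z)) 0 / (n.factorial : ℂ) +
        1 / (n : ℂ) * ∑ ρ ∈ zer Φ R, (analyticOrderNatAt Φ ρ : ℂ) * (1 / ρ) ^ n := by
  obtain ⟨δ, hδ, h1, h2, h3⟩ := logz_near hR hΦd hΦ1 hm hΦ hg hg0 hexp
  refine logz_coeff hδ (a := fun n => iteratedDeriv n (fun z => Complex.log (Φ z)) 0 /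
    (n.factorial : ℂ) + 1 / (n : ℂ) * ∑ ρ ∈ zer Φ R, (analyticOrderNatAt Φ ρ : ℂ) *
      (1 / ρ) ^ n) ?_ n
  intro z hz
  rw [h3 z hz]
  have hA := Complex.hasSum_taylorSeries_on_ball h1 (z := z) (by simpa using hz)
  have hB : HasSum (fun n : ℕ => ∑ ρ ∈ zer Φ R, (analyticOrderNatAt Φ ρ : ℂ) *
      ((z / ρ) ^ n / n)) (∑ ρ ∈ zer Φ R, (analyticOrderNatAt Φ ρ : ℂ) *
        -Complex.log (1 - z / ρ)) := by
    apply hasSum_sum
    intro ρ hρ
    exact (Complex.hasSum_taylorSeries_neg_log (h2 ρ hρ z hz)).mul_left _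
  refine (hA.add hB).congr_fun ?_ |> id
  intro k
  rw [sub_zero, smul_eq_mul, smul_eq_mul, add_mul, Finset.mul_sum, Finset.sum_mul]
  congr 1
  · ring
  · apply Finset.sum_congr rfl
    intro ρ _
    rw [div_pow, div_pow, one_pow]
    ring

theorem logz_tail {C a ε r : ℝ} (hC : 0 ≤ C) (ha : 0 ≤ a) (hε : 0 < ε) (N : ℕ)
    (hN : a < N + 1) :
    ∃ R₀ : ℝ, ∀ R : ℝ, R₀ ≤ R → 2 * (2 * (C * (1 + 2 * R) ^ a + 1)) * (2 * |r| / R) ^ (N + 1) ≤ ε
      := by
  set K : ℝ := 4 * (C * 3 ^ a + 1) * (2 * |r|) ^ (N + 1) with hK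
  have ht : Tendsto (fun R : ℝ => K * R ^ (-((N + 1 : ℝ) - a))) atTop (𝓝 0) := by
    have := (tendsto_rpow_neg_atTop (show 0 < (N + 1 : ℝ) - a by linarith)).const_mul K
    rwa [mul_zero] at this
  obtain ⟨R₁, hR₁⟩ := eventually_atTop.mp (ht.eventually_le_const hε)
  refine ⟨max R₁ 1, ?_⟩
  intro R hR
  have hR1 : 1 ≤ R := (le_max_right _ _).trans hR
  have hR0 : 0 < R := by linarith
  refine le_trans ?_ (hR₁ R ((le_max_left _ _).trans hR))
  have h1 : (1 + 2 * R) ^ a ≤ 3 ^ a * R ^ a := by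
    rw [← Real.mul_rpow (by norm_num) hR0.le]
    exact Real.rpow_le_rpow (by positivity) (by linarith) ha
  have h2 : 1 ≤ R ^ a := Real.one_le_rpow hR1 ha
  have h3 : C * (1 + 2 * R) ^ a + 1 ≤ (C * 3 ^ a + 1) * R ^ a := by
    have := mul_le_mul_of_nonneg_left h1 hC
    nlinarith
  have h4 : R ^ (-((N + 1 : ℝ) - a)) = R ^ a * (R ^ (N + 1))⁻¹ := by
    rw [neg_sub, Real.rpow_sub hR0, div_eq_mul_inv]
    congr 2
    rw [← Real.rpow_natCast]
    push_cast
    rfl
  rw [h4, hK, div_pow]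
  calc _ = 4 * (C * (1 + 2 * R) ^ a + 1) * ((2 * |r|) ^ (N + 1) / R ^ (N + 1)) := by ring
    _ ≤ 4 * ((C * 3 ^ a + 1) * R ^ a) * ((2 * |r|) ^ (N + 1) / R ^ (N + 1)) := by gcongr
    _ = _ := by ring

theorem logz (hfac : S_Factor) : S_Log := by
  intro Φ C a hΦd hΦ1 hC ha hO
  refine ⟨fun n => iteratedDeriv n (fun z => Complex.log (Φ z)) 0 / (n.factorial : ℂ), ?_, ?_⟩
  · simp only [iteratedDeriv_one, Nat.factorial_one, Nat.cast_one, div_one]
    have hslit : Φ 0 ∈ Complex.slitPlane := by rw [hΦ1]; exact Complex.one_mem_slitPlane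
    have := ((hΦd 0).hasDerivAt.clog hslit).deriv
    rw [this, hΦ1, div_one]
  · intro N hN1 hN r ε hε
    obtain ⟨R₀, hR₀⟩ := logz_tail (r := r) hC ha hε N hN
    refine ⟨max R₀ (4 * |r| + 1), ?_⟩
    intro R hR
    have hR0 := hR₀ R ((le_max_left _ _).trans hR)
    have hR1 : 4 * |r| + 1 ≤ R := (le_max_right _ _).trans hR
    have hRp : 0 < R := by have := abs_nonneg r; linarith
    obtain ⟨hfin, hord, G, hG, hΦG, hGne⟩ := hfac Φ hΦd hΦ1 R
    have hm : ∀ ρ ∈ zer Φ R, ‖ρ‖ < R ∧ ρ ≠ 0 := fun ρ hρ =>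
      ⟨((logz_zer hfin ρ).1 hρ).1, (hord ρ hρ).1⟩
    have hp0 : prodZ Φ R 0 = 1 := by
      rw [prodZ]
      apply Finset.prod_eq_one
      intro ρ _
      rw [zero_div, sub_zero, one_pow]
    have hG1 : G 0 = 1 := by
      have := hΦG 0
      rw [hp0, mul_one, hΦ1] at this
      exact this.symm
    obtain ⟨g, hgd, hg0, hexp⟩ := logz_exists hG hG1 hRp hGne
    set AR : ℝ := C * (1 + 2 * R) ^ a with hAR
    have hAR0 : 0 ≤ AR := by positivity
    have hbound : ∀ z : ℂ, ‖z‖ ≤ R / 2 → ‖g z‖ ≤ 2 * (AR + 1) := by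
      intro z hz
      have hmap : Set.MapsTo g (ball 0 R) {z | z.re ≤ AR + 1} := by
        intro w hw
        rw [mem_ball_zero_iff] at hw
        have h1 := logz_bound hRp hG hO hm hΦG w (by linarith)
        rw [← hexp w hw, Complex.norm_exp, Real.exp_le_exp] at h1
        show (g w).re ≤ AR + 1
        linarith
      have h2 := Complex.borelCaratheodory_zero (show 0 < AR + 1 by linarith) hgd hmap hRp
        (z := z) (by rw [mem_ball_zero_iff]; linarith) hg0
      refine h2.trans ?_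
      rw [div_le_iff₀ (by linarith [norm_nonneg z])]
      have := norm_nonneg z
      nlinarith
    refine ⟨g, ?_, ?_⟩
    · intro z hz
      have hz' : ‖z‖ < R := by have := le_abs_self r; linarith [abs_nonneg r]
      rw [hexp z hz']
      exact hΦG z
    · intro z hz
      have hz' : ‖z‖ ≤ R / 4 := by have := le_abs_self r; linarith [abs_nonneg r]
      have h1 := logz_taylor (show 0 < 2 * (AR + 1) by positivity) hRp hgd hbound N z hz'
      rw [Finset.sum_range_succ', ] at h1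
      simp only [iteratedDeriv_zero, hg0, zero_div, zero_mul, add_zero] at h1
      have h2 : ∑ k ∈ Finset.range N, iteratedDeriv (k + 1) g 0 / ((k + 1).factorial : ℂ) *
          z ^ (k + 1) = ∑ k ∈ Finset.Icc 1 N,
          (iteratedDeriv k (fun z => Complex.log (Φ z)) 0 / (k.factorial : ℂ) +
            1 / (k : ℂ) * ∑ ρ ∈ zer Φ R, (analyticOrderNatAt Φ ρ : ℂ) * (1 / ρ) ^ k) *
            z ^ k := by
        rw [Finset.sum_bij (fun k _ => k + 1)]
        · intro k hk
          rw [Finset.mem_range] at hk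
          rw [Finset.mem_Icc]
          omega
        · intro k _ l _ h
          omega
        · intro k hk
          rw [Finset.mem_Icc] at hk
          exact ⟨k - 1, by rw [Finset.mem_range]; omega, by omega⟩
        · intro k _
          rw [logz_coefs hRp hΦd hΦ1 (fun ρ hρ => (hm ρ hρ).2) hΦG hgd hg0 hexp (k + 1)]
      rw [h2] at h1
      refine h1.trans (le_trans ?_ hR0)
      have h5 : (2 * ‖z‖ / R) ^ (N + 1) ≤ (2 * |r| / R) ^ (N + 1) := by
        have := le_abs_self r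
        gcongr
        linarith
      exact mul_le_mul_of_nonneg_left h5 (by positivity)

end MP7ed9c3.Zr
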