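import Pool.Agent.Lib.MP_7ed9c3_nt.Zr.Spec

/-!
# MP_7ed9c3_nt, part Zr: F4a, F4b, summation by parts
-/

set_option autoImplicit false

namespace MP7ed9c3.Zr

open Filter Topology MeasureTheory

theorem abelz : S_Abel := by
  intro Z w k B hZ hw hk hki hkB hW
  have hsub : ∀ ρ ∈ Z, Set.Ioi (1 : ℝ) ∩ Set.Ioi ‖ρ‖ = Set.Ioi ‖ρ‖ := by
    intro ρ hρ
    rw [Set.Ioi_inter_Ioi, max_eq_right (hZ ρ hρ)]
  have hint : ∀ ρ ∈ Z, IntegrableOn (fun u => w ρ * (Set.Ioi ‖ρ‖).indicator k u)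
      (Set.Ioi 1) := by
    intro ρ _
    exact (Integrable.indicator hki measurableSet_Ioi).const_mul _
  calc ∑ ρ ∈ Z, w ρ * ∫ u in Set.Ioi ‖ρ‖, k u
      = ∑ ρ ∈ Z, ∫ u in Set.Ioi (1 : ℝ), w ρ * (Set.Ioi ‖ρ‖).indicator k u := by
        apply Finset.sum_congr rfl
        intro ρ hρ
        rw [integral_const_mul, setIntegral_indicator measurableSet_Ioi, hsub ρ hρ]
    _ = ∫ u in Set.Ioi (1 : ℝ), ∑ ρ ∈ Z, w ρ * (Set.Ioi ‖ρ‖).indicator k u := by
        rw [integral_finsetSum Z hint]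
    _ ≤ ∫ u in Set.Ioi 1, k u * B u := by
        apply setIntegral_mono_on (integrable_finsetSum Z hint) hkB measurableSet_Ioi
        intro u hu
        have hu1 : (1 : ℝ) ≤ u := le_of_lt hu
        have h1 : ∑ ρ ∈ Z, w ρ * (Set.Ioi ‖ρ‖).indicator k u ≤
            ∑ ρ ∈ Z with ‖ρ‖ ≤ u, w ρ * k u := by
          rw [Finset.sum_filter]
          apply Finset.sum_le_sum
          intro ρ hρ
          by_cases h : ‖ρ‖ < u
          · rw [Set.indicator_of_mem (show u ∈ Set.Ioi ‖ρ‖ from h), if_pos h.le]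
          · rw [Set.indicator_of_notMem (show u ∉ Set.Ioi ‖ρ‖ from h), mul_zero]
            split_ifs
            · exact mul_nonneg (hw ρ hρ) (hk u hu1)
            · exact le_rfl
        refine h1.trans ?_
        rw [← Finset.sum_mul, mul_comm]
        exact mul_le_mul_of_nonneg_left (hW u hu1) (hk u hu1)

theorem powz (h : S_Abel) : S_Pow := by
  intro A b p hA hb hbp
  have hp : 0 < p := hb.trans hbp
  refine ⟨∫ u in Set.Ioi (1 : ℝ), (p * u ^ (-p - 1)) * (A * u ^ b), ?_⟩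
  intro Z w hZ hw hW
  have hi : ∀ c : ℝ, c < -1 → IntegrableOn (fun u : ℝ => u ^ c) (Set.Ioi 1) := fun c hc =>
    integrableOn_Ioi_rpow_of_lt hc one_pos
  have h1 := h Z w (fun u => p * u ^ (-p - 1)) (fun u => A * u ^ b) hZ hw
    (fun u hu => by positivity) ((hi _ (by linarith)).const_mul p) ?_ hW
  · refine le_trans (le_of_eq ?_) h1
    apply Finset.sum_congr rfl
    intro ρ hρ
    have hρ1 : 0 < ‖ρ‖ := lt_of_lt_of_le one_pos (hZ ρ hρ)
    rw [integral_const_mul, integral_Ioi_rpow_of_lt (by linarith) hρ1]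
    have : -p - 1 + 1 = -p := by ring
    rw [this]
    field_simp
  · have hI : IntegrableOn (fun u : ℝ => p * A * u ^ (b - p - 1)) (Set.Ioi 1) :=
      (hi (b - p - 1) (by linarith)).const_mul (p * A)
    refine hI.congr_fun ?_ measurableSet_Ioi
    intro u hu
    have hu0 : (0 : ℝ) < u := lt_trans one_pos hu
    have : u ^ (b - p - 1) = u ^ (-p - 1) * u ^ b := by
      rw [← Real.rpow_add hu0]
      congr 1
      ring
    simp only [this]
    ring

end MP7ed9c3.Zr
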