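import Pool.Agent.Lib.MP_7ed9c3_nt.Zr.Spec
import Pool.Agent.Lib.MP_7ed9c3_nt.AllZ

/-!
# MP_7ed9c3_nt, Zr: the Euler product for `Re s ≥ 2`
-/

set_option autoImplicit false

namespace MP7ed9c3.Zr

open NumberField IsDedekindDomain Filter Topology MeasureTheory

/-- The Euler product is an exponential. -/
theorem edge_exp {ι : Type} {N : ι → ℕ} {a : ι → ℤ} {good : ι → Prop} [∀ i, Decidable (good i)]
    {C A : ℝ} (hN : Sparse N C) (haN : ∀ i, |(a i : ℝ)| ≤ N i)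
    (haA : ∀ i, |(a i : ℝ)| ≤ A * √(N i)) :
    ∀ s : ℂ, 3 / 2 < s.re → ∃ L : ℂ, ∏' i, (eden (N i) (a i) (good i) s)⁻¹ = Complex.exp L ∧
      ‖L‖ ≤ ∑' i, A * (N i : ℝ) ^ (1 / 2 - s.re) +
        ∑' i, (12 * (|A| + 1 / 2) ^ 2 + 1) / (N i : ℝ) ^ 2 := by
  intro s hs
  have hA' : ∀ i, |(a i : ℝ)| ≤ |A| * √(N i) := fun i =>
    (haA i).trans (mul_le_mul_of_nonneg_right (le_abs_self A) (Real.sqrt_nonneg _))
  set C₁ : ℝ := 12 * (|A| + 1 / 2) ^ 2 + 1 with hC₁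
  have hlog : ∀ i, eden (N i) (a i) (good i) s ≠ 0 ∧
      ‖a9E N a good i s‖ ≤ C₁ / (N i : ℝ) ^ 2 := fun i =>
    (eulerLog (N i) (a i) (good i) |A| (hN.1 i) (haN i) (hA' i)).1 s hs.le
  have hsum := a9_summable sparseSums hN C₁
  have hsum1 : Summable fun i => A * (N i : ℝ) ^ (1 / 2 - s.re) := by
    have h1 := ((sparseSums ι N C hN).2.1 (s.re - 3 / 2) (by linarith)).mul_left A
    refine h1.congr fun i => ?_
    congr 2
    ring
  have hb : ∀ i, ‖(a i : ℂ) * (N i : ℂ) ^ (-s)‖ ≤ A * (N i : ℝ) ^ (1 / 2 - s.re) := by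
    intro i
    have hNi : 2 ≤ N i := hN.1 i
    have hNpos : (0 : ℝ) < N i := by exact_mod_cast (by omega : 0 < N i)
    rw [norm_mul, Complex.norm_natCast_cpow_of_pos (by omega), Complex.norm_intCast,
      Complex.neg_re]
    calc |(a i : ℝ)| * (N i : ℝ) ^ (-s.re) ≤ (A * √(N i)) * (N i : ℝ) ^ (-s.re) :=
          mul_le_mul_of_nonneg_right (haA i) (Real.rpow_nonneg hNpos.le _)
      _ = A * (N i : ℝ) ^ (1 / 2 - s.re) := by
          rw [Real.sqrt_eq_rpow, mul_assoc, ← Real.rpow_add hNpos]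
          congr 2
  have hS : Summable fun i => (a i : ℂ) * (N i : ℂ) ^ (-s) :=
    Summable.of_norm_bounded hsum1 hb
  have hE : Summable fun i => a9E N a good i s :=
    Summable.of_norm_bounded hsum fun i => (hlog i).2
  have hhs := hS.hasSum.add hE.hasSum
  have hfun : (fun i => (a i : ℂ) * (N i : ℂ) ^ (-s) + a9E N a good i s) =
      fun i => -Complex.log (eden (N i) (a i) (good i) s) := by
    funext i
    rw [a9E]
    ring
  rw [hfun] at hhs
  have hprod := hhs.cexp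
  have hfun2 : (Complex.exp ∘ fun i => -Complex.log (eden (N i) (a i) (good i) s)) =
      fun i => (eden (N i) (a i) (good i) s)⁻¹ := by
    funext i
    simp only [Function.comp_apply]
    rw [Complex.exp_neg, Complex.exp_log (hlog i).1]
  rw [hfun2] at hprod
  refine ⟨_, hprod.tprod_eq, (norm_add_le _ _).trans (add_le_add ?_ ?_)⟩
  · exact tsum_of_norm_bounded hsum1.hasSum hb
  · exact tsum_of_norm_bounded hsum.hasSum fun i => (hlog i).2

/-- The Euler product of an elliptic curve is an exponential for `Re s > 3/2`. -/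
theorem edge_all (K : Type) [Field K] [NumberField K] (E : WeierstrassCurve K)
    (hE : E.IsElliptic) (M : HeightOneSpectrum (𝓞 K) → WeierstrassCurve (𝓞 K))
    (hM : ∀ v, IsMinAt E v (M v)) :
    ∃ A D : ℝ, 0 ≤ A ∧ (∀ ε : ℝ, 0 < ε →
        Summable fun v : HeightOneSpectrum (𝓞 K) => (nm v : ℝ) ^ (-(1 + ε))) ∧
      (∀ v : HeightOneSpectrum (𝓞 K), 2 ≤ nm v) ∧ ∀ s : ℂ, 3 / 2 < s.re → ∃ L : ℂ,
      ∏' v : HeightOneSpectrum (𝓞 K), (locDen (M v) v s)⁻¹ = Complex.exp L ∧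
      ‖L‖ ≤ ∑' v : HeightOneSpectrum (𝓞 K), A * (nm v : ℝ) ^ (1 / 2 - s.re) + D := by
  classical
  obtain ⟨C, hC⟩ := countPrimes K
  obtain ⟨S, hSfin, hgood, A, hA0, hA⟩ :=
    Z5.trace_const existsModel goodDataAll traceBoundAll hE hM
  refine ⟨A, ∑' v : HeightOneSpectrum (𝓞 K), (12 * (|A| + 1 / 2) ^ 2 + 1) / (nm v : ℝ) ^ 2,
    hA0, (sparseSums _ _ C hC).2.1, hC.1, fun s hs => ?_⟩
  obtain ⟨L, hL1, hL2⟩ := @edge_exp (HeightOneSpectrum (𝓞 K)) (fun v => nm v)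
    (fun v => tr (M v) v) (fun v => (M v).Δ ∉ v.asIdeal) (fun v => Classical.propDecidable _)
    C A hC (fun v => (traceBoundAll K (M v) v).1) hA s hs
  refine ⟨L, ?_, hL2⟩
  rw [← hL1]
  refine tprod_congr fun v => ?_
  unfold locDen
  exact congrArg _ (Z5.eden_inst _ _ _)

/-- The Euler product does not vanish. -/
theorem edge_ne (K : Type) [Field K] [NumberField K] (E : WeierstrassCurve K)
    (hE : E.IsElliptic) (M : HeightOneSpectrum (𝓞 K) → WeierstrassCurve (𝓞 K))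
    (hM : ∀ v, IsMinAt E v (M v)) (s : ℂ) (hs : 3 / 2 < s.re) :
    ∏' v : HeightOneSpectrum (𝓞 K), (locDen (M v) v s)⁻¹ ≠ 0 := by
  obtain ⟨A, D, _, _, _, h⟩ := edge_all K E hE M hM
  obtain ⟨L, hL, _⟩ := h s hs
  rw [hL]
  exact Complex.exp_ne_zero L

/-- **F9.** -/
theorem edgez : S_Edge := by
  intro K _ _ E hE M hM
  obtain ⟨A, D, hA, hsum, h2, h⟩ := edge_all K E hE M hM
  set B₀ : ℝ := ∑' v : HeightOneSpectrum (𝓞 K), A * (nm v : ℝ) ^ (-(1 + 1 / 2) : ℝ) + D with hB₀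
  have key : ∀ s : ℂ, 2 ≤ s.re → ∃ L : ℂ,
      ∏' v : HeightOneSpectrum (𝓞 K), (locDen (M v) v s)⁻¹ = Complex.exp L ∧ ‖L‖ ≤ B₀ := by
    intro s hs
    obtain ⟨L, hL, hL'⟩ := h s (by linarith)
    refine ⟨L, hL, hL'.trans ?_⟩
    have hle : ∀ v : HeightOneSpectrum (𝓞 K), A * (nm v : ℝ) ^ (1 / 2 - s.re) ≤
        A * (nm v : ℝ) ^ (-(1 + 1 / 2) : ℝ) := fun v => by
      refine mul_le_mul_of_nonneg_left ?_ hA
      have : (1 : ℝ) ≤ nm v := by exact_mod_cast (by have := h2 v; omega : 1 ≤ nm v)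
      exact Real.rpow_le_rpow_of_exponent_le this (by linarith)
    have hs2 : Summable fun v : HeightOneSpectrum (𝓞 K) => A * (nm v : ℝ) ^ (-(1 + 1 / 2) : ℝ) :=
      (hsum (1 / 2) (by norm_num)).mul_left A
    have hs1 : Summable fun v : HeightOneSpectrum (𝓞 K) => A * (nm v : ℝ) ^ (1 / 2 - s.re) :=
      Summable.of_nonneg_of_le (fun v => by positivity) hle hs2
    rw [hB₀]
    have := hs1.tsum_le_tsum hle hs2
    linarith
  refine ⟨Real.exp B₀, Real.exp_pos _, fun s hs => ?_⟩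
  obtain ⟨L, hL, hL'⟩ := key s hs
  rw [hL, Complex.norm_exp]
  have h1 := (Complex.abs_re_le_norm L).trans hL'
  rw [abs_le] at h1
  refine ⟨?_, Real.exp_le_exp.2 h1.2⟩
  rw [← Real.exp_neg]
  exact Real.exp_le_exp.2 h1.1

end MP7ed9c3.Zr
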