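import Pool.Agent.Lib.MP_7ed9c3_nt.Zr.Spec
import Pool.Agent.Lib.MP_7ed9c3_nt.Zr.Edge

/-!
# MP_7ed9c3_nt, Zr: the number of zeros of a continuation
-/

set_option autoImplicit false

namespace MP7ed9c3.Zr

open NumberField IsDedekindDomain Filter Topology MeasureTheory

/-- The end of the proofs of Z1 and Z2. -/
theorem contra (h5 : S_PL) (K : Type) [Field K] [NumberField K] (E : WeierstrassCurve K)
    (hE : E.IsElliptic) (M : HeightOneSpectrum (𝓞 K) → WeierstrassCurve (𝓞 K))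
    (hM : ∀ v, IsMinAt E v (M v)) (F : ℂ → ℂ) (hF : Differentiable ℂ F)
    (hFe : ∀ s : ℂ, 3 / 2 < s.re → F s = ∏' v : HeightOneSpectrum (𝓞 K), (locDen (M v) v s)⁻¹)
    {C a : ℝ} (hO : Ord F C a) (ha : a < 2) {B : ℝ} (hB : ∀ s : ℂ, 2 ≤ s.re → ‖F s‖ ≤ B)
    {κ A D : ℝ} (hκ : κ < 2) (hκ0 : 0 ≤ κ)
    (hx : ∀ r : ℝ, 3 ≤ r → ‖F (3 + (-(r : ℂ)))‖ ≤
      Real.exp (κ * (r * Real.log r) + A * r + D)) : False := by
  set c : ℝ := max 1 κ with hc
  have hc2 : c < 2 := max_lt (by norm_num) hκ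
  have hlog3 : Real.log 3 ≤ 2 := by
    have := Real.log_le_sub_one_of_pos (show (0 : ℝ) < 3 by norm_num)
    linarith
  have key : ∀ x : ℝ, 0 ≤ x → ‖F (-(x : ℂ))‖ ≤
      Real.exp (c * (x * Real.log (1 + x)) + (6 * κ + 3 * |A| + |D|) * (1 + x)) := by
    intro x hx0
    have h1 := hx (x + 3) (by linarith)
    have e : (3 + (-((x + 3 : ℝ) : ℂ))) = -(x : ℂ) := by push_cast; ring
    rw [e] at h1
    refine h1.trans (Real.exp_le_exp.2 ?_)
    have h2 : Real.log (x + 3) ≤ Real.log 3 + Real.log (1 + x) := by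
      rw [← Real.log_mul (by norm_num) (by linarith)]
      exact Real.log_le_log (by linarith) (by linarith)
    have hl0 : 0 ≤ Real.log (1 + x) := Real.log_nonneg (by linarith)
    have hl1 : Real.log (1 + x) ≤ x := by
      have := Real.log_le_sub_one_of_pos (show 0 < 1 + x by linarith)
      linarith
    have h3 : (x + 3) * Real.log (x + 3) ≤ x * Real.log (1 + x) + 6 * (1 + x) := by
      have : (x + 3) * Real.log (x + 3) ≤ (x + 3) * (2 + Real.log (1 + x)) :=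
        mul_le_mul_of_nonneg_left (by linarith) (by linarith)
      nlinarith
    have h4 : κ * ((x + 3) * Real.log (x + 3)) ≤ κ * (x * Real.log (1 + x) + 6 * (1 + x)) :=
      mul_le_mul_of_nonneg_left h3 hκ0
    have h5' : κ * (x * Real.log (1 + x)) ≤ c * (x * Real.log (1 + x)) :=
      mul_le_mul_of_nonneg_right (le_max_right _ _) (by positivity)
    have h6 : A * (x + 3) ≤ 3 * |A| * (1 + x) := by
      have := le_abs_self A
      have := abs_nonneg A
      nlinarith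
    have h7 : D ≤ |D| * (1 + x) := by
      have := le_abs_self D
      have := abs_nonneg D
      nlinarith
    nlinarith
  obtain ⟨R', hR'⟩ := h5 F c (6 * κ + 3 * |A| + |D|) B C a (le_max_left _ _) hF hO ha hB key
  obtain ⟨s, hs⟩ := growth2All K E hE M hM F hF hFe c R' hc2
  exact absurd (hR' s) (not_le.2 hs)

lemma num_mono (Φ : ℂ → ℂ) (R : ℝ) {t t' : ℝ} (h : t ≤ t') : num Φ R t ≤ num Φ R t' := by
  classical
  unfold num
  refine Finset.sum_le_sum_of_subset_of_nonneg ?_ fun _ _ _ => Nat.cast_nonneg _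
  intro ρ hρ
  rw [Finset.mem_filter] at hρ ⊢
  exact ⟨hρ.1, hρ.2.trans h⟩

lemma shift_log {κ κ' : ℝ} (hκ : 0 ≤ κ) (hκ' : κ < κ') :
    ∃ A : ℝ, 0 ≤ A ∧ ∀ t : ℝ, 1 ≤ t →
      κ * ((t + 3) * Real.log (t + 3)) ≤ κ' * (t * Real.log t) + A := by
  set T : ℝ := max 1 (3 * κ / (κ' - κ)) with hT
  have hd : 0 < κ' - κ := by linarith
  have hT1 : 1 ≤ T := le_max_left _ _
  have hlT : 0 ≤ Real.log T := Real.log_nonneg hT1
  refine ⟨12 * κ + 3 * κ * Real.log T, by positivity, fun t ht => ?_⟩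
  have ht0 : 0 < t := by linarith
  have hl0 : 0 ≤ Real.log t := Real.log_nonneg ht
  have h1 : Real.log (t + 3) ≤ Real.log t + 3 / t := by
    have h2 : t + 3 = t * (1 + 3 / t) := by field_simp
    rw [h2, Real.log_mul ht0.ne' (by positivity)]
    have := Real.log_le_sub_one_of_pos (show 0 < 1 + 3 / t by positivity)
    linarith
  have h2 : (t + 3) * Real.log (t + 3) ≤ t * Real.log t + 3 * Real.log t + 12 := by
    have h3 : (t + 3) * Real.log (t + 3) ≤ (t + 3) * (Real.log t + 3 / t) :=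
      mul_le_mul_of_nonneg_left h1 (by linarith)
    have h4 : (t + 3) * (3 / t) ≤ 12 := by
      rw [mul_div_assoc', div_le_iff₀ ht0]
      linarith
    nlinarith
  have h3 : κ * (3 * Real.log t) ≤ (κ' - κ) * (t * Real.log t) + 3 * κ * Real.log T := by
    rcases le_total T t with h | h
    · have h4 : 3 * κ ≤ (κ' - κ) * t := by
        have h5 : 3 * κ / (κ' - κ) ≤ t := (le_max_right _ _).trans h
        rw [div_le_iff₀ hd] at h5
        linarith
      have h6 := mul_le_mul_of_nonneg_right h4 hl0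
      have h7 : 0 ≤ 3 * κ * Real.log T := by positivity
      nlinarith
    · have h4 : Real.log t ≤ Real.log T := Real.log_le_log ht0 h
      have h5 : 0 ≤ (κ' - κ) * (t * Real.log t) := by positivity
      have h6 := mul_le_mul_of_nonneg_left h4 (by positivity : 0 ≤ 3 * κ)
      nlinarith
  have h4 := mul_le_mul_of_nonneg_left h2 hκ
  nlinarith

/-- **Z1.** -/
theorem zerosOf (h5 : S_PL) (h6 : S_Even) (h8 : S_Reduce) (h9 : S_Edge) (h10 : S_Shift) :
    S_Z1 := by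
  intro K _ _ E hE M hM F hF hFe hOrd κ r₀ hκ
  obtain ⟨C, a, hO⟩ := hOrd
  by_contra hcon
  push_neg at hcon
  obtain ⟨B, hB0, hB⟩ := h9 K E hE M hM
  have hBF : ∀ s : ℂ, 2 ≤ s.re → B⁻¹ ≤ ‖F s‖ ∧ ‖F s‖ ≤ B := fun s hs => by
    rw [hFe s (by linarith)]
    exact hB s hs
  have hFne : ∀ s : ℂ, 3 / 2 < s.re → F s ≠ 0 := fun s hs => by
    rw [hFe s hs]
    exact edge_ne K E hE M hM s hs
  have hO' : Ord F |C| (max a 0) := fun s => by
    refine (hO s).trans (Real.exp_le_exp.2 ?_)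
    have h1 : (1 : ℝ) ≤ 1 + ‖s‖ := by linarith [norm_nonneg s]
    have h2 : (1 + ‖s‖) ^ a ≤ (1 + ‖s‖) ^ (max a 0) :=
      Real.rpow_le_rpow_of_exponent_le h1 (le_max_left _ _)
    calc C * (1 + ‖s‖) ^ a ≤ |C| * (1 + ‖s‖) ^ a :=
          mul_le_mul_of_nonneg_right (le_abs_self _) (by positivity)
      _ ≤ |C| * (1 + ‖s‖) ^ (max a 0) := mul_le_mul_of_nonneg_left h2 (abs_nonneg _)
  obtain ⟨Φ, hΦ, hΦ0, ⟨C', hC'0, hC'⟩, ⟨C₀, hC₀, hFΦ⟩, hzero, hnum, -⟩ :=
    h10 F |C| (max a 0) B hF (le_max_right _ _) hO' hB0 hBF hFne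
  have hzn : ∀ ρ : ℂ, Φ ρ = 0 → 1 ≤ ‖ρ‖ := fun ρ hρ => by
    have h1 := hzero ρ hρ
    have h2 := Complex.abs_re_le_norm ρ
    have h3 := neg_abs_le ρ.re
    linarith
  -- the constants
  have hpi := Real.pi_pos
  set κ₁ : ℝ := max κ 0 with hκ₁
  have hκ₁0 : 0 ≤ κ₁ := le_max_right _ _
  have hκ₁' : κ₁ < 2 / Real.pi := max_lt hκ (by positivity)
  set κ' : ℝ := (κ₁ + 2 / Real.pi) / 2 with hκ'
  have hκ'1 : κ₁ < κ' := by rw [hκ']; linarith
  have hκ'2 : κ' < 2 / Real.pi := by rw [hκ']; linarith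
  have hκ'0 : 0 ≤ κ' := by linarith
  have hpk : Real.pi * κ' < 2 := by
    rw [lt_div_iff₀ hpi] at hκ'2
    linarith
  set r₁ : ℝ := max r₀ 1 with hr₁
  have hr₁1 : 1 ≤ r₁ := le_max_right _ _
  obtain ⟨A₀, hA₀, hsl⟩ := shift_log hκ₁0 hκ'1
  have hN : ∀ t : ℝ, r₁ ≤ t → ∀ R : ℝ, num Φ R t ≤ κ' * (t * Real.log t) + A₀ := by
    intro t ht R
    have ht1 : 1 ≤ t := hr₁1.trans ht
    have hl : 0 ≤ Real.log (t + 3) := Real.log_nonneg (by linarith)
    have h1 := hnum R t ht1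
    have h2 := hcon (t + 3) (by linarith [(le_max_left r₀ 1).trans ht])
    have h3 : κ * ((t + 3) * Real.log (t + 3)) ≤ κ₁ * ((t + 3) * Real.log (t + 3)) :=
      mul_le_mul_of_nonneg_right (le_max_left _ _) (by positivity)
    linarith [hsl t ht1]
  set A : ℝ := A₀ + κ' * (r₁ * Real.log r₁) with hA
  have hlr : 0 ≤ Real.log r₁ := Real.log_nonneg hr₁1
  have hA0 : 0 ≤ A := by positivity
  have hnumA : ∀ R t : ℝ, 1 ≤ t → num Φ R t ≤ κ' * (t * Real.log t) + A := by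
    intro R t ht
    have hlt : 0 ≤ Real.log t := Real.log_nonneg ht
    rcases le_total r₁ t with h | h
    · have h1 := hN t h R
      have h2 : 0 ≤ κ' * (r₁ * Real.log r₁) := by positivity
      linarith
    · have h1 := (num_mono Φ R h).trans (hN r₁ le_rfl R)
      have h2 : 0 ≤ κ' * (t * Real.log t) := by positivity
      linarith
  have hnum32 : ∀ R t : ℝ, 1 ≤ t → num Φ R t ≤ (2 * κ' + A) * t ^ (3 / 2 : ℝ) := by
    intro R t ht
    have ht0 : 0 < t := by linarith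
    have h1 : Real.log t ≤ 2 * √t := by
      have h2 : Real.log t = 2 * Real.log (√t) := by
        rw [Real.log_sqrt ht0.le]
        ring
      have h3 := Real.log_le_sub_one_of_pos (Real.sqrt_pos.2 ht0)
      linarith
    have h2 : t ^ (3 / 2 : ℝ) = t * √t := by
      rw [Real.sqrt_eq_rpow, show (3 / 2 : ℝ) = 1 + 1 / 2 by norm_num, Real.rpow_add ht0,
        Real.rpow_one]
    have h3 : t * Real.log t ≤ 2 * t ^ (3 / 2 : ℝ) := by
      rw [h2]
      nlinarith [mul_le_mul_of_nonneg_left h1 ht0.le]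
    have h4 : (1 : ℝ) ≤ t ^ (3 / 2 : ℝ) := Real.one_le_rpow ht (by norm_num)
    have h5 := hnumA R t ht
    have h6 := mul_le_mul_of_nonneg_left h3 hκ'0
    have h7 := mul_le_mul_of_nonneg_left h4 hA0
    linarith
  set B₁ : ℝ := B⁻¹ / C₀ with hB₁
  have hB₁0 : 0 < B₁ := by positivity
  have hlow : ∀ z : ℂ, 0 ≤ z.re → B₁ ≤ ‖Φ z‖ := by
    intro z hz
    have h1 := (hBF (3 + z) (by simp; linarith)).1
    rw [hFΦ z] at h1
    rw [hB₁, div_le_iff₀ hC₀]
    linarith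
  obtain ⟨C₂, hC₂0, hC₂⟩ := h8 Φ C' (max a 0) (2 * κ' + A) B₁ hΦ hΦ0 hC'0 (le_max_right _ _) hC'
    (by positivity) hB₁0 hzn hnum32 hlow
  obtain ⟨A₁, hA₁⟩ := h6 Φ C₂ (7 / 4) κ' A hΦ hΦ0 hC₂0 (by norm_num) hC₂ (by norm_num) hκ'0 hA0
    hzn hnumA
  -- the growth of `F`
  have hOF : Ord F (|Real.log C₀| + C₂ * 4 ^ (7 / 4 : ℝ)) (7 / 4) := by
    intro s
    have e : s = 3 + (s - 3) := by ring
    have h1 : ‖F s‖ = C₀ * ‖Φ (s - 3)‖ := by
      rw [← hFΦ (s - 3)]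
      congr 2
    rw [h1]
    have hs1 : (1 : ℝ) ≤ 1 + ‖s‖ := by linarith [norm_nonneg s]
    have h2 : C₀ ≤ Real.exp |Real.log C₀| := by
      conv_lhs => rw [← Real.exp_log hC₀]
      exact Real.exp_le_exp.2 (le_abs_self _)
    have h3 := mul_le_mul h2 (hC₂ (s - 3)) (norm_nonneg _) (Real.exp_pos _).le
    refine h3.trans ?_
    rw [← Real.exp_add]
    refine Real.exp_le_exp.2 ?_
    have h4 : 1 + ‖s - 3‖ ≤ 4 * (1 + ‖s‖) := by
      have := norm_sub_le s 3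
      have h5 : ‖(3 : ℂ)‖ = 3 := by simp
      rw [h5] at this
      linarith [norm_nonneg s]
    have h5 : (1 + ‖s - 3‖) ^ (7 / 4 : ℝ) ≤ 4 ^ (7 / 4 : ℝ) * (1 + ‖s‖) ^ (7 / 4 : ℝ) := by
      rw [← Real.mul_rpow (by norm_num) (by linarith)]
      exact Real.rpow_le_rpow (by positivity) h4 (by norm_num)
    have h6 : (1 : ℝ) ≤ (1 + ‖s‖) ^ (7 / 4 : ℝ) := Real.one_le_rpow hs1 (by norm_num)
    have h7 := mul_le_mul_of_nonneg_left h5 hC₂0
    have h8 := mul_le_mul_of_nonneg_left h6 (abs_nonneg (Real.log C₀))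
    linarith
  have hfin : ∀ r : ℝ, 3 ≤ r → ‖F (3 + (-(r : ℂ)))‖ ≤
      Real.exp (Real.pi * κ' * (r * Real.log r) + A₁ * r + Real.log (C₀ / B₁)) := by
    intro r hr
    have h1 := hA₁ r (by linarith)
    have h2 := hlow r (by simp; linarith)
    rw [norm_mul] at h1
    rw [hFΦ, Real.exp_add, Real.exp_log (by positivity)]
    have h3 : B₁ * ‖Φ (-(r : ℂ))‖ ≤ Real.exp (Real.pi * κ' * (r * Real.log r) + A₁ * r) :=
      (mul_le_mul_of_nonneg_right h2 (norm_nonneg _)).trans h1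
    have h4 : ‖Φ (-(r : ℂ))‖ ≤ Real.exp (Real.pi * κ' * (r * Real.log r) + A₁ * r) / B₁ := by
      rw [le_div_iff₀ hB₁0]
      linarith
    calc C₀ * ‖Φ (-(r : ℂ))‖ ≤
        C₀ * (Real.exp (Real.pi * κ' * (r * Real.log r) + A₁ * r) / B₁) :=
          mul_le_mul_of_nonneg_left h4 hC₀.le
      _ = _ := by ring
  exact contra h5 K E hE M hM F hF hFe hOF (by norm_num) (fun s hs => (hBF s hs).2) hpk
    (by positivity) hfin

end MP7ed9c3.Zr
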