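import Pool.Agent.Lib.MP_7ed9c3_nt.Zr.Shift
import Pool.Agent.Lib.MP_7ed9c3_nt.Zr.Edge

/-!
# MP_7ed9c3_nt, part Zr: Z2, zeros in the left half plane
-/

set_option autoImplicit false

namespace MP7ed9c3.Zr

open NumberField IsDedekindDomain Filter Topology MeasureTheory

theorem asm2_log (x : ℝ) (hx : 0 ≤ x) :
    (x + 3) * Real.log (x + 3) ≤ x * Real.log (1 + x) + 8 * (1 + x) := by
  have h1 : Real.log (x + 3) ≤ Real.log (1 + x) + 2 / (1 + x) := by
    have h2 : x + 3 = (1 + x) * (1 + 2 / (1 + x)) := by field_simp; ring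
    rw [h2, Real.log_mul (by positivity) (by positivity)]
    have h3 : Real.log (1 + 2 / (1 + x)) ≤ 2 / (1 + x) := by
      have := Real.log_le_sub_one_of_pos (show 0 < 1 + 2 / (1 + x) by positivity)
      linarith
    linarith
  have h4 : x * (2 / (1 + x)) ≤ 2 := by
    rw [mul_div_assoc', div_le_iff₀ (by positivity)]; linarith
  have h5 : Real.log (x + 3) ≤ x + 2 := by
    have := Real.log_le_sub_one_of_pos (show 0 < x + 3 by positivity)
    linarith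
  nlinarith [mul_le_mul_of_nonneg_left h1 hx]

theorem asmZ2 (f2 : S_Jensen) (f4 : S_Pow) (f5 : S_PL) (f7 : S_Odd) (f9 : S_Edge)
    (f10 : S_Shift) : S_Z2 := by
  classical
  intro K _ _ E hE M hM F hF hFE hfin κ r₀ hκ
  obtain ⟨C, a, ha2, hord⟩ := hfin
  by_contra hcon
  push Not at hcon
  -- normalisations
  set κ' : ℝ := max κ 0 with hκ'
  have hκ'0 : 0 ≤ κ' := le_max_right _ _
  have hκ'1 : κ' < 1 := max_lt hκ one_pos
  set r₁ : ℝ := max r₀ 3 with hr₁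
  have hr₁3 : 3 ≤ r₁ := le_max_right _ _
  set a' : ℝ := max a 1 with ha'
  have ha'1 : 1 ≤ a' := le_max_right _ _
  have ha'2 : a' < 2 := max_lt ha2 (by norm_num)
  have hord' : Ord F |C| a' := by
    intro s
    refine (hord s).trans (Real.exp_le_exp.mpr ?_)
    have h1 : (1 : ℝ) ≤ 1 + ‖s‖ := by linarith [norm_nonneg s]
    calc C * (1 + ‖s‖) ^ a ≤ |C| * (1 + ‖s‖) ^ a :=
          mul_le_mul_of_nonneg_right (le_abs_self _) (by positivity)
      _ ≤ |C| * (1 + ‖s‖) ^ a' := mul_le_mul_of_nonneg_left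
          (Real.rpow_le_rpow_of_exponent_le h1 (le_max_left _ _)) (abs_nonneg _)
  obtain ⟨B, hB, hBs⟩ := f9 K E hE M hM
  have hFB : ∀ s : ℂ, 2 ≤ s.re → B⁻¹ ≤ ‖F s‖ ∧ ‖F s‖ ≤ B := by
    intro s hs
    rw [hFE s (by linarith)]
    exact hBs s hs
  have hFne : ∀ s : ℂ, 3 / 2 < s.re → F s ≠ 0 := by
    intro s hs
    rw [hFE s hs]
    exact edge_ne K E hE M hM s hs
  obtain ⟨Φ, hΦd, hΦ0, ⟨C', hC'0, hC'⟩, ⟨C₀, hC₀, hFΦ⟩, hΦre, -, hΦsum⟩ :=
    f10 F |C| a' B hF (by linarith) hord' hB hFB hFne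
  obtain ⟨A, hA⟩ := f2 Φ C' a' hΦd hΦ0 hC'0 (by linarith) hC'
  obtain ⟨A₁, hA₁⟩ := f4 (max A 0) a' 2 (le_max_right _ _) (by linarith) ha'2
  have hzer : ∀ R : ℝ, ∀ ρ ∈ zer Φ R, Φ ρ = 0 := by
    intro R ρ hρ
    rw [zer] at hρ
    split_ifs at hρ with hfin
    · rw [Set.Finite.mem_toFinset] at hρ
      exact hρ.2
    · simp at hρ
  have hn1 : ∀ ρ : ℂ, Φ ρ = 0 → 1 ≤ ‖ρ‖ := by
    intro ρ hρ
    have h1 := hΦre ρ hρ
    have h2 := Complex.abs_re_le_norm ρ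
    have h3 : 1 ≤ |ρ.re| := by rw [le_abs]; right; linarith
    linarith
  have hS2 : ∀ R : ℝ, ∑ ρ ∈ zer Φ R, (analyticOrderNatAt Φ ρ : ℝ) * ‖ρ‖ ^ (-(2 : ℝ)) ≤ A₁ := by
    intro R
    apply hA₁ (zer Φ R) (fun ρ => (analyticOrderNatAt Φ ρ : ℝ))
      (fun ρ hρ => hn1 ρ (hzer R ρ hρ)) (fun ρ _ => by positivity)
    intro t ht
    refine (hA R t ht).trans (mul_le_mul_of_nonneg_right (le_max_left _ _) (by positivity))
  -- the sums of F
  set f : ℂ → ℝ := fun ρ => (analyticOrderNatAt F ρ : ℝ) * (|ρ.re| / ‖ρ‖ ^ 2) with hf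
  have hfnn : ∀ ρ, 0 ≤ f ρ := fun ρ => by rw [hf]; positivity
  have hFfin : ∀ t : ℝ, ({ρ : ℂ | ‖ρ‖ ≤ t ∧ ρ.re < 0} ∩ Function.support f).Finite := by
    intro t
    have hF3 : F 3 ≠ 0 := hFne 3 (by norm_num)
    apply (factor_finite hF hF3 (t + 1)).subset
    intro ρ hρ
    refine ⟨by linarith [hρ.1.1], ?_⟩
    apply apply_eq_zero_of_analyticOrderNatAt_ne_zero
    intro h4
    have h5 := hρ.2
    rw [Function.mem_support, hf] at h5
    simp only [h4] at h5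
    simp at h5
  have hbig : ∀ t : ℝ, r₁ ≤ t → ∑ᶠ ρ ∈ {ρ : ℂ | ‖ρ‖ ≤ t ∧ ρ.re < 0}, f ρ ≤ κ' * Real.log t := by
    intro t ht
    have h1 := hcon t ((le_max_left _ _).trans ht)
    refine h1.trans (mul_le_mul_of_nonneg_right (le_max_left _ _) (Real.log_nonneg (by linarith)))
  have hlogr₁ : 0 ≤ Real.log r₁ := Real.log_nonneg (by linarith)
  have hall : ∀ t : ℝ, 1 ≤ t → ∑ᶠ ρ ∈ {ρ : ℂ | ‖ρ‖ ≤ t ∧ ρ.re < 0}, f ρ ≤
      κ' * Real.log t + κ' * Real.log r₁ := by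
    intro t ht
    have hlogt : 0 ≤ Real.log t := Real.log_nonneg ht
    rcases le_or_gt r₁ t with h | h
    · have h1 := hbig t h
      have : 0 ≤ κ' * Real.log r₁ := mul_nonneg hκ'0 hlogr₁
      linarith
    · have h1 : ∑ᶠ ρ ∈ {ρ : ℂ | ‖ρ‖ ≤ t ∧ ρ.re < 0}, f ρ ≤
          ∑ᶠ ρ ∈ {ρ : ℂ | ‖ρ‖ ≤ r₁ ∧ ρ.re < 0}, f ρ := by
        rw [finsum_mem_eq_sum f (hFfin t)]
        apply shift_sum_le f _ (hFfin r₁) hfnn
        intro x hx
        rw [Set.Finite.mem_toFinset] at hx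
        exact ⟨hx.1.1.trans h.le, hx.1.2⟩
      have h2 := hbig r₁ le_rfl
      have : 0 ≤ κ' * Real.log t := mul_nonneg hκ'0 hlogt
      linarith
  have hA₁nn : 0 ≤ A₁ := (Finset.sum_nonneg (fun ρ _ => by positivity)).trans (hS2 0)
  obtain ⟨A₂, hA₂⟩ := f7 Φ C' a' κ' (κ' * Real.log r₁ + 3 * A₁) hΦd hΦ0 hC'0 (by linarith) hC'
    ha'2 hκ'0 (by positivity) hΦre (fun R t ht => by
      have h1 := hΦsum R t ht
      have h2 := hall t ht
      have h3 := hS2 R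
      linarith)
  -- growth on the negative axis
  set c : ℝ := max 1 (2 * κ') with hc
  have hc1 : 1 ≤ c := le_max_left _ _
  have hc2 : c < 2 := max_lt (by norm_num) (by linarith)
  have hneg : ∀ x : ℝ, 0 ≤ x → ‖F (-(x : ℂ))‖ ≤ Real.exp (c * (x * Real.log (1 + x)) +
      (|Real.log B| + 16 * κ' + 3 * |A₂|) * (1 + x)) := by
    intro x hx
    have e1 : (-(x : ℂ)) = 3 + (-((x + 3 : ℝ) : ℂ)) := by push_cast; ring
    have e2 := hA₂ (x + 3) (by linarith)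
    have e3 : C₀ * ‖Φ ((x + 3 : ℝ) : ℂ)‖ ≤ B := by
      rw [← hFΦ]
      refine (hFB _ ?_).2
      simp only [Complex.add_re, Complex.re_ofNat, Complex.ofReal_re]
      linarith
    rw [e1, hFΦ]
    have hlog1 := asm2_log x hx
    have hxl : 0 ≤ x * Real.log (1 + x) := mul_nonneg hx (Real.log_nonneg (by linarith))
    calc C₀ * ‖Φ (-((x + 3 : ℝ) : ℂ))‖ ≤ C₀ * (‖Φ ((x + 3 : ℝ) : ℂ)‖ *
          Real.exp (2 * κ' * ((x + 3) * Real.log (x + 3)) + A₂ * (x + 3))) :=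
          mul_le_mul_of_nonneg_left e2 hC₀.le
      _ = (C₀ * ‖Φ ((x + 3 : ℝ) : ℂ)‖) *
          Real.exp (2 * κ' * ((x + 3) * Real.log (x + 3)) + A₂ * (x + 3)) := by ring
      _ ≤ Real.exp (Real.log B) *
          Real.exp (2 * κ' * ((x + 3) * Real.log (x + 3)) + A₂ * (x + 3)) := by
          rw [Real.exp_log hB]
          exact mul_le_mul_of_nonneg_right e3 (Real.exp_pos _).le
      _ = Real.exp (Real.log B + (2 * κ' * ((x + 3) * Real.log (x + 3)) + A₂ * (x + 3))) :=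
          (Real.exp_add _ _).symm
      _ ≤ _ := by
          apply Real.exp_le_exp.mpr
          have g1 : Real.log B ≤ |Real.log B| * (1 + x) := by
            have := le_abs_self (Real.log B)
            nlinarith [abs_nonneg (Real.log B)]
          have g2 : A₂ * (x + 3) ≤ 3 * |A₂| * (1 + x) := by
            have := le_abs_self A₂
            nlinarith [abs_nonneg A₂]
          have g3 : 2 * κ' * ((x + 3) * Real.log (x + 3)) ≤
              2 * κ' * (x * Real.log (1 + x) + 8 * (1 + x)) :=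
            mul_le_mul_of_nonneg_left hlog1 (by positivity)
          have g4 : 2 * κ' * (x * Real.log (1 + x)) ≤ c * (x * Real.log (1 + x)) :=
            mul_le_mul_of_nonneg_right (le_max_right _ _) hxl
          nlinarith
  obtain ⟨R', hR'⟩ := f5 F c _ B |C| a' hc1 hF hord' ha'2 (fun s hs => (hFB s hs).2) hneg
  obtain ⟨s, hs⟩ := growth2All K E hE M hM F hF hFE c R' hc2
  exact absurd (hR' s) (not_le.mpr hs)

end MP7ed9c3.Zr
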