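import Pool.Agent.Lib.MP_7ed9c3_nt.Zr.Spec

/-!
# MP_7ed9c3_nt, part Zr: F6, the even part
-/

set_option autoImplicit false

namespace MP7ed9c3.Zr

open Filter Topology

theorem evenz_mem {Φ : ℂ → ℂ} {R : ℝ} {ρ : ℂ} (h : ρ ∈ zer Φ R) : ‖ρ‖ < R ∧ Φ ρ = 0 := by
  rw [zer] at h
  split_ifs at h with hf
  · exact (Set.Finite.mem_toFinset hf).1 h
  · simp at h

/-- the even part of the product over the zeros -/
theorem evenz_prod (Φ : ℂ → ℂ) (R r : ℝ) :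
    ‖prodZ Φ R r * prodZ Φ R (-(r : ℂ))‖ ≤
      Real.exp (∑ ρ ∈ zer Φ R, (analyticOrderNatAt Φ ρ : ℝ) * Real.log (1 + r ^ 2 / ‖ρ‖ ^ 2)) := by
  rw [prodZ, prodZ, ← Finset.prod_mul_distrib, norm_prod, Real.exp_sum]
  apply Finset.prod_le_prod
  · intro ρ _
    exact norm_nonneg _
  · intro ρ _
    have hpos : 0 < 1 + r ^ 2 / ‖ρ‖ ^ 2 := by positivity
    rw [← mul_pow, norm_pow, Real.exp_nat_mul, Real.exp_log hpos]
    apply pow_le_pow_left₀ (norm_nonneg _)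
    have e : (1 - (r : ℂ) / ρ) * (1 - -(r : ℂ) / ρ) = 1 - (r : ℂ) ^ 2 / ρ ^ 2 := by ring
    rw [e]
    refine (norm_sub_le _ _).trans ?_
    rw [norm_one, norm_div, norm_pow, norm_pow, Complex.norm_real, Real.norm_eq_abs, sq_abs]

theorem evenz (h3 : S_Log) (h4 : S_Even1) : S_Even := by
  intro Φ C a κ A hΦ hΦ1 hC ha hO ha2 hκ hA hz hnum
  obtain ⟨c, -, hlog⟩ := h3 Φ C a hΦ hΦ1 hC ha hO
  obtain ⟨A', hA'⟩ := h4 κ A hκ hA
  refine ⟨A' + 2, ?_⟩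
  intro r hr
  obtain ⟨R₀, hR₀⟩ := hlog 1 le_rfl (by norm_num; linarith) r 1 one_pos
  obtain ⟨g, hg, hg1⟩ := hR₀ R₀ le_rfl
  set b : ℂ := c 1 + 1 / ((1 : ℕ) : ℂ) * ∑ ρ ∈ zer Φ R₀, (analyticOrderNatAt Φ ρ : ℂ) * (1 / ρ) ^ 1
    with hb
  have hr0 : 0 ≤ r := by linarith
  have hnr : ‖(r : ℂ)‖ ≤ r := by rw [Complex.norm_real, Real.norm_eq_abs, abs_of_nonneg hr0]
  have hnr' : ‖-(r : ℂ)‖ ≤ r := by rw [norm_neg]; exact hnr
  have e1 := hg1 (r : ℂ) hnr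
  have e2 := hg1 (-(r : ℂ)) hnr'
  rw [Finset.Icc_self, Finset.sum_singleton, ← hb, pow_one] at e1 e2
  have hre : (g r + g (-(r : ℂ))).re ≤ 2 := by
    have h5 : (g r + g (-(r : ℂ))) = (g r - b * r) + (g (-(r : ℂ)) - b * (-(r : ℂ))) := by ring
    rw [h5, Complex.add_re]
    have := Complex.re_le_norm (g r - b * r)
    have := Complex.re_le_norm (g (-(r : ℂ)) - b * (-(r : ℂ)))
    linarith
  rw [hg _ hnr, hg _ hnr']
  have e3 : Complex.exp (g r) * prodZ Φ R₀ r * (Complex.exp (g (-(r : ℂ))) *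
      prodZ Φ R₀ (-(r : ℂ))) = Complex.exp (g r + g (-(r : ℂ))) *
      (prodZ Φ R₀ r * prodZ Φ R₀ (-(r : ℂ))) := by
    rw [Complex.exp_add]; ring
  rw [e3, norm_mul, Complex.norm_exp]
  have h6 := evenz_prod Φ R₀ r
  have h7 := hA' (zer Φ R₀) (fun ρ => (analyticOrderNatAt Φ ρ : ℝ))
    (fun ρ hρ => hz ρ (evenz_mem hρ).2) (fun ρ _ => by positivity)
    (fun t ht => hnum R₀ t ht) r hr
  calc Real.exp (g r + g (-(r : ℂ))).re * ‖prodZ Φ R₀ r * prodZ Φ R₀ (-(r : ℂ))‖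
      ≤ Real.exp 2 * Real.exp (Real.pi * κ * (r * Real.log r) + A' * r) := by
        apply mul_le_mul (Real.exp_le_exp.mpr hre) _ (norm_nonneg _) (Real.exp_pos _).le
        exact h6.trans (Real.exp_le_exp.mpr h7)
    _ ≤ _ := by
        rw [← Real.exp_add]
        apply Real.exp_le_exp.mpr
        nlinarith

end MP7ed9c3.Zr
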