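import Pool.Agent.Lib.MP_7ed9c3_nt.Zr.Spec

/-!
# MP_7ed9c3_nt, part Zr: F2, the number of zeros
-/

set_option autoImplicit false

namespace MP7ed9c3.Zr

open Filter Topology Metric

theorem jensen_mem {Φ : ℂ → ℂ} {R : ℝ} {ρ : ℂ} (h : ρ ∈ zer Φ R) : ‖ρ‖ < R ∧ Φ ρ = 0 := by
  rw [zer] at h
  split_ifs at h with hf
  · exact (Set.Finite.mem_toFinset hf).1 h
  · simp at h

/-- the product over the zeros far out -/
theorem jensen_prod {Φ : ℂ → ℂ} {t : ℝ} (hm : ∀ ρ ∈ zer Φ (2 * t), ρ ≠ 0) {z : ℂ}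
    (hz : ‖z‖ = 6 * t) : 2 ^ (∑ ρ ∈ zer Φ (2 * t), analyticOrderNatAt Φ ρ) ≤
      ‖prodZ Φ (2 * t) z‖ := by
  rw [prodZ, norm_prod, ← Finset.prod_pow_eq_pow_sum]
  apply Finset.prod_le_prod
  · intro ρ _
    positivity
  · intro ρ hρ
    rw [norm_pow]
    apply pow_le_pow_left₀ (by norm_num)
    have h1 := (jensen_mem hρ).1
    have h3 : 0 < ‖ρ‖ := norm_pos_iff.mpr (hm ρ hρ)
    have h4 : 3 ≤ ‖z / ρ‖ := by
      rw [norm_div, le_div_iff₀ h3, hz]
      linarith
    have h5 := norm_sub_norm_le (z / ρ) 1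
    rw [norm_one, norm_sub_rev] at h5
    linarith

theorem jensen (h1 : S_Factor) : S_Jensen := by
  intro Φ C a hΦ hΦ1 hC ha hO
  refine ⟨C * 7 ^ a / Real.log 2, ?_⟩
  intro R t ht
  obtain ⟨hfin, hord, G, hG, hΦG, -⟩ := h1 Φ hΦ hΦ1 (2 * t)
  have ht0 : 0 < t := by linarith
  have hp0 : prodZ Φ (2 * t) 0 = 1 := by
    rw [prodZ]
    apply Finset.prod_eq_one
    intro ρ _
    rw [zero_div, sub_zero, one_pow]
  have hG1 : G 0 = 1 := by
    have := hΦG 0
    rw [hp0, mul_one, hΦ1] at this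
    exact this.symm
  set n : ℕ := ∑ ρ ∈ zer Φ (2 * t), analyticOrderNatAt Φ ρ with hn
  have hbound : ‖G 0‖ ≤ Real.exp (C * (1 + 6 * t) ^ a) / 2 ^ n := by
    refine Complex.norm_le_of_forall_mem_frontier_norm_le (U := ball (0 : ℂ) (6 * t))
      isBounded_ball hG.diffContOnCl ?_ (subset_closure (mem_ball_self (by positivity)))
    intro w hw
    rw [frontier_ball _ (by positivity), mem_sphere_zero_iff_norm] at hw
    have h2 := jensen_prod (fun ρ hρ => (hord ρ hρ).1) hw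
    have h3 := hO w
    rw [hΦG w, norm_mul, hw] at h3
    rw [le_div_iff₀ (by positivity)]
    exact (mul_le_mul_of_nonneg_left h2 (norm_nonneg _)).trans h3
  rw [hG1, norm_one, le_div_iff₀ (by positivity), one_mul] at hbound
  have hlog : (n : ℝ) * Real.log 2 ≤ C * (1 + 6 * t) ^ a := by
    have := Real.log_le_log (by positivity) hbound
    rwa [Real.log_pow, Real.log_exp] at this
  have h5 : (1 + 6 * t) ^ a ≤ 7 ^ a * t ^ a := by
    rw [← Real.mul_rpow (by norm_num) ht0.le]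
    exact Real.rpow_le_rpow (by positivity) (by linarith) ha
  have h6 : (n : ℝ) ≤ C * 7 ^ a / Real.log 2 * t ^ a := by
    rw [div_mul_eq_mul_div, le_div_iff₀ (Real.log_pos (by norm_num))]
    have := mul_le_mul_of_nonneg_left h5 hC
    linarith
  refine le_trans ?_ h6
  rw [num, hn]
  push_cast
  apply Finset.sum_le_sum_of_subset_of_nonneg
  · intro ρ hρ
    rw [Finset.mem_filter] at hρ
    have h7 := jensen_mem hρ.1
    rw [zer, dif_pos hfin, Set.Finite.mem_toFinset]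
    exact ⟨by linarith [hρ.2], h7.2⟩
  · intro ρ _ _
    positivity

end MP7ed9c3.Zr
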