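import Pool.Agent.Lib.MP_7ed9c3_nt.Zr.Spec

/-!
# MP_7ed9c3_nt, part Zr: F7, the odd part
-/

set_option autoImplicit false

namespace MP7ed9c3.Zr

open Filter Topology

/-- The contribution of one zero. -/
theorem odd_one (ρ : ℂ) (r : ℝ) (hr : 1 ≤ r) (hρ : ρ.re ≤ -1) :
    ‖1 - (-(r : ℂ)) / ρ‖ ≤ ‖1 - (r : ℂ) / ρ‖ * Real.exp (2 * r * (1 / ρ).re +
      2 * r * ((|ρ.re| / ‖ρ‖ ^ 2) * min 1 (3 * r / ‖ρ‖))) := by
  have hρ0 : ρ ≠ 0 := by
    rintro rfl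
    simp at hρ
    linarith
  have hnpos : 0 < ‖ρ‖ := norm_pos_iff.mpr hρ0
  set β : ℝ := -ρ.re with hβ
  have hβ1 : 1 ≤ β := by linarith
  have habs : |ρ.re| = β := by
    rw [abs_of_nonpos (by linarith)]
  have hN2 : ‖ρ‖ ^ 2 = ρ.re ^ 2 + ρ.im ^ 2 := by
    rw [← Complex.normSq_eq_norm_sq, Complex.normSq_apply]; ring
  set N2 : ℝ := ‖ρ‖ ^ 2 with hN2d
  have hN2pos : 0 < N2 := by positivity
  set D : ℝ := N2 + 2 * β * r + r ^ 2 with hD
  set E : ℝ := N2 - 2 * β * r + r ^ 2 with hE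
  have hDpos : 0 < D := by
    have : 0 < 2 * β * r := by positivity
    positivity
  have hD' : ‖ρ - (r : ℂ)‖ ^ 2 = D := by
    rw [← Complex.normSq_eq_norm_sq, Complex.normSq_apply]
    simp only [Complex.sub_re, Complex.ofReal_re, Complex.sub_im, Complex.ofReal_im]
    rw [hD, hN2, hβ]; ring
  have hE' : ‖ρ + (r : ℂ)‖ ^ 2 = E := by
    rw [← Complex.normSq_eq_norm_sq, Complex.normSq_apply]
    simp only [Complex.add_re, Complex.ofReal_re, Complex.add_im, Complex.ofReal_im]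
    rw [hE, hN2, hβ]; ring
  have hEnn : 0 ≤ E := by rw [← hE']; positivity
  have hinv : (1 / ρ).re = -(β / N2) := by
    rw [one_div, Complex.inv_re, Complex.normSq_eq_norm_sq, ← hN2d, hβ]
    ring
  have h1 : ‖1 - (-(r : ℂ)) / ρ‖ = ‖ρ + (r : ℂ)‖ / ‖ρ‖ := by
    rw [← norm_div]; congr 1; field_simp; ring
  have h2 : ‖1 - (r : ℂ) / ρ‖ = ‖ρ - (r : ℂ)‖ / ‖ρ‖ := by
    rw [← norm_div]; congr 1; field_simp
  -- the ratio
  have hratio : ‖ρ + (r : ℂ)‖ ≤ ‖ρ - (r : ℂ)‖ * Real.exp (-(2 * β * r / D)) := by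
    have hsq : ‖ρ + (r : ℂ)‖ ^ 2 ≤ (‖ρ - (r : ℂ)‖ * Real.exp (-(2 * β * r / D))) ^ 2 := by
      rw [mul_pow, hE', hD', ← Real.exp_nat_mul]
      have h3 : E / D ≤ Real.exp ((2 : ℕ) * -(2 * β * r / D)) := by
        have h4 := Real.add_one_le_exp (E / D - 1)
        have h5 : E / D - 1 = (2 : ℕ) * -(2 * β * r / D) := by
          push_cast
          field_simp
          rw [hE, hD]; ring
        rw [h5] at h4
        linarith [h5]
      calc E = D * (E / D) := by field_simp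
        _ ≤ D * Real.exp ((2 : ℕ) * -(2 * β * r / D)) :=
            mul_le_mul_of_nonneg_left h3 hDpos.le
    exact le_of_sq_le_sq hsq (by positivity)
  have hmin : 2 * r * β / N2 - 2 * β * r / D ≤
      2 * r * ((β / N2) * min 1 (3 * r / ‖ρ‖)) := by
    have h6 : 2 * r * β / N2 - 2 * β * r / D = 2 * r * ((β / N2) * ((2 * β * r + r ^ 2) / D)) := by
      have hDN : D - N2 = 2 * β * r + r ^ 2 := by rw [hD]; ring
      rw [← hDN]
      field_simp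
    rw [h6]
    have hβN : 0 ≤ β / N2 := by positivity
    apply mul_le_mul_of_nonneg_left _ (by positivity)
    apply mul_le_mul_of_nonneg_left _ hβN
    have h7 : (2 * β * r + r ^ 2) / D ≤ 1 := by
      rw [div_le_one hDpos, hD]; linarith
    refine le_min h7 ?_
    rcases le_or_gt r ‖ρ‖ with hrρ | hrρ
    · have hβρ : β ≤ ‖ρ‖ := by
        rw [← habs]; exact Complex.abs_re_le_norm ρ
      have h8 : (2 * β * r + r ^ 2) / D ≤ (2 * β * r + r ^ 2) / N2 := by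
        apply div_le_div_of_nonneg_left (by positivity) hN2pos
        rw [hD]; have : 0 ≤ 2 * β * r := by positivity
        nlinarith [sq_nonneg r]
      refine h8.trans ?_
      rw [div_le_div_iff₀ hN2pos hnpos]
      have h9 : 2 * β * r + r ^ 2 ≤ 3 * ‖ρ‖ * r := by nlinarith
      calc (2 * β * r + r ^ 2) * ‖ρ‖ ≤ (3 * ‖ρ‖ * r) * ‖ρ‖ :=
            mul_le_mul_of_nonneg_right h9 hnpos.le
        _ = 3 * r * N2 := by rw [hN2d]; ring
    · refine h7.trans ?_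
      rw [le_div_iff₀ hnpos]; linarith
  rw [h1, h2, habs, hinv]
  calc ‖ρ + (r : ℂ)‖ / ‖ρ‖ ≤ (‖ρ - (r : ℂ)‖ * Real.exp (-(2 * β * r / D))) / ‖ρ‖ :=
        div_le_div_of_nonneg_right hratio hnpos.le
    _ = ‖ρ - (r : ℂ)‖ / ‖ρ‖ * Real.exp (-(2 * β * r / D)) := by ring
    _ ≤ _ := by
        apply mul_le_mul_of_nonneg_left _ (by positivity)
        apply Real.exp_le_exp.mpr
        have : 2 * r * -(β / N2) = -(2 * r * β / N2) := by ring
        rw [this]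
        linarith

theorem odd (h3 : S_Log) (h4 : S_Odd1) : S_Odd := by
  intro Φ C a κ A hΦ h0 hC ha hord ha2 hκ hA hre hsum
  obtain ⟨c, hc1, hlog⟩ := h3 Φ C a hΦ h0 hC ha hord
  obtain ⟨A', hA'⟩ := h4 κ A hκ hA
  refine ⟨2 + 2 * ‖deriv Φ 0‖ + 2 * A', fun r hr => ?_⟩
  obtain ⟨R₀, hR₀⟩ := hlog 1 le_rfl (by norm_num; linarith) r 1 one_pos
  obtain ⟨g, hg1, hg2⟩ := hR₀ R₀ le_rfl
  set Z := zer Φ R₀ with hZ
  have hZmem : ∀ ρ ∈ Z, ρ.re ≤ -1 := by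
    intro ρ hρ
    rw [hZ, zer] at hρ
    split_ifs at hρ with hfin
    · rw [Set.Finite.mem_toFinset] at hρ
      exact hre ρ hρ.2
    · simp at hρ
  have hrn : ‖(r : ℂ)‖ = r := by
    rw [Complex.norm_real, Real.norm_eq_abs, abs_of_nonneg (by linarith)]
  have hrn' : ‖(-(r : ℂ))‖ = r := by rw [norm_neg, hrn]
  set m : ℂ → ℝ := fun ρ => (analyticOrderNatAt Φ ρ : ℝ) with hm
  set b : ℂ := c 1 + ∑ ρ ∈ Z, (analyticOrderNatAt Φ ρ : ℂ) * (1 / ρ) with hb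
  have hgz : ∀ z : ℂ, ‖z‖ ≤ r → ‖g z - b * z‖ ≤ 1 := by
    intro z hz
    have := hg2 z hz
    simpa [hb] using this
  have hg_up : (g (-(r : ℂ))).re ≤ 1 - r * b.re := by
    have h := hgz (-(r : ℂ)) hrn'.le
    have h' := (Complex.re_le_norm _).trans h
    simp only [Complex.sub_re, Complex.mul_re, Complex.neg_re, Complex.neg_im, Complex.ofReal_re,
      Complex.ofReal_im] at h'
    linarith
  have hg_lo : r * b.re - 1 ≤ (g (r : ℂ)).re := by
    have h := hgz (r : ℂ) hrn.le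
    have h' := (neg_le_of_abs_le (Complex.abs_re_le_norm (g (r : ℂ) - b * (r : ℂ)))).trans'
      (neg_le_neg h)
    simp only [Complex.sub_re, Complex.mul_re, Complex.ofReal_re, Complex.ofReal_im] at h'
    linarith
  have hbre : b.re = (c 1).re + ∑ ρ ∈ Z, m ρ * (1 / ρ).re := by
    rw [hb, Complex.add_re, Complex.re_sum]
    congr 1
    apply Finset.sum_congr rfl
    intro ρ _
    rw [hm, Complex.mul_re]
    simp
  -- the product
  have hprod : ‖prodZ Φ R₀ (-(r : ℂ))‖ ≤ ‖prodZ Φ R₀ (r : ℂ)‖ *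
      Real.exp (∑ ρ ∈ Z, (m ρ * (2 * r * (1 / ρ).re +
        2 * r * ((|ρ.re| / ‖ρ‖ ^ 2) * min 1 (3 * r / ‖ρ‖))))) := by
    rw [prodZ, prodZ, norm_prod, norm_prod, Real.exp_sum, ← Finset.prod_mul_distrib]
    apply Finset.prod_le_prod
    · intro ρ _; positivity
    · intro ρ hρ
      rw [norm_pow, norm_pow, hm]
      simp only
      rw [Real.exp_nat_mul, ← mul_pow]
      exact pow_le_pow_left₀ (norm_nonneg _) (odd_one ρ r hr (hZmem ρ hρ)) _
  have hΦm := hg1 (-(r : ℂ)) hrn'.le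
  have hΦp := hg1 (r : ℂ) hrn.le
  have hw := hA' Z (fun ρ => m ρ * (|ρ.re| / ‖ρ‖ ^ 2))
    (fun ρ hρ => by
      have := hZmem ρ hρ
      have h2 := Complex.abs_re_le_norm ρ
      have h3 : 1 ≤ |ρ.re| := by rw [le_abs]; right; linarith
      linarith)
    (fun ρ _ => by positivity) (fun t ht => hsum R₀ t ht) r hr
  have hS : ∑ ρ ∈ Z, (m ρ * (2 * r * (1 / ρ).re +
        2 * r * ((|ρ.re| / ‖ρ‖ ^ 2) * min 1 (3 * r / ‖ρ‖)))) =
      2 * r * ∑ ρ ∈ Z, m ρ * (1 / ρ).re +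
      2 * r * ∑ ρ ∈ Z, (m ρ * (|ρ.re| / ‖ρ‖ ^ 2)) * min 1 (3 * r / ‖ρ‖) := by
    rw [Finset.mul_sum, Finset.mul_sum, ← Finset.sum_add_distrib]
    apply Finset.sum_congr rfl
    intro ρ _; ring
  rw [hΦm, hΦp, norm_mul, norm_mul, Complex.norm_exp, Complex.norm_exp]
  have hPnn : 0 ≤ ‖prodZ Φ R₀ (r : ℂ)‖ := norm_nonneg _
  calc Real.exp (g (-(r : ℂ))).re * ‖prodZ Φ R₀ (-(r : ℂ))‖
      ≤ Real.exp (1 - r * b.re) * (‖prodZ Φ R₀ (r : ℂ)‖ *
      Real.exp (∑ ρ ∈ Z, (m ρ * (2 * r * (1 / ρ).re +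
        2 * r * ((|ρ.re| / ‖ρ‖ ^ 2) * min 1 (3 * r / ‖ρ‖)))))) :=
        mul_le_mul (Real.exp_le_exp.mpr hg_up) hprod (norm_nonneg _) (Real.exp_pos _).le
    _ ≤ (Real.exp (r * b.re - 1) * ‖prodZ Φ R₀ (r : ℂ)‖) *
        Real.exp (2 * κ * (r * Real.log r) + (2 + 2 * ‖deriv Φ 0‖ + 2 * A') * r) := by
        have e1 : Real.exp (1 - r * b.re) * (‖prodZ Φ R₀ (r : ℂ)‖ *
            Real.exp (∑ ρ ∈ Z, (m ρ * (2 * r * (1 / ρ).re +
            2 * r * ((|ρ.re| / ‖ρ‖ ^ 2) * min 1 (3 * r / ‖ρ‖)))))) =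
            ‖prodZ Φ R₀ (r : ℂ)‖ * Real.exp ((1 - r * b.re) +
            (∑ ρ ∈ Z, (m ρ * (2 * r * (1 / ρ).re +
            2 * r * ((|ρ.re| / ‖ρ‖ ^ 2) * min 1 (3 * r / ‖ρ‖)))))) := by
          rw [Real.exp_add]; ring
        have e2 : (Real.exp (r * b.re - 1) * ‖prodZ Φ R₀ (r : ℂ)‖) *
            Real.exp (2 * κ * (r * Real.log r) + (2 + 2 * ‖deriv Φ 0‖ + 2 * A') * r) =
            ‖prodZ Φ R₀ (r : ℂ)‖ * Real.exp ((r * b.re - 1) +
            (2 * κ * (r * Real.log r) + (2 + 2 * ‖deriv Φ 0‖ + 2 * A') * r)) := by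
          rw [Real.exp_add (r * b.re - 1)]; ring
        rw [e1, e2]
        apply mul_le_mul_of_nonneg_left _ hPnn
        apply Real.exp_le_exp.mpr
        rw [hS, hbre]
        have hc1' : -(c 1).re ≤ ‖deriv Φ 0‖ := by
          rw [← hc1]
          exact (neg_le_abs _).trans (Complex.abs_re_le_norm _)
        have hr0 : (0 : ℝ) ≤ r := by linarith
        have h10 := mul_le_mul_of_nonneg_left hw hr0
        have h11 := mul_le_mul_of_nonneg_left hc1' hr0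
        nlinarith
    _ ≤ (Real.exp (g (r : ℂ)).re * ‖prodZ Φ R₀ (r : ℂ)‖) *
        Real.exp (2 * κ * (r * Real.log r) + (2 + 2 * ‖deriv Φ 0‖ + 2 * A') * r) := by
        apply mul_le_mul_of_nonneg_right _ (Real.exp_pos _).le
        exact mul_le_mul_of_nonneg_right (Real.exp_le_exp.mpr hg_lo) hPnn

end MP7ed9c3.Zr
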