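import Pool.Agent.Lib.MP_7ed9c3_nt.Zr.Spec
import Pool.Agent.Lib.MP_7ed9c3_nt.V1

/-!
# MP_7ed9c3_nt, part Zr: F5, Phragmen-Lindelof
-/

set_option autoImplicit false

namespace MP7ed9c3.Zr

open Filter Topology

/-- the first quadrant -/
theorem plz_quad (F : ℂ → ℂ) (c R₁ B C a : ℝ) (hc1 : 1 ≤ c) (hR₁0 : 0 ≤ R₁) (ha : a < 2)
    (hF : Differentiable ℂ F) (hO : Ord F C a)
    (hax : ∀ x : ℝ, 0 ≤ x → ‖F (2 - (x : ℂ))‖ ≤
      Real.exp (c * ((x + 1) * Real.log (x + 1)) + R₁ * (x + 1)))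
    (hB : ∀ s : ℂ, 2 ≤ s.re → ‖F s‖ ≤ B) (z : ℂ) (hx : 0 ≤ z.re) (hy : 0 ≤ z.im) :
    ‖F (2 - z)‖ ≤ Real.exp (c * ((z.re + 1) * Real.log (1 + ‖z‖)) +
      (Real.log (max B (Real.exp R₁)) + c * (Real.pi / 2) + c * R₁) * (z.re + 1)) := by
  have hc0 : 0 ≤ c := by linarith
  set B' : ℝ := max B (Real.exp R₁) with hB'
  have hB1 : 1 ≤ B' := (Real.one_le_exp hR₁0).trans (le_max_right _ _)
  have hpi := Real.pi_pos
  set H : ℂ → ℂ := fun z => F (2 - z) * Complex.exp ((c : ℂ) * G1.ex R₁ z) with hH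
  have hnorm : ∀ w : ℂ, ‖H w‖ = ‖F (2 - w)‖ * Real.exp (c * (G1.ex R₁ w).re) := by
    intro w
    rw [hH]
    simp only [norm_mul, Complex.norm_exp, Complex.re_ofReal_mul]
  have harg : ∀ w : ℂ, 0 ≤ w.re → |(w + 1).arg| ≤ Real.pi / 2 := by
    intro w hw
    rw [Complex.abs_arg_le_pi_div_two_iff]
    simp only [Complex.add_re, Complex.one_re]
    linarith
  have hn1 : ∀ w : ℂ, 0 ≤ w.re → 1 ≤ ‖w + 1‖ := by
    intro w hw
    have h1 := Complex.abs_re_le_norm (w + 1)
    have h2 := le_abs_self (w + 1).re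
    simp only [Complex.add_re, Complex.one_re] at h1 h2
    linarith
  -- differentiability
  have hcl : closure (Set.Ioi (0 : ℝ) ×ℂ Set.Ioi (0 : ℝ)) = Set.Ici (0 : ℝ) ×ℂ Set.Ici (0 : ℝ) := by
    rw [Complex.closure_reProdIm, closure_Ioi]
  have hd : DiffContOnCl ℂ H (Set.Ioi (0 : ℝ) ×ℂ Set.Ioi (0 : ℝ)) := by
    apply DifferentiableOn.diffContOnCl
    rw [hcl]
    intro w hw
    rw [Complex.mem_reProdIm] at hw
    have hw1 : 0 ≤ w.re := hw.1
    have hslit : w + 1 ∈ Complex.slitPlane := by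
      rw [Complex.mem_slitPlane_iff]
      left
      simp only [Complex.add_re, Complex.one_re]
      linarith
    apply DifferentiableAt.differentiableWithinAt
    have d1 : DifferentiableAt ℂ (fun z : ℂ => F (2 - z)) w :=
      (hF _).comp w ((differentiableAt_const _).sub differentiableAt_id)
    have d2 : DifferentiableAt ℂ (fun z : ℂ => z + 1) w := differentiableAt_id.add_const _
    have d3 : DifferentiableAt ℂ (fun z : ℂ => Complex.log (z + 1)) w := d2.clog hslit
    have d4 : DifferentiableAt ℂ (G1.ex R₁) w := by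
      unfold G1.ex
      exact (((d2.mul d3).neg).add (differentiableAt_id.const_mul _)).sub
        (differentiableAt_id.const_mul _)
    exact d1.mul (d4.const_mul (c : ℂ)).cexp
  -- the bound of `H` by `φ`
  have hle : ∀ w : ℂ, 0 ≤ w.re → 0 ≤ w.im → ‖H w‖ ≤ ‖F (2 - w)‖ := by
    intro w hw1 hw2
    rw [hnorm]
    refine mul_le_of_le_one_right (norm_nonneg _) ?_
    rw [Real.exp_le_one_iff, G1.ex_re]
    have h1 := (abs_le.mp (harg w hw1)).2
    have h2 : 0 ≤ Real.log ‖w + 1‖ := Real.log_nonneg (hn1 w hw1)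
    have h3 : w.im * (w + 1).arg ≤ w.im * (Real.pi / 2) := mul_le_mul_of_nonneg_left h1 hw2
    have h4 : 0 ≤ (w.re + 1) * Real.log ‖w + 1‖ := mul_nonneg (by linarith) h2
    have h5 : 0 ≤ R₁ * w.re := mul_nonneg hR₁0 hw1
    apply mul_nonpos_of_nonneg_of_nonpos hc0
    linarith
  have hgrow : ∃ c < (2 : ℝ), ∃ B₀,
      H =O[Bornology.cobounded ℂ ⊓ 𝓟 (Set.Ioi (0 : ℝ) ×ℂ Set.Ioi (0 : ℝ))]
        fun z => Real.exp (B₀ * ‖z‖ ^ c) := by
    refine ⟨max a 0, by simp [ha], |C| * 4 ^ (max a 0), ?_⟩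
    apply Asymptotics.IsBigO.of_bound 1
    rw [eventually_inf_principal]
    have hbig : ∀ᶠ w : ℂ in Bornology.cobounded ℂ, 1 ≤ ‖w‖ := by
      exact (tendsto_norm_cobounded_atTop (E := ℂ)).eventually_ge_atTop 1
    filter_upwards [hbig] with w hw hmem
    rw [Complex.mem_reProdIm] at hmem
    have h1 := hle w (le_of_lt hmem.1) (le_of_lt hmem.2)
    have h2 := hO (2 - w)
    have h3 : ‖(2 : ℂ) - w‖ ≤ 2 + ‖w‖ := by
      have := norm_sub_le (2 : ℂ) w
      simpa using this
    rw [one_mul, Real.norm_eq_abs, Real.abs_exp]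
    refine h1.trans (h2.trans (Real.exp_le_exp.mpr ?_))
    calc C * (1 + ‖2 - w‖) ^ a ≤ |C| * (1 + ‖2 - w‖) ^ a :=
          mul_le_mul_of_nonneg_right (le_abs_self C) (by positivity)
      _ ≤ |C| * (1 + ‖2 - w‖) ^ (max a 0) := by
          apply mul_le_mul_of_nonneg_left _ (abs_nonneg C)
          exact Real.rpow_le_rpow_of_exponent_le (by linarith [norm_nonneg (2 - w)])
            (le_max_left _ _)
      _ ≤ |C| * (4 * ‖w‖) ^ (max a 0) := by
          apply mul_le_mul_of_nonneg_left _ (abs_nonneg C)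
          exact Real.rpow_le_rpow (by positivity) (by linarith) (le_max_right _ _)
      _ = |C| * 4 ^ (max a 0) * ‖w‖ ^ (max a 0) := by
          rw [Real.mul_rpow (by norm_num) (norm_nonneg w), mul_assoc]
  have hre : ∀ x : ℝ, 0 ≤ x → ‖H x‖ ≤ B' := by
    intro x hx
    rw [hnorm, G1.ex_re]
    have h1 := hax x hx
    have h4 : ‖(x : ℂ) + 1‖ = x + 1 := by
      have : (x : ℂ) + 1 = ((x + 1 : ℝ) : ℂ) := by push_cast; ring
      rw [this, Complex.norm_real, Real.norm_eq_abs, abs_of_nonneg (by linarith)]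
    rw [h4]
    simp only [Complex.ofReal_re, Complex.ofReal_im, zero_mul, sub_zero, mul_zero]
    calc _ ≤ Real.exp (c * ((x + 1) * Real.log (x + 1)) + R₁ * (x + 1)) *
          Real.exp (c * (-((x + 1) * Real.log (x + 1)) - R₁ * x)) :=
          mul_le_mul_of_nonneg_right h1 (Real.exp_pos _).le
      _ = Real.exp (R₁ + R₁ * x * (1 - c)) := by
          rw [← Real.exp_add]
          ring_nf
      _ ≤ Real.exp R₁ := by
          apply Real.exp_le_exp.mpr
          have := mul_nonneg (mul_nonneg hR₁0 hx) (show 0 ≤ c - 1 by linarith)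
          nlinarith
      _ ≤ B' := le_max_right _ _
  have him : ∀ y : ℝ, 0 ≤ y → ‖H (y * Complex.I)‖ ≤ B' := by
    intro y hy
    have h1 := hle (y * Complex.I) (by simp) (by simpa using hy)
    refine h1.trans ((hB _ ?_).trans (le_max_left _ _))
    simp
  have hmain := PhragmenLindelof.quadrant_I hd hgrow hre him hx hy
  rw [hnorm, G1.ex_re] at hmain
  -- conclusion
  have hα := abs_le.mp (harg z hx)
  have hα0 : 0 ≤ (z + 1).arg := by
    rw [Complex.arg_nonneg_iff]
    simpa using hy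
  have hne : z + 1 ≠ 0 := by
    intro h
    have := hn1 z hx
    rw [h, norm_zero] at this
    linarith
  have hcos : ‖z + 1‖ * Real.cos (z + 1).arg = z.re + 1 := by
    rw [Complex.norm_mul_cos_arg]; simp
  have hsin : ‖z + 1‖ * Real.sin (z + 1).arg = z.im := by
    rw [Complex.norm_mul_sin_arg]; simp
  have hjordan : Real.pi / 2 - (z + 1).arg ≤ Real.pi / 2 * Real.cos (z + 1).arg := by
    have h1 := Real.mul_le_sin (show 0 ≤ Real.pi / 2 - (z + 1).arg by linarith [hα.2])
      (by linarith)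
    rw [Real.sin_pi_div_two_sub] at h1
    have h2 := mul_le_mul_of_nonneg_left h1 (show 0 ≤ Real.pi / 2 by positivity)
    have e : Real.pi / 2 * (2 / Real.pi * (Real.pi / 2 - (z + 1).arg)) =
        Real.pi / 2 - (z + 1).arg := by
      field_simp
    linarith
  have hkey : (Real.pi / 2 - (z + 1).arg) * z.im ≤ Real.pi / 2 * (z.re + 1) := by
    have h1 : (Real.pi / 2 - (z + 1).arg) * z.im ≤
        Real.pi / 2 * Real.cos (z + 1).arg * z.im := mul_le_mul_of_nonneg_right hjordan hy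
    have hc0 : 0 ≤ Real.cos (z + 1).arg := Real.cos_nonneg_of_mem_Icc ⟨by linarith, hα.2⟩
    have h2 : z.im ≤ ‖z + 1‖ := by
      rw [← hsin]
      exact mul_le_of_le_one_right (norm_nonneg _) (Real.sin_le_one _)
    have h3 : Real.pi / 2 * Real.cos (z + 1).arg * z.im ≤
        Real.pi / 2 * Real.cos (z + 1).arg * ‖z + 1‖ :=
      mul_le_mul_of_nonneg_left h2 (by positivity)
    have h4 : Real.pi / 2 * Real.cos (z + 1).arg * ‖z + 1‖ = Real.pi / 2 * (z.re + 1) := by
      rw [← hcos]; ring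
    linarith
  have hlog : Real.log ‖z + 1‖ ≤ Real.log (1 + ‖z‖) := by
    apply Real.log_le_log (by linarith [hn1 z hx])
    have := norm_add_le z 1
    rw [norm_one] at this
    linarith
  have hlog2 : (z.re + 1) * Real.log ‖z + 1‖ ≤ (z.re + 1) * Real.log (1 + ‖z‖) :=
    mul_le_mul_of_nonneg_left hlog (by linarith)
  have hlB : 0 ≤ Real.log B' := Real.log_nonneg hB1
  have hfin : ‖F (2 - z)‖ ≤ B' * Real.exp (-(c * (-((z.re + 1) * Real.log ‖z + 1‖ -
      z.im * (z + 1).arg) - Real.pi / 2 * z.im - R₁ * z.re))) := by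
    rw [Real.exp_neg, ← div_eq_mul_inv, le_div_iff₀ (Real.exp_pos _)]
    exact hmain
  refine hfin.trans ?_
  rw [← Real.exp_log (show 0 < B' by linarith), ← Real.exp_add, Real.exp_le_exp, Real.exp_log
    (show 0 < B' by linarith)]
  have h10 : 0 ≤ Real.log B' * z.re := mul_nonneg hlB hx
  have h11 : -(-((z.re + 1) * Real.log ‖z + 1‖ - z.im * (z + 1).arg) - Real.pi / 2 * z.im -
      R₁ * z.re) ≤ (z.re + 1) * Real.log (1 + ‖z‖) + (Real.pi / 2 + R₁) * (z.re + 1) := by
    nlinarith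
  have h12 := mul_le_mul_of_nonneg_left h11 hc0
  nlinarith


theorem plz_left (F : ℂ → ℂ) (c R₁ B C a : ℝ) (hc1 : 1 ≤ c) (hR₁0 : 0 ≤ R₁) (ha : a < 2)
    (hF : Differentiable ℂ F) (hO : Ord F C a)
    (hax : ∀ x : ℝ, 0 ≤ x → ‖F (2 - (x : ℂ))‖ ≤
      Real.exp (c * ((x + 1) * Real.log (x + 1)) + R₁ * (x + 1)))
    (hB : ∀ s : ℂ, 2 ≤ s.re → ‖F s‖ ≤ B) :
    ∃ R' : ℝ, 0 ≤ R' ∧ LeftBound F c R' := by
  have hc0 : 0 ≤ c := by linarith
  refine ⟨Real.log (max B (Real.exp R₁)) + c * (Real.pi / 2) + c * R₁, ?_, ?_⟩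
  · have h1 : (1 : ℝ) ≤ max B (Real.exp R₁) :=
      (Real.one_le_exp hR₁0).trans (le_max_right _ _)
    have h2 := Real.log_nonneg h1
    have := Real.pi_pos
    positivity
  · intro s hs
    rcases le_total 0 (2 - s).im with hy | hy
    · have h1 := plz_quad F c R₁ B C a hc1 hR₁0 ha hF hO hax hB (2 - s) (by simpa using hs) hy
      rw [sub_sub_cancel] at h1
      have e : (2 - s).re + 1 = 3 - s.re := by
        simp only [Complex.sub_re, Complex.re_ofNat]; ring
      rw [e] at h1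
      exact h1
    · set F' : ℂ → ℂ := fun z => (starRingEnd ℂ) (F ((starRingEnd ℂ) z)) with hF'
      have hd : Differentiable ℂ F' := by
        intro z
        have := (hF ((starRingEnd ℂ) z)).conj_conj
        simpa [hF', Function.comp_def] using this
      have hn : ∀ z, ‖F' z‖ = ‖F ((starRingEnd ℂ) z)‖ := by
        intro z
        rw [hF']
        simp only [RCLike.norm_conj]
      have hO' : Ord F' C a := by
        intro z
        rw [hn]
        have := hO ((starRingEnd ℂ) z)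
        rwa [RCLike.norm_conj] at this
      have hB' : ∀ s : ℂ, 2 ≤ s.re → ‖F' s‖ ≤ B := by
        intro w hw
        rw [hn]
        exact hB _ (by simpa using hw)
      have hax' : ∀ x : ℝ, 0 ≤ x → ‖F' (2 - (x : ℂ))‖ ≤
          Real.exp (c * ((x + 1) * Real.log (x + 1)) + R₁ * (x + 1)) := by
        intro x hx
        rw [hn, map_sub, Complex.conj_ofReal, Complex.conj_ofNat]
        exact hax x hx
      have h1 := plz_quad F' c R₁ B C a hc1 hR₁0 ha hd hO' hax' hB'
        ((starRingEnd ℂ) (2 - s)) (by simpa using hs) (by rw [Complex.conj_im]; linarith)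
      rw [hn] at h1
      have e : (starRingEnd ℂ) (2 - (starRingEnd ℂ) (2 - s)) = s := by
        have h2 : (starRingEnd ℂ) 2 = 2 := Complex.conj_ofNat 2
        rw [map_sub, Complex.conj_conj, h2]
        ring
      rw [e, RCLike.norm_conj] at h1
      have e2 : ((starRingEnd ℂ) (2 - s)).re + 1 = 3 - s.re := by
        rw [Complex.conj_re]
        simp only [Complex.sub_re, Complex.re_ofNat]; ring
      rw [e2] at h1
      exact h1

theorem plz : S_PL := by
  intro F c R B C a hc1 hF hO ha hB hax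
  have hc0 : 0 ≤ c := by linarith
  -- compactness on the segment
  obtain ⟨D, hD⟩ := (isCompact_Icc (a := (0 : ℝ)) (b := 2)).exists_bound_of_continuousOn
    (f := fun x : ℝ => F (2 - (x : ℂ))) (by
      apply Continuous.continuousOn
      exact hF.continuous.comp (by fun_prop))
  set R₁ : ℝ := max (max (Real.log (max D 1)) R) 0 with hR₁
  have hR₁0 : 0 ≤ R₁ := le_max_right _ _
  have hax2 : ∀ x : ℝ, 0 ≤ x → ‖F (2 - (x : ℂ))‖ ≤
      Real.exp (c * ((x + 1) * Real.log (x + 1)) + R₁ * (x + 1)) := by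
    intro x hx
    have hl : 0 ≤ Real.log (x + 1) := Real.log_nonneg (by linarith)
    rcases le_total x 2 with h | h
    · have h1 := hD x ⟨hx, h⟩
      have h2 : D ≤ Real.exp R₁ := by
        have h3 : D ≤ max D 1 := le_max_left _ _
        have h4 : 0 < max D 1 := lt_of_lt_of_le one_pos (le_max_right _ _)
        rw [← Real.exp_log h4] at h3
        refine h3.trans (Real.exp_le_exp.mpr ?_)
        exact (le_max_left _ _).trans (le_max_left _ _)
      refine h1.trans (h2.trans (Real.exp_le_exp.mpr ?_))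
      have h5 : 0 ≤ c * ((x + 1) * Real.log (x + 1)) := by positivity
      nlinarith [mul_nonneg hR₁0 hx]
    · have h1 := hax (x - 2) (by linarith)
      have e : -((x - 2 : ℝ) : ℂ) = 2 - (x : ℂ) := by push_cast; ring
      rw [e] at h1
      refine h1.trans (Real.exp_le_exp.mpr ?_)
      have h2 : Real.log (1 + (x - 2)) ≤ Real.log (x + 1) :=
        Real.log_le_log (by linarith) (by linarith)
      have h3 : (x - 2) * Real.log (1 + (x - 2)) ≤ (x + 1) * Real.log (x + 1) :=
        mul_le_mul (by linarith) h2 (Real.log_nonneg (by linarith)) (by linarith)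
      have h4 : R ≤ R₁ := (le_max_right _ _).trans (le_max_left _ _)
      have h5 : R * (1 + (x - 2)) ≤ R₁ * (1 + (x - 2)) :=
        mul_le_mul_of_nonneg_right h4 (by linarith)
      have h6 := mul_le_mul_of_nonneg_left h3 hc0
      nlinarith
  obtain ⟨R', hR'0, hL⟩ := plz_left F c R₁ B C a hc1 hR₁0 ha hF hO hax2 hB
  set R'' : ℝ := |Real.log (max B 1)| + 3 * R' + 8 * c with hR''
  refine ⟨R'', ?_⟩
  intro s
  have hn := norm_nonneg s
  have hl : 0 ≤ Real.log (1 + ‖s‖) := Real.log_nonneg (by linarith)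
  rcases le_total 2 s.re with h | h
  · have h1 := hB s h
    have h2 : B ≤ Real.exp (Real.log (max B 1)) := by
      rw [Real.exp_log (lt_of_lt_of_le one_pos (le_max_right _ _))]
      exact le_max_left _ _
    refine h1.trans (h2.trans (Real.exp_le_exp.mpr ?_))
    have h3 := le_abs_self (Real.log (max B 1))
    have h4 : 0 ≤ c * (‖s‖ * Real.log (1 + ‖s‖)) := by positivity
    have h5 : 0 ≤ |Real.log (max B 1)| := abs_nonneg _
    have h6 : 0 ≤ R'' * ‖s‖ := by positivity
    nlinarith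
  · refine (hL s h).trans (Real.exp_le_exp.mpr ?_)
    have h1 : 3 - s.re ≤ 3 + ‖s‖ := by
      have := Complex.abs_re_le_norm s
      have := neg_abs_le s.re
      linarith
    have h2 : ‖2 - s‖ ≤ 2 + ‖s‖ := by
      have := norm_sub_le (2 : ℂ) s
      simpa using this
    have h3 : Real.log (1 + ‖2 - s‖) ≤ Real.log 3 + Real.log (1 + ‖s‖) := by
      rw [← Real.log_mul (by norm_num) (by positivity)]
      apply Real.log_le_log (by positivity)
      linarith
    have hl3 : Real.log 3 ≤ 2 := by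
      have := Real.log_le_sub_one_of_pos (show (0 : ℝ) < 3 by norm_num)
      linarith
    have h4 : (3 - s.re) * Real.log (1 + ‖2 - s‖) ≤ (3 + ‖s‖) * (2 + Real.log (1 + ‖s‖)) := by
      apply mul_le_mul h1 (by linarith) _ (by positivity)
      exact Real.log_nonneg (by linarith [norm_nonneg (2 - s)])
    have h5 : Real.log (1 + ‖s‖) ≤ ‖s‖ := by
      have := Real.log_le_sub_one_of_pos (show 0 < 1 + ‖s‖ by positivity)
      linarith
    have h6 := mul_le_mul_of_nonneg_left h4 hc0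
    have h7 : R' * (3 - s.re) ≤ R' * (3 + ‖s‖) := mul_le_mul_of_nonneg_left h1 hR'0
    have h8 : 0 ≤ |Real.log (max B 1)| := abs_nonneg _
    have h9 := mul_le_mul_of_nonneg_left h5 hc0
    have h10 : 0 ≤ |Real.log (max B 1)| * (1 + ‖s‖) := by positivity
    have h11 : 0 ≤ R' * ‖s‖ := by positivity
    have h12 : 0 ≤ c * ‖s‖ := by positivity
    rw [hR'']
    nlinarith

end MP7ed9c3.Zr
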