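import Pool.Agent.Lib.MP_7ed9c3_nt.Zr.Spec

/-!
# MP_7ed9c3_nt, part Zr: F8, from finite order to order 7/4
-/

set_option autoImplicit false

namespace MP7ed9c3.Zr

open Filter Topology

theorem red_elem (w : ℂ) : w.re + Real.log ‖1 - w‖ ≤ 4 * ‖w‖ ^ (7 / 4 : ℝ) := by
  rcases le_or_gt ‖w‖ (1 / 2) with h | h
  · have h1 : ‖-w‖ < 1 := by rw [norm_neg]; linarith
    have h2 := Complex.norm_log_one_add_sub_self_le h1
    rw [norm_neg] at h2
    have h3 : (Complex.log (1 + -w) - -w).re = w.re + Real.log ‖1 - w‖ := by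
      rw [Complex.sub_re, Complex.log_re, Complex.neg_re, ← sub_eq_add_neg]; ring
    have h4 := Complex.re_le_norm (Complex.log (1 + -w) - -w)
    rw [h3] at h4
    have h5 : ‖w‖ ^ 2 * (1 - ‖w‖)⁻¹ / 2 ≤ ‖w‖ ^ 2 := by
      have h6 : (1 - ‖w‖)⁻¹ ≤ 2 := by
        rw [inv_le_comm₀ (by linarith) (by norm_num)]; linarith
      nlinarith [sq_nonneg ‖w‖]
    have h7 : ‖w‖ ^ 2 ≤ ‖w‖ ^ (7 / 4 : ℝ) := by
      rw [← Real.rpow_natCast]
      rcases eq_or_lt_of_le (norm_nonneg w) with h0 | h0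
      · rw [← h0]; norm_num
      · exact Real.rpow_le_rpow_of_exponent_ge h0 (by linarith) (by norm_num)
    have h8 : 0 ≤ ‖w‖ ^ (7 / 4 : ℝ) := by positivity
    linarith
  · have h1 : Real.log ‖1 - w‖ ≤ ‖w‖ := by
      rcases eq_or_ne (1 - w) 0 with h0 | h0
      · rw [h0, norm_zero, Real.log_zero]; positivity
      · have h2 := Real.log_le_sub_one_of_pos (norm_pos_iff.mpr h0)
        have h3 : ‖1 - w‖ ≤ 1 + ‖w‖ := by
          have := norm_sub_le (1 : ℂ) w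
          rwa [norm_one] at this
        linarith
    have h4 := Complex.re_le_norm w
    have h5 : ‖w‖ ≤ 2 * ‖w‖ ^ (7 / 4 : ℝ) := by
      have h6 : ‖w‖ ^ (7 / 4 : ℝ) = ‖w‖ * ‖w‖ ^ (3 / 4 : ℝ) := by
        rw [show (7 / 4 : ℝ) = 1 + 3 / 4 by norm_num, Real.rpow_add (by linarith), Real.rpow_one]
      have h7 : (1 / 2 : ℝ) ≤ ‖w‖ ^ (3 / 4 : ℝ) := by
        have h8 : (1 / 2 : ℝ) ^ (3 / 4 : ℝ) ≤ ‖w‖ ^ (3 / 4 : ℝ) :=
          Real.rpow_le_rpow (by norm_num) h.le (by norm_num)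
        have h9 : (1 / 2 : ℝ) ^ (1 : ℝ) ≤ (1 / 2 : ℝ) ^ (3 / 4 : ℝ) :=
          Real.rpow_le_rpow_of_exponent_ge (by norm_num) (by norm_num) (by norm_num)
        rw [Real.rpow_one] at h9
        linarith
      rw [h6]
      nlinarith
    linarith

/-- A direction in which the leading term is negative. -/
theorem red_dir (α : ℂ) (d : ℕ) (hd : 2 ≤ d) : ∃ u : ℂ, ‖u‖ = 1 ∧ 0 ≤ u.re ∧
    α * u ^ d = -(‖α‖ : ℂ) := by
  have hπ := Real.pi_pos
  have hdpos : (0 : ℝ) < d := by positivity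
  have hd2 : (2 : ℝ) ≤ d := by exact_mod_cast hd
  obtain ⟨φ, hφ1, hφ2⟩ : ∃ φ : ℝ, |φ| ≤ Real.pi ∧
      Complex.exp ((φ + Complex.arg α : ℝ) * Complex.I) = -1 := by
    rcases le_or_gt 0 (Complex.arg α) with h | h
    · refine ⟨Real.pi - Complex.arg α, ?_, ?_⟩
      · rw [abs_of_nonneg (by linarith [Complex.arg_le_pi α])]; linarith
      · rw [sub_add_cancel, Complex.exp_pi_mul_I]
    · refine ⟨-Real.pi - Complex.arg α, ?_, ?_⟩
      · have := Complex.neg_pi_lt_arg α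
        rw [abs_of_nonpos (by linarith)]; linarith
      · rw [sub_add_cancel]
        push_cast
        rw [neg_mul, Complex.exp_neg, Complex.exp_pi_mul_I]
        norm_num
  refine ⟨Complex.exp ((φ / d : ℝ) * Complex.I), ?_, ?_, ?_⟩
  · rw [Complex.norm_exp_ofReal_mul_I]
  · rw [Complex.exp_ofReal_mul_I_re]
    apply Real.cos_nonneg_of_neg_pi_div_two_le_of_le
    · have h1 : |φ / d| ≤ Real.pi / 2 := by
        rw [abs_div, abs_of_pos hdpos]
        apply div_le_div₀ hπ.le hφ1 (by norm_num) hd2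
      linarith [neg_abs_le (φ / d)]
    · have h1 : |φ / d| ≤ Real.pi / 2 := by
        rw [abs_div, abs_of_pos hdpos]
        apply div_le_div₀ hπ.le hφ1 (by norm_num) hd2
      linarith [le_abs_self (φ / d)]
  · rw [← Complex.exp_nat_mul]
    have hdc : (d : ℂ) ≠ 0 := by exact_mod_cast (by omega : d ≠ 0)
    have h1 : (d : ℂ) * ((φ / d : ℝ) * Complex.I) = (φ : ℝ) * Complex.I := by
      push_cast
      field_simp
    rw [h1]
    conv_lhs => rw [← Complex.norm_mul_exp_arg_mul_I α]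
    rw [mul_assoc, ← Complex.exp_add]
    have h2 : (Complex.arg α : ℂ) * Complex.I + (φ : ℝ) * Complex.I =
        ((φ + Complex.arg α : ℝ) : ℂ) * Complex.I := by
      push_cast; ring
    rw [h2, hφ2]; ring

theorem reduce (h3 : S_Log) (h4 : S_Pow) : S_Reduce := by
  intro Φ C a A B hΦ h0 hC ha hord hA hB h1 hnum hlow
  obtain ⟨N, hN2, haN⟩ : ∃ N : ℕ, 2 ≤ N ∧ a < N + 1 := by
    obtain ⟨n, hn⟩ := exists_nat_gt a
    refine ⟨max n 2, le_max_right _ _, ?_⟩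
    have : (n : ℝ) ≤ ((max n 2 : ℕ) : ℝ) := by exact_mod_cast le_max_left _ _
    linarith
  obtain ⟨c, hc1, hlog⟩ := h3 Φ C a hΦ h0 hC ha hord
  obtain ⟨A₁, hA₁⟩ := h4 A (3 / 2) (7 / 4) hA (by norm_num) (by norm_num)
  set m : ℂ → ℝ := fun ρ => (analyticOrderNatAt Φ ρ : ℝ) with hm
  have hZmem : ∀ R : ℝ, ∀ ρ ∈ zer Φ R, 1 ≤ ‖ρ‖ := by
    intro R ρ hρ
    rw [zer] at hρ
    split_ifs at hρ with hfin
    · rw [Set.Finite.mem_toFinset] at hρ
      exact h1 ρ hρ.2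
    · simp at hρ
  have hS : ∀ R : ℝ, ∑ ρ ∈ zer Φ R, m ρ * ‖ρ‖ ^ (-(7 / 4 : ℝ)) ≤ A₁ := by
    intro R
    exact hA₁ (zer Φ R) m (hZmem R) (fun ρ _ => by positivity) (fun t ht => hnum R t ht)
  have hA₁nn : 0 ≤ A₁ := (Finset.sum_nonneg (fun ρ _ => by positivity)).trans (hS 0)
  set aK : ℕ → ℝ → ℂ := fun k R => c k + 1 / (k : ℂ) *
    ∑ ρ ∈ zer Φ R, (analyticOrderNatAt Φ ρ : ℂ) * (1 / ρ) ^ k with haK
  have haKb : ∀ k : ℕ, 2 ≤ k → ∀ R : ℝ, ‖aK k R‖ ≤ ‖c k‖ + A₁ := by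
    intro k hk R
    rw [haK]
    simp only
    refine (norm_add_le _ _).trans ?_
    apply add_le_add le_rfl
    rw [norm_mul]
    have hk1 : ‖(1 : ℂ) / (k : ℂ)‖ ≤ 1 := by
      rw [norm_div, norm_one, Complex.norm_natCast, div_le_one (by positivity)]
      exact_mod_cast (by omega : 1 ≤ k)
    have hsum : ‖∑ ρ ∈ zer Φ R, (analyticOrderNatAt Φ ρ : ℂ) * (1 / ρ) ^ k‖ ≤ A₁ := by
      refine (norm_sum_le _ _).trans (le_trans ?_ (hS R))
      apply Finset.sum_le_sum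
      intro ρ hρ
      have hρ1 := hZmem R ρ hρ
      rw [norm_mul, norm_pow, norm_div, norm_one, Complex.norm_natCast, hm]
      apply mul_le_mul_of_nonneg_left _ (by positivity)
      rw [one_div, inv_pow, ← Real.rpow_natCast, ← Real.rpow_neg (norm_nonneg _)]
      apply Real.rpow_le_rpow_of_exponent_le hρ1
      have : (2 : ℝ) ≤ k := by exact_mod_cast hk
      linarith
    calc ‖(1 : ℂ) / (k : ℂ)‖ * ‖∑ ρ ∈ zer Φ R, (analyticOrderNatAt Φ ρ : ℂ) * (1 / ρ) ^ k‖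
        ≤ 1 * A₁ := mul_le_mul hk1 hsum (norm_nonneg _) (by norm_num)
      _ = A₁ := one_mul _
  -- limits along an ultrafilter
  set U : Ultrafilter ℝ := Ultrafilter.of atTop with hU
  have hUle : (U : Filter ℝ) ≤ atTop := Ultrafilter.of_le atTop
  have hlim : ∀ k : ℕ, 2 ≤ k → ∃ x : ℂ, Tendsto (aK k) (U : Filter ℝ) (𝓝 x) := by
    intro k hk
    have hcpt : IsCompact (Metric.closedBall (0 : ℂ) (‖c k‖ + A₁)) := isCompact_closedBall _ _
    obtain ⟨x, -, hx⟩ := hcpt.ultrafilter_le_nhds (U.map (aK k)) (by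
      rw [le_principal_iff]
      have : (aK k) ⁻¹' (Metric.closedBall (0 : ℂ) (‖c k‖ + A₁)) = Set.univ := by
        ext R
        simp only [Set.mem_preimage, Metric.mem_closedBall, dist_zero_right, Set.mem_univ, iff_true]
        exact haKb k hk R
      change (aK k) ⁻¹' (Metric.closedBall (0 : ℂ) (‖c k‖ + A₁)) ∈ (U : Filter ℝ)
      rw [this]; exact univ_mem)
    exact ⟨x, hx⟩
  choose! α hα using hlim
  -- the inequality (*)
  have hstar : ∀ z : ℂ, Φ z ≠ 0 → Real.log ‖Φ z‖ ≤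
      (∑ k ∈ Finset.Icc 2 N, α k * z ^ k).re + (1 + ‖c 1‖ * ‖z‖ + 4 * A₁ * ‖z‖ ^ (7 / 4 : ℝ)) := by
    intro z hz
    obtain ⟨R₀, hR₀⟩ := hlog N (by omega) haN ‖z‖ 1 one_pos
    have hev : ∀ᶠ R in (U : Filter ℝ), Real.log ‖Φ z‖ ≤
      (∑ k ∈ Finset.Icc 2 N, aK k R * z ^ k).re +
        (1 + ‖c 1‖ * ‖z‖ + 4 * A₁ * ‖z‖ ^ (7 / 4 : ℝ)) := by
      apply hUle
      filter_upwards [eventually_ge_atTop R₀] with R hR
      obtain ⟨g, hg1, hg2⟩ := hR₀ R hR
      have e1 := hg1 z le_rfl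
      have e2 := hg2 z le_rfl
      have e3 : ∑ k ∈ Finset.Icc 1 N, (c k + 1 / (k : ℂ) *
          ∑ ρ ∈ zer Φ R, (analyticOrderNatAt Φ ρ : ℂ) * (1 / ρ) ^ k) * z ^ k =
          aK 1 R * z + ∑ k ∈ Finset.Icc 2 N, aK k R * z ^ k := by
        rw [← Finset.add_sum_Ioc_eq_sum_Icc (by omega : 1 ≤ N)]
        rw [haK]
        simp only [pow_one]
        congr 1
      rw [e3] at e2
      have e4 : prodZ Φ R z ≠ 0 := by
        intro h; rw [e1, h, mul_zero] at hz; exact hz rfl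
      have e5 : Real.log ‖Φ z‖ = (g z).re + ∑ ρ ∈ zer Φ R, m ρ * Real.log ‖1 - z / ρ‖ := by
        rw [e1, norm_mul, Complex.norm_exp, Real.log_mul (Real.exp_pos _).ne'
          (norm_ne_zero_iff.mpr e4), Real.log_exp, prodZ, norm_prod, Real.log_prod]
        · congr 1
          apply Finset.sum_congr rfl
          intro ρ _
          rw [norm_pow, Real.log_pow]
        · intro ρ hρ
          rw [prodZ, Finset.prod_ne_zero_iff] at e4
          exact norm_ne_zero_iff.mpr (e4 ρ hρ)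
      have e6 : (g z).re ≤ 1 + (aK 1 R * z).re + (∑ k ∈ Finset.Icc 2 N, aK k R * z ^ k).re := by
        have := (Complex.re_le_norm _).trans e2
        rw [Complex.sub_re, Complex.add_re] at this
        linarith
      have e7 : (aK 1 R * z).re ≤ ‖c 1‖ * ‖z‖ + ∑ ρ ∈ zer Φ R, m ρ * (z / ρ).re := by
        have e8 : aK 1 R * z = c 1 * z + ∑ ρ ∈ zer Φ R, (analyticOrderNatAt Φ ρ : ℂ) * (z / ρ) := by
          rw [haK]
          simp only [Nat.cast_one, div_one, one_mul, pow_one]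
          rw [add_mul, Finset.sum_mul]
          congr 1
          apply Finset.sum_congr rfl
          intro ρ _; ring
        rw [e8, Complex.add_re, Complex.re_sum]
        apply add_le_add
        · rw [← norm_mul]; exact Complex.re_le_norm _
        · apply le_of_eq
          apply Finset.sum_congr rfl
          intro ρ _
          rw [hm, Complex.mul_re]; simp
      have e9 : ∑ ρ ∈ zer Φ R, m ρ * (z / ρ).re + ∑ ρ ∈ zer Φ R, m ρ * Real.log ‖1 - z / ρ‖ ≤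
          4 * A₁ * ‖z‖ ^ (7 / 4 : ℝ) := by
        rw [← Finset.sum_add_distrib]
        calc ∑ ρ ∈ zer Φ R, (m ρ * (z / ρ).re + m ρ * Real.log ‖1 - z / ρ‖)
            ≤ ∑ ρ ∈ zer Φ R, 4 * ‖z‖ ^ (7 / 4 : ℝ) * (m ρ * ‖ρ‖ ^ (-(7 / 4 : ℝ))) := by
              apply Finset.sum_le_sum
              intro ρ hρ
              have hρ1 := hZmem R ρ hρ
              have e10 := red_elem (z / ρ)
              rw [norm_div, Real.div_rpow (norm_nonneg _) (norm_nonneg _)] at e10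
              have e11 : m ρ * (z / ρ).re + m ρ * Real.log ‖1 - z / ρ‖ =
                m ρ * ((z / ρ).re + Real.log ‖1 - z / ρ‖) := by ring
              rw [e11]
              have hmn : 0 ≤ m ρ := by positivity
              refine (mul_le_mul_of_nonneg_left e10 hmn).trans (le_of_eq ?_)
              rw [Real.rpow_neg (norm_nonneg _)]
              ring
          _ = 4 * ‖z‖ ^ (7 / 4 : ℝ) * ∑ ρ ∈ zer Φ R, (m ρ * ‖ρ‖ ^ (-(7 / 4 : ℝ))) := by
              rw [Finset.mul_sum]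
          _ ≤ 4 * ‖z‖ ^ (7 / 4 : ℝ) * A₁ :=
              mul_le_mul_of_nonneg_left (hS R) (by positivity)
          _ = _ := by ring
      rw [e5]
      linarith
    have hten : Tendsto (fun R => (∑ k ∈ Finset.Icc 2 N, aK k R * z ^ k).re +
        (1 + ‖c 1‖ * ‖z‖ + 4 * A₁ * ‖z‖ ^ (7 / 4 : ℝ))) (U : Filter ℝ)
        (𝓝 ((∑ k ∈ Finset.Icc 2 N, α k * z ^ k).re +
        (1 + ‖c 1‖ * ‖z‖ + 4 * A₁ * ‖z‖ ^ (7 / 4 : ℝ)))) := by
      apply Tendsto.add _ tendsto_const_nhds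
      apply (Complex.continuous_re.tendsto _).comp
      apply tendsto_finsetSum
      intro k hk
      rw [Finset.mem_Icc] at hk
      exact (hα k hk.1).mul_const _
    exact ge_of_tendsto hten hev
  -- all the coefficients vanish
  have hzero : ∀ k ∈ Finset.Icc 2 N, α k = 0 := by
    by_contra hne
    push Not at hne
    obtain ⟨k₀, hk₀, hk₀ne⟩ := hne
    set T := (Finset.Icc 2 N).filter (fun k => α k ≠ 0) with hT
    have hTne : T.Nonempty := ⟨k₀, by rw [hT, Finset.mem_filter]; exact ⟨hk₀, hk₀ne⟩⟩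
    set d := T.max' hTne with hd
    have hdT : d ∈ T := T.max'_mem hTne
    rw [hT, Finset.mem_filter, Finset.mem_Icc] at hdT
    obtain ⟨⟨hd2, hdN⟩, hdne⟩ := hdT
    have hmax : ∀ k ∈ Finset.Icc 2 N, d < k → α k = 0 := by
      intro k hk hdk
      by_contra hkne
      have : k ∈ T := by rw [hT, Finset.mem_filter]; exact ⟨hk, hkne⟩
      exact absurd (T.le_max' k this) (not_le.mpr hdk)
    obtain ⟨u, hu1, hu2, hu3⟩ := red_dir (α d) d hd2
    set M₁ : ℝ := ∑ k ∈ Finset.Icc 2 N, ‖α k‖ with hM₁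
    have hM₁nn : 0 ≤ M₁ := Finset.sum_nonneg (fun _ _ => norm_nonneg _)
    set M : ℝ := |Real.log B| + M₁ + (1 + ‖c 1‖ + 4 * A₁) with hM
    have hMnn : 0 ≤ M := by positivity
    have hαpos : 0 < ‖α d‖ := norm_pos_iff.mpr hdne
    have key : ∀ x : ℝ, 1 ≤ x → ‖α d‖ * x ^ (1 / 4 : ℝ) ≤ M := by
      intro x hx
      have hx0 : (0 : ℝ) < x := by linarith
      set z : ℂ := (x : ℂ) * u with hz
      have hzn : ‖z‖ = x := by
        rw [hz, norm_mul, hu1, mul_one, Complex.norm_real, Real.norm_eq_abs, abs_of_pos hx0]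
      have hzre : 0 ≤ z.re := by
        rw [hz, Complex.re_ofReal_mul]; positivity
      have hBz := hlow z hzre
      have hzne : Φ z ≠ 0 := norm_pos_iff.mp (hB.trans_le hBz)
      have hs := hstar z hzne
      have hlB : Real.log B ≤ Real.log ‖Φ z‖ := Real.log_le_log hB hBz
      have hq : (∑ k ∈ Finset.Icc 2 N, α k * z ^ k).re ≤
          -(‖α d‖ * x ^ d) + M₁ * x ^ (d - 1) := by
        rw [Complex.re_sum]
        have hdmem : d ∈ Finset.Icc 2 N := Finset.mem_Icc.mpr ⟨hd2, hdN⟩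
        rw [← Finset.add_sum_erase _ _ hdmem]
        apply add_le_add
        · apply le_of_eq
          rw [hz, mul_pow, mul_left_comm, hu3]
          rw [← Complex.ofReal_pow, ← Complex.ofReal_neg, ← Complex.ofReal_mul, Complex.ofReal_re]
          ring
        · rw [hM₁, Finset.sum_mul]
          calc ∑ k ∈ (Finset.Icc 2 N).erase d, (α k * z ^ k).re
              ≤ ∑ k ∈ (Finset.Icc 2 N).erase d, ‖α k‖ * x ^ (d - 1) := by
                apply Finset.sum_le_sum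
                intro k hk
                rw [Finset.mem_erase] at hk
                rcases lt_or_gt_of_ne hk.1 with hlt | hgt
                · refine (Complex.re_le_norm _).trans ?_
                  rw [norm_mul, norm_pow, hzn]
                  apply mul_le_mul_of_nonneg_left _ (norm_nonneg _)
                  exact pow_le_pow_right₀ hx (by omega)
                · rw [hmax k hk.2 hgt]; simp
            _ ≤ ∑ k ∈ Finset.Icc 2 N, ‖α k‖ * x ^ (d - 1) :=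
                Finset.sum_le_sum_of_subset_of_nonneg (Finset.erase_subset _ _)
                  (fun _ _ _ => by positivity)
      rw [hzn] at hs
      have hxd : x ^ (d - 1) ≤ x ^ ((d : ℝ) - 1 / 4) := by
        rw [← Real.rpow_natCast]
        apply Real.rpow_le_rpow_of_exponent_le hx
        rw [Nat.cast_sub (by omega : 1 ≤ d)]
        push_cast; linarith
      have hd2' : (2 : ℝ) ≤ d := by exact_mod_cast hd2
      have hx1 : (1 : ℝ) ≤ x ^ ((d : ℝ) - 1 / 4) :=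
        Real.one_le_rpow hx (by linarith)
      have hx2 : x ≤ x ^ ((d : ℝ) - 1 / 4) := by
        calc x = x ^ (1 : ℝ) := (Real.rpow_one x).symm
          _ ≤ _ := Real.rpow_le_rpow_of_exponent_le hx (by linarith)
      have hx3 : x ^ (7 / 4 : ℝ) ≤ x ^ ((d : ℝ) - 1 / 4) :=
        Real.rpow_le_rpow_of_exponent_le hx (by linarith)
      have hxdd : x ^ d = x ^ ((d : ℝ) - 1 / 4) * x ^ (1 / 4 : ℝ) := by
        rw [← Real.rpow_add hx0, ← Real.rpow_natCast]
        congr 1; ring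
      have hP : 0 < x ^ ((d : ℝ) - 1 / 4) := by positivity
      have hfin : (‖α d‖ * x ^ (1 / 4 : ℝ)) * x ^ ((d : ℝ) - 1 / 4) ≤
          M * x ^ ((d : ℝ) - 1 / 4) := by
        have f1 : ‖α d‖ * x ^ d ≤ -Real.log B + M₁ * x ^ (d - 1) +
            (1 + ‖c 1‖ * x + 4 * A₁ * x ^ (7 / 4 : ℝ)) := by linarith
        have f2 : -Real.log B ≤ |Real.log B| * x ^ ((d : ℝ) - 1 / 4) := by
          calc -Real.log B ≤ |Real.log B| := neg_le_abs _
            _ = |Real.log B| * 1 := (mul_one _).symm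
            _ ≤ _ := mul_le_mul_of_nonneg_left hx1 (abs_nonneg _)
        have f3 : M₁ * x ^ (d - 1) ≤ M₁ * x ^ ((d : ℝ) - 1 / 4) :=
          mul_le_mul_of_nonneg_left hxd hM₁nn
        have f4 : ‖c 1‖ * x ≤ ‖c 1‖ * x ^ ((d : ℝ) - 1 / 4) :=
          mul_le_mul_of_nonneg_left hx2 (norm_nonneg _)
        have f5 : 4 * A₁ * x ^ (7 / 4 : ℝ) ≤ 4 * A₁ * x ^ ((d : ℝ) - 1 / 4) :=
          mul_le_mul_of_nonneg_left hx3 (by positivity)
        calc (‖α d‖ * x ^ (1 / 4 : ℝ)) * x ^ ((d : ℝ) - 1 / 4) = ‖α d‖ * x ^ d := by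
              rw [hxdd]; ring
          _ ≤ _ := f1
          _ ≤ |Real.log B| * x ^ ((d : ℝ) - 1 / 4) + M₁ * x ^ ((d : ℝ) - 1 / 4) +
              (x ^ ((d : ℝ) - 1 / 4) + ‖c 1‖ * x ^ ((d : ℝ) - 1 / 4) +
                4 * A₁ * x ^ ((d : ℝ) - 1 / 4)) := by linarith
          _ = M * x ^ ((d : ℝ) - 1 / 4) := by rw [hM]; ring
      exact le_of_mul_le_mul_right hfin hP
    set x : ℝ := max 1 (((M + 1) / ‖α d‖) ^ 4) with hx
    have hx1 : 1 ≤ x := le_max_left _ _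
    have hk := key x hx1
    have hge : (M + 1) / ‖α d‖ ≤ x ^ (1 / 4 : ℝ) := by
      have hnn : 0 ≤ (M + 1) / ‖α d‖ := by positivity
      calc (M + 1) / ‖α d‖ = (((M + 1) / ‖α d‖) ^ 4) ^ (1 / 4 : ℝ) := by
            rw [← Real.rpow_natCast, ← Real.rpow_mul hnn]; norm_num
        _ ≤ x ^ (1 / 4 : ℝ) :=
            Real.rpow_le_rpow (by positivity) (le_max_right _ _) (by norm_num)
    have : M + 1 ≤ ‖α d‖ * x ^ (1 / 4 : ℝ) := by
      calc M + 1 = ‖α d‖ * ((M + 1) / ‖α d‖) := by field_simp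
        _ ≤ _ := mul_le_mul_of_nonneg_left hge hαpos.le
    linarith
  refine ⟨1 + ‖c 1‖ + 4 * A₁, by positivity, fun z => ?_⟩
  rcases eq_or_ne (Φ z) 0 with hz | hz
  · rw [hz, norm_zero]; positivity
  · have hs := hstar z hz
    have hq : ∑ k ∈ Finset.Icc 2 N, α k * z ^ k = 0 :=
      Finset.sum_eq_zero (fun k hk => by rw [hzero k hk, zero_mul])
    rw [hq, Complex.zero_re, zero_add] at hs
    rw [← Real.log_le_iff_le_exp (norm_pos_iff.mpr hz)]
    refine hs.trans ?_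
    have hy : (1 : ℝ) ≤ 1 + ‖z‖ := by linarith [norm_nonneg z]
    have g1 : (1 : ℝ) ≤ (1 + ‖z‖) ^ (7 / 4 : ℝ) := Real.one_le_rpow hy (by norm_num)
    have g2 : ‖z‖ ≤ (1 + ‖z‖) ^ (7 / 4 : ℝ) := by
      calc ‖z‖ ≤ (1 + ‖z‖) ^ (1 : ℝ) := by rw [Real.rpow_one]; linarith
        _ ≤ _ := Real.rpow_le_rpow_of_exponent_le hy (by norm_num)
    have g3 : ‖z‖ ^ (7 / 4 : ℝ) ≤ (1 + ‖z‖) ^ (7 / 4 : ℝ) :=
      Real.rpow_le_rpow (norm_nonneg _) (by linarith) (by norm_num)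
    have g4 : ‖c 1‖ * ‖z‖ ≤ ‖c 1‖ * (1 + ‖z‖) ^ (7 / 4 : ℝ) :=
      mul_le_mul_of_nonneg_left g2 (norm_nonneg _)
    have g5 : 4 * A₁ * ‖z‖ ^ (7 / 4 : ℝ) ≤ 4 * A₁ * (1 + ‖z‖) ^ (7 / 4 : ℝ) :=
      mul_le_mul_of_nonneg_left g3 (by positivity)
    calc 1 + ‖c 1‖ * ‖z‖ + 4 * A₁ * ‖z‖ ^ (7 / 4 : ℝ) ≤ (1 + ‖z‖) ^ (7 / 4 : ℝ) +
          ‖c 1‖ * (1 + ‖z‖) ^ (7 / 4 : ℝ) + 4 * A₁ * (1 + ‖z‖) ^ (7 / 4 : ℝ) := by linarith
      _ = _ := by ring

end MP7ed9c3.Zr
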