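import Pool.Agent.Lib.MP_7ed9c3_nt.Zr.Factor

/-!
# MP_7ed9c3_nt, part Zr: F10, moving the centre
-/

set_option autoImplicit false

namespace MP7ed9c3.Zr

open Filter Topology

theorem shift_sum_le (f : ℂ → ℝ) (S : Set ℂ) (hfin : (S ∩ Function.support f).Finite)
    (hf : ∀ x, 0 ≤ f x) (T : Finset ℂ) (hT : ∀ x ∈ T, x ∈ S) :
    ∑ x ∈ T, f x ≤ ∑ᶠ x ∈ S, f x := by
  classical
  rw [finsum_mem_eq_sum f hfin, ← Finset.sum_filter_ne_zero]
  apply Finset.sum_le_sum_of_subset_of_nonneg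
  · intro x hx
    rw [Finset.mem_filter] at hx
    rw [Set.Finite.mem_toFinset]
    exact ⟨hT x hx.1, hx.2⟩
  · intro x _ _; exact hf x

theorem shift_sum_le_nat (f : ℂ → ℕ) (S : Set ℂ) (hfin : (S ∩ Function.support f).Finite)
    (T : Finset ℂ) (hT : ∀ x ∈ T, x ∈ S) :
    ∑ x ∈ T, f x ≤ ∑ᶠ x ∈ S, f x := by
  classical
  rw [finsum_mem_eq_sum f hfin, ← Finset.sum_filter_ne_zero]
  apply Finset.sum_le_sum_of_subset_of_nonneg
  · intro x hx
    rw [Finset.mem_filter] at hx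
    rw [Set.Finite.mem_toFinset]
    exact ⟨hT x hx.1, hx.2⟩
  · intro x _ _; exact Nat.zero_le _

theorem shift : S_Shift := by
  intro F C a B hF ha hord hB hB2 hne
  have hF3 : F 3 ≠ 0 := hne 3 (by norm_num)
  have hF3n : 0 < ‖F 3‖ := norm_pos_iff.mpr hF3
  obtain ⟨hlo, hhi⟩ := hB2 3 (by norm_num)
  have hB1 : 1 ≤ B := by
    by_contra h
    push Not at h
    have : 1 < B⁻¹ := (one_lt_inv₀ hB).mpr h
    linarith
  set Φ : ℂ → ℂ := fun z => F (3 + z) / F 3 with hΦ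
  have hΦd : Differentiable ℂ Φ := by
    apply Differentiable.div_const
    exact hF.comp (by fun_prop)
  have hΦ0 : Φ 0 = 1 := by rw [hΦ]; simp [hF3]
  have hΦz : ∀ z, Φ z = 0 ↔ F (3 + z) = 0 := by
    intro z
    rw [hΦ]
    simp [hF3]
  have hre : ∀ ρ : ℂ, Φ ρ = 0 → ρ.re ≤ -1 := by
    intro ρ hρ
    rw [hΦz] at hρ
    by_contra h
    push Not at h
    apply hne (3 + ρ) _ hρ
    simp only [Complex.add_re, Complex.re_ofNat]
    linarith
  have hordΦ : ∀ z, analyticOrderNatAt Φ z = analyticOrderNatAt F (3 + z) := by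
    intro z
    have h1 : Φ = (fun _ => (F 3)⁻¹) * (F ∘ fun z => 3 + z) := by
      ext w
      simp only [hΦ, Pi.mul_apply, Function.comp_apply]
      rw [div_eq_inv_mul]
    have h2 : analyticOrderAt Φ z = analyticOrderAt F (3 + z) := by
      rw [h1, analyticOrderAt_mul (by fun_prop)
        ((hF.comp (by fun_prop : Differentiable ℂ (fun z : ℂ => 3 + z))).analyticAt z)]
      have h3 : analyticOrderAt (fun _ : ℂ => (F 3)⁻¹) z = 0 :=
        analyticOrderAt_eq_zero.2 (Or.inr (inv_ne_zero hF3))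
      rw [h3, zero_add]
      exact analyticOrderAt_comp_of_deriv_ne_zero (by fun_prop) (by simp)
    rw [analyticOrderNatAt, analyticOrderNatAt, h2]
  have hsupp : ∀ ρ : ℂ, analyticOrderNatAt F ρ ≠ 0 → F ρ = 0 := fun ρ h =>
    apply_eq_zero_of_analyticOrderNatAt_ne_zero h
  have hFfin : ∀ T : ℝ, {ρ : ℂ | ‖ρ‖ < T ∧ F ρ = 0}.Finite := fun T => factor_finite hF hF3 T
  have hzer : ∀ R : ℝ, ∀ ρ ∈ zer Φ R, Φ ρ = 0 := by
    intro R ρ hρ
    rw [zer] at hρ
    split_ifs at hρ with hfin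
    · rw [Set.Finite.mem_toFinset] at hρ
      exact hρ.2
    · simp at hρ
  refine ⟨Φ, hΦd, hΦ0, ⟨|C| * 4 ^ a + Real.log B, ?_, ?_⟩, ⟨‖F 3‖, hF3n, ?_⟩, hre, ?_, ?_⟩
  · have := Real.log_nonneg hB1
    positivity
  · intro z
    have h1 : ‖Φ z‖ = ‖F (3 + z)‖ / ‖F 3‖ := by rw [hΦ, norm_div]
    have h2 : ‖F (3 + z)‖ / ‖F 3‖ ≤ ‖F (3 + z)‖ * B := by
      rw [div_eq_mul_inv]
      apply mul_le_mul_of_nonneg_left _ (norm_nonneg _)
      rw [inv_le_comm₀ hF3n hB]; exact hlo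
    have h3 := hord (3 + z)
    have hlogB : 0 ≤ Real.log B := Real.log_nonneg hB1
    have hz1 : 1 ≤ (1 + ‖z‖) ^ a := Real.one_le_rpow (by linarith [norm_nonneg z]) ha
    have h4 : C * (1 + ‖3 + z‖) ^ a ≤ |C| * 4 ^ a * (1 + ‖z‖) ^ a := by
      have h5 : (1 + ‖3 + z‖) ^ a ≤ (4 * (1 + ‖z‖)) ^ a := by
        apply Real.rpow_le_rpow (by positivity) _ ha
        have := norm_add_le (3 : ℂ) z
        rw [Complex.norm_ofNat] at this
        linarith [norm_nonneg z]
      rw [Real.mul_rpow (by norm_num) (by positivity)] at h5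
      calc C * (1 + ‖3 + z‖) ^ a ≤ |C| * (1 + ‖3 + z‖) ^ a :=
            mul_le_mul_of_nonneg_right (le_abs_self C) (by positivity)
        _ ≤ |C| * (4 ^ a * (1 + ‖z‖) ^ a) := mul_le_mul_of_nonneg_left h5 (abs_nonneg _)
        _ = _ := by ring
    rw [h1]
    calc ‖F (3 + z)‖ / ‖F 3‖ ≤ ‖F (3 + z)‖ * B := h2
      _ ≤ Real.exp (|C| * 4 ^ a * (1 + ‖z‖) ^ a) * Real.exp (Real.log B) := by
          rw [Real.exp_log hB]
          apply mul_le_mul_of_nonneg_right _ hB.le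
          exact h3.trans (Real.exp_le_exp.mpr h4)
      _ = Real.exp (|C| * 4 ^ a * (1 + ‖z‖) ^ a + Real.log B) := (Real.exp_add _ _).symm
      _ ≤ Real.exp ((|C| * 4 ^ a + Real.log B) * (1 + ‖z‖) ^ a) := by
          apply Real.exp_le_exp.mpr
          nlinarith
  · intro z
    rw [hΦ]
    simp only [norm_div]
    field_simp
  · intro R t ht
    rw [num]
    have h1 : ∑ ρ ∈ zer Φ R with ‖ρ‖ ≤ t, (analyticOrderNatAt Φ ρ : ℝ) =
        ((∑ ρ ∈ zer Φ R with ‖ρ‖ ≤ t, analyticOrderNatAt Φ ρ : ℕ) : ℝ) := by push_cast; rfl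
    rw [h1, Nat.cast_le]
    classical
    have h2 : ∑ ρ ∈ zer Φ R with ‖ρ‖ ≤ t, analyticOrderNatAt Φ ρ =
        ∑ s ∈ ((zer Φ R).filter (fun ρ => ‖ρ‖ ≤ t)).image (fun ρ => 3 + ρ),
          analyticOrderNatAt F s := by
      rw [Finset.sum_image (fun x _ y _ h => add_left_cancel h)]
      exact Finset.sum_congr rfl (fun ρ _ => hordΦ ρ)
    rw [h2]
    apply shift_sum_le_nat
    · apply (hFfin (t + 4)).subset
      intro ρ hρ
      refine ⟨?_, hsupp ρ hρ.2⟩
      have := hρ.1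
      rw [mem_closedBall_zero_iff] at this
      linarith
    · intro s hs
      rw [Finset.mem_image] at hs
      obtain ⟨ρ, hρ, rfl⟩ := hs
      rw [Finset.mem_filter] at hρ
      rw [mem_closedBall_zero_iff]
      have := norm_add_le (3 : ℂ) ρ
      rw [Complex.norm_ofNat] at this
      linarith [hρ.2]
  · intro R t ht
    classical
    set Z := (zer Φ R).filter (fun ρ => ‖ρ‖ ≤ t) with hZ
    have hpt : ∀ ρ ∈ Z, (analyticOrderNatAt Φ ρ : ℝ) * (|ρ.re| / ‖ρ‖ ^ 2) ≤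
        (if (3 + ρ).re < 0 then
          (analyticOrderNatAt F (3 + ρ) : ℝ) * (|(3 + ρ).re| / ‖3 + ρ‖ ^ 2) else 0) +
        3 * ((analyticOrderNatAt Φ ρ : ℝ) * ‖ρ‖ ^ (-(2 : ℝ))) := by
      intro ρ hρ
      rw [hZ, Finset.mem_filter] at hρ
      have hρz := hzer R ρ hρ.1
      have hρre := hre ρ hρz
      have hρ0 : ρ ≠ 0 := by
        rintro rfl
        simp at hρre
        linarith
      have hρn : 0 < ‖ρ‖ := norm_pos_iff.mpr hρ0
      have hρa : |ρ.re| = -ρ.re := abs_of_nonpos (by linarith)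
      have hpow : ‖ρ‖ ^ (-(2 : ℝ)) = 1 / ‖ρ‖ ^ 2 := by
        rw [Real.rpow_neg hρn.le, Real.rpow_two, one_div]
      have hmn : (0 : ℝ) ≤ (analyticOrderNatAt Φ ρ : ℝ) := by positivity
      rw [hpow]
      have hre3 : (3 + ρ).re = 3 + ρ.re := by simp
      split_ifs with hneg
      · rw [← hordΦ]
        rw [hre3] at hneg
        have hsn : ‖3 + ρ‖ ≤ ‖ρ‖ := by
          apply le_of_sq_le_sq _ hρn.le
          rw [← Complex.normSq_eq_norm_sq, ← Complex.normSq_eq_norm_sq, Complex.normSq_apply,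
            Complex.normSq_apply, hre3]
          have him : (3 + ρ).im = ρ.im := by simp
          rw [him]
          nlinarith
        have hs0 : 0 < ‖3 + ρ‖ := by
          rw [norm_pos_iff]
          intro h
          rw [← hre3, h] at hneg
          simp at hneg
        have hsa : |(3 + ρ).re| = -(3 + ρ.re) := by
          rw [hre3]; exact abs_of_nonpos hneg.le
        have hkey : |ρ.re| / ‖ρ‖ ^ 2 ≤ |(3 + ρ).re| / ‖3 + ρ‖ ^ 2 + 3 * (1 / ‖ρ‖ ^ 2) := by
          have h1 : |ρ.re| = |(3 + ρ).re| + 3 := by rw [hρa, hsa]; ring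
          rw [h1, add_div]
          have h2 : |(3 + ρ).re| / ‖ρ‖ ^ 2 ≤ |(3 + ρ).re| / ‖3 + ρ‖ ^ 2 := by
            apply div_le_div_of_nonneg_left (abs_nonneg _) (by positivity)
            exact pow_le_pow_left₀ hs0.le hsn 2
          have h3 : 3 / ‖ρ‖ ^ 2 = 3 * (1 / ‖ρ‖ ^ 2) := by ring
          linarith
        calc (analyticOrderNatAt Φ ρ : ℝ) * (|ρ.re| / ‖ρ‖ ^ 2) ≤ (analyticOrderNatAt Φ ρ : ℝ) *
              (|(3 + ρ).re| / ‖3 + ρ‖ ^ 2 + 3 * (1 / ‖ρ‖ ^ 2)) :=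
              mul_le_mul_of_nonneg_left hkey hmn
          _ = _ := by ring
      · rw [hre3] at hneg
        push Not at hneg
        rw [zero_add]
        have hkey : |ρ.re| / ‖ρ‖ ^ 2 ≤ 3 * (1 / ‖ρ‖ ^ 2) := by
          rw [hρa]
          have h3 : 3 * (1 / ‖ρ‖ ^ 2) = 3 / ‖ρ‖ ^ 2 := by ring
          rw [h3]
          apply div_le_div_of_nonneg_right _ (by positivity)
          linarith
        calc (analyticOrderNatAt Φ ρ : ℝ) * (|ρ.re| / ‖ρ‖ ^ 2) ≤ (analyticOrderNatAt Φ ρ : ℝ) *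
              (3 * (1 / ‖ρ‖ ^ 2)) := mul_le_mul_of_nonneg_left hkey hmn
          _ = _ := by ring
    refine (Finset.sum_le_sum hpt).trans ?_
    rw [Finset.sum_add_distrib]
    apply add_le_add
    · rw [← Finset.sum_filter]
      have h2 : ∑ ρ ∈ Z with (3 + ρ).re < 0,
          (analyticOrderNatAt F (3 + ρ) : ℝ) * (|(3 + ρ).re| / ‖3 + ρ‖ ^ 2) =
          ∑ s ∈ (Z.filter (fun ρ => (3 + ρ).re < 0)).image (fun ρ => 3 + ρ),
            (analyticOrderNatAt F s : ℝ) * (|s.re| / ‖s‖ ^ 2) := by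
        rw [Finset.sum_image (fun x _ y _ h => add_left_cancel h)]
      rw [h2]
      apply shift_sum_le
      · apply (hFfin (t + 1)).subset
        intro ρ hρ
        have h3 := hρ.1
        simp only [Set.mem_setOf_eq] at h3
        refine ⟨by linarith [h3.1], ?_⟩
        apply hsupp
        intro h4
        have h5 := hρ.2
        rw [Function.mem_support, h4] at h5
        simp at h5
      · intro x; positivity
      · intro s hs
        rw [Finset.mem_image] at hs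
        obtain ⟨ρ, hρ, rfl⟩ := hs
        rw [Finset.mem_filter, hZ, Finset.mem_filter] at hρ
        obtain ⟨⟨hρ1, hρ2⟩, hρ3⟩ := hρ
        refine ⟨?_, hρ3⟩
        have hre3 : (3 + ρ).re = 3 + ρ.re := by simp
        rw [hre3] at hρ3
        have hsn : ‖3 + ρ‖ ≤ ‖ρ‖ := by
          apply le_of_sq_le_sq _ (norm_nonneg _)
          rw [← Complex.normSq_eq_norm_sq, ← Complex.normSq_eq_norm_sq, Complex.normSq_apply,
            Complex.normSq_apply, hre3]
          have him : (3 + ρ).im = ρ.im := by simp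
          rw [him]
          nlinarith
        exact hsn.trans hρ2
    · rw [← Finset.mul_sum]
      apply mul_le_mul_of_nonneg_left _ (by norm_num)
      apply Finset.sum_le_sum_of_subset_of_nonneg
      · rw [hZ]; exact Finset.filter_subset _ _
      · intro _ _ _; positivity

end MP7ed9c3.Zr
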