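import Pool.Agent.Lib.MP_7ed9c3_nt.Zr.Spec

/-!
# MP_7ed9c3_nt, part Zr: F4c, F4d, the even and the odd sum
-/

set_option autoImplicit false

namespace MP7ed9c3.Zr

open Filter Topology MeasureTheory

/-- the primitive of the even kernel -/
theorem even1_deriv {r : ℝ} (hr : 0 < r) {u : ℝ} (hu : 0 < u) :
    HasDerivAt (fun u : ℝ => -Real.log (1 + r ^ 2 / u ^ 2))
      (2 * r ^ 2 / (u * (u ^ 2 + r ^ 2))) u := by
  have h1 : HasDerivAt (fun u : ℝ => 1 + r ^ 2 / u ^ 2) (-(2 * r ^ 2 / u ^ 3)) u := by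
    have h2 : HasDerivAt (fun u : ℝ => u ^ 2) (2 * u) u := by
      simpa using hasDerivAt_pow 2 u
    have h3 := (h2.inv (by positivity)).const_mul (r ^ 2)
    have h4 := h3.const_add 1
    refine HasDerivAt.congr_deriv (f := fun u : ℝ => 1 + r ^ 2 * (u ^ 2)⁻¹) h4 ?_
    field_simp
  have h5 := (h1.log (by positivity)).neg
  refine h5.congr_deriv ?_
  field_simp

theorem even1_tendsto (r : ℝ) :
    Tendsto (fun u : ℝ => -Real.log (1 + r ^ 2 / u ^ 2)) atTop (𝓝 0) := by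
  have h1 : Tendsto (fun u : ℝ => 1 + r ^ 2 / u ^ 2) atTop (𝓝 (1 + 0)) := by
    apply Tendsto.const_add
    exact Tendsto.const_div_atTop (tendsto_pow_atTop two_ne_zero) _
  rw [add_zero] at h1
  have h2 := (h1.log one_ne_zero).neg
  rwa [Real.log_one, neg_zero] at h2

theorem even1_int {r : ℝ} (hr : 0 < r) {x : ℝ} (hx : 0 < x) :
    IntegrableOn (fun u : ℝ => 2 * r ^ 2 / (u * (u ^ 2 + r ^ 2))) (Set.Ioi x) ∧
    ∫ u in Set.Ioi x, 2 * r ^ 2 / (u * (u ^ 2 + r ^ 2)) = Real.log (1 + r ^ 2 / x ^ 2) := by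
  have h1 : ∀ u ∈ Set.Ici x, HasDerivAt (fun u : ℝ => -Real.log (1 + r ^ 2 / u ^ 2))
      (2 * r ^ 2 / (u * (u ^ 2 + r ^ 2))) u := fun u hu =>
    even1_deriv hr (lt_of_lt_of_le hx hu)
  have h2 : ∀ u ∈ Set.Ioi x, 0 ≤ 2 * r ^ 2 / (u * (u ^ 2 + r ^ 2)) := by
    intro u hu
    have : 0 < u := lt_trans hx hu
    positivity
  refine ⟨integrableOn_Ioi_deriv_of_nonneg' h1 h2 (even1_tendsto r), ?_⟩
  rw [integral_Ioi_of_hasDerivAt_of_nonneg' h1 h2 (even1_tendsto r)]
  ring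

/-- the constant -/
noncomputable def even1_c0 : ℝ := ∫ w in Set.Ioi (0 : ℝ), √w * (1 + w ^ 2)⁻¹

theorem even1_sqrt : IntegrableOn (fun w : ℝ => √w * (1 + w ^ 2)⁻¹) (Set.Ioi 0) := by
  have h1 : Integrable (fun w : ℝ => (1 + ‖w‖ ^ 2) ^ (-(3 / 2 : ℝ) / 2)) :=
    integrable_rpow_neg_one_add_norm_sq (by norm_num)
  refine Integrable.mono' h1.integrableOn ?_ ?_
  · apply AEStronglyMeasurable.restrict
    apply Continuous.aestronglyMeasurable
    apply Real.continuous_sqrt.mul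
    apply Continuous.inv₀ (by fun_prop)
    intro w
    positivity
  · refine (ae_restrict_iff' measurableSet_Ioi).mpr (Eventually.of_forall ?_)
    intro w hw
    have hw0 : (0 : ℝ) < w := hw
    have hp : 0 < 1 + w ^ 2 := by positivity
    rw [Real.norm_eq_abs, abs_of_nonneg (by positivity), Real.norm_eq_abs, sq_abs]
    have h2 : √w ≤ (1 + w ^ 2) ^ (1 / 4 : ℝ) := by
      rw [Real.sqrt_eq_rpow, show (1 / 2 : ℝ) = 2 * (1 / 4) by norm_num,
        Real.rpow_mul hw0.le]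
      apply Real.rpow_le_rpow (by positivity) _ (by norm_num)
      rw [Real.rpow_two]
      linarith
    have h3 : (1 + w ^ 2) ^ (-(3 / 2 : ℝ) / 2) = (1 + w ^ 2) ^ (1 / 4 : ℝ) * (1 + w ^ 2)⁻¹ := by
      rw [← Real.rpow_neg_one, ← Real.rpow_add hp]
      norm_num
    rw [h3]
    exact mul_le_mul_of_nonneg_right h2 (by positivity)

theorem even1_c0_nonneg : 0 ≤ even1_c0 := by
  apply setIntegral_nonneg measurableSet_Ioi
  intro w _
  positivity

theorem even1_atan : IntegrableOn (fun w : ℝ => (1 + w ^ 2)⁻¹) (Set.Ioi 0) :=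
  integrable_inv_one_add_sq.integrableOn

/-- the main integral -/
theorem even1_main {r : ℝ} (hr : 1 ≤ r) :
    IntegrableOn (fun u : ℝ => 2 * r ^ 2 * Real.log u / (u ^ 2 + r ^ 2)) (Set.Ioi 1) ∧
    ∫ u in Set.Ioi (1 : ℝ), 2 * r ^ 2 * Real.log u / (u ^ 2 + r ^ 2) ≤
      Real.pi * (r * Real.log r) + 4 * even1_c0 * r := by
  have hr0 : 0 < r := by linarith
  have hl : 0 ≤ Real.log r := Real.log_nonneg hr
  set f : ℝ → ℝ := fun w => 2 * r ^ 2 * ((Real.log r + 2 * √(w / r)) / (w ^ 2 + r ^ 2)) with hf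
  have hfr : ∀ w : ℝ, f (r * w) = 2 * Real.log r * (1 + w ^ 2)⁻¹ +
      4 * (√w * (1 + w ^ 2)⁻¹) := by
    intro w
    rw [hf]
    simp only
    rw [show r * w / r = w by field_simp, show (r * w) ^ 2 + r ^ 2 = r ^ 2 * (1 + w ^ 2) by ring]
    have : (1 + w ^ 2) ≠ 0 := by positivity
    field_simp
    ring
  have hi1 : IntegrableOn (fun w => f (r * w)) (Set.Ioi 0) := by
    simp_rw [hfr]
    exact (even1_atan.const_mul _).add (even1_sqrt.const_mul _)
  have hi2 : IntegrableOn f (Set.Ioi 0) := by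
    have := (integrableOn_Ioi_comp_mul_left_iff f 0 hr0).mp hi1
    rwa [mul_zero] at this
  have hval : ∫ w in Set.Ioi (0 : ℝ), f w = Real.pi * (r * Real.log r) + 4 * even1_c0 * r := by
    have h1 := integral_comp_mul_left_Ioi' f 0 hr0
    rw [mul_zero] at h1
    rw [← h1]
    simp_rw [hfr]
    rw [integral_add (even1_atan.const_mul _) (even1_sqrt.const_mul _), integral_const_mul,
      integral_const_mul, integral_Ioi_inv_one_add_sq, Real.arctan_zero, ← even1_c0]
    simp only [smul_eq_mul]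
    ring
  have hle : ∀ u ∈ Set.Ioi (1 : ℝ), 2 * r ^ 2 * Real.log u / (u ^ 2 + r ^ 2) ≤ f u := by
    intro u hu
    have hu0 : 0 < u := lt_trans one_pos hu
    rw [hf]
    simp only
    rw [mul_div_assoc]
    apply mul_le_mul_of_nonneg_left _ (by positivity)
    apply div_le_div_of_nonneg_right _ (by positivity)
    have h1 : Real.log u = Real.log r + Real.log (u / r) := by
      rw [Real.log_div hu0.ne' hr0.ne']
      ring
    have h2 : Real.log (u / r) ≤ 2 * √(u / r) := by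
      have hpos : 0 < u / r := by positivity
      have h3 := Real.log_le_sub_one_of_pos (Real.sqrt_pos.mpr hpos)
      have h4 : Real.log (u / r) = 2 * Real.log (√(u / r)) := by
        rw [Real.log_sqrt hpos.le]
        ring
      linarith
    linarith
  have hnn : ∀ u ∈ Set.Ioi (1 : ℝ), 0 ≤ 2 * r ^ 2 * Real.log u / (u ^ 2 + r ^ 2) := by
    intro u hu
    have := Real.log_nonneg (le_of_lt hu)
    positivity
  have hsub : Set.Ioi (1 : ℝ) ⊆ Set.Ioi 0 := Set.Ioi_subset_Ioi zero_le_one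
  have hI : IntegrableOn (fun u : ℝ => 2 * r ^ 2 * Real.log u / (u ^ 2 + r ^ 2)) (Set.Ioi 1) := by
    refine Integrable.mono' (hi2.mono_set hsub) ?_ ?_
    · apply Measurable.aestronglyMeasurable
      fun_prop
    · refine (ae_restrict_iff' measurableSet_Ioi).mpr (Eventually.of_forall ?_)
      intro u hu
      rw [Real.norm_eq_abs, abs_of_nonneg (hnn u hu)]
      exact hle u hu
  refine ⟨hI, ?_⟩
  rw [← hval]
  calc _ ≤ ∫ u in Set.Ioi (1 : ℝ), f u :=
        setIntegral_mono_on hI (hi2.mono_set hsub) measurableSet_Ioi hle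
    _ ≤ ∫ u in Set.Ioi (0 : ℝ), f u := by
        apply setIntegral_mono_set hi2 _ hsub.eventuallyLE
        refine (ae_restrict_iff' measurableSet_Ioi).mpr (Eventually.of_forall ?_)
        intro u hu
        have : (0 : ℝ) < u := hu
        rw [hf]
        show 0 ≤ 2 * r ^ 2 * ((Real.log r + 2 * √(u / r)) / (u ^ 2 + r ^ 2))
        positivity

theorem even1 (h : S_Abel) : S_Even1 := by
  intro κ A hκ hA
  refine ⟨4 * even1_c0 * κ + 2 * A, ?_⟩
  intro Z w hZ hw hW r hr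
  have hr0 : 0 < r := by linarith
  obtain ⟨hI, hle⟩ := even1_main hr
  obtain ⟨hK, hKv⟩ := even1_int hr0 one_pos
  have heq : ∀ u ∈ Set.Ioi (1 : ℝ), κ * (2 * r ^ 2 * Real.log u / (u ^ 2 + r ^ 2)) +
      A * (2 * r ^ 2 / (u * (u ^ 2 + r ^ 2))) =
      2 * r ^ 2 / (u * (u ^ 2 + r ^ 2)) * (κ * (u * Real.log u) + A) := by
    intro u hu
    have hu0 : 0 < u := lt_trans one_pos hu
    have : u ^ 2 + r ^ 2 ≠ 0 := by positivity
    field_simp
  have hB : IntegrableOn (fun u : ℝ => 2 * r ^ 2 / (u * (u ^ 2 + r ^ 2)) *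
      (κ * (u * Real.log u) + A)) (Set.Ioi 1) := by
    have hs : IntegrableOn (fun u : ℝ => κ * (2 * r ^ 2 * Real.log u / (u ^ 2 + r ^ 2)) +
      A * (2 * r ^ 2 / (u * (u ^ 2 + r ^ 2)))) (Set.Ioi 1) :=
      (hI.const_mul κ).add (hK.const_mul A)
    exact hs.congr_fun heq measurableSet_Ioi
  have h1 := h Z w (fun u => 2 * r ^ 2 / (u * (u ^ 2 + r ^ 2)))
    (fun u => κ * (u * Real.log u) + A) hZ hw (fun u hu => by positivity) hK hB hW
  have h2 : ∑ ρ ∈ Z, w ρ * ∫ u in Set.Ioi ‖ρ‖, 2 * r ^ 2 / (u * (u ^ 2 + r ^ 2)) =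
      ∑ ρ ∈ Z, w ρ * Real.log (1 + r ^ 2 / ‖ρ‖ ^ 2) := by
    apply Finset.sum_congr rfl
    intro ρ hρ
    rw [(even1_int hr0 (lt_of_lt_of_le one_pos (hZ ρ hρ))).2]
  rw [h2] at h1
  refine h1.trans ?_
  rw [← setIntegral_congr_fun measurableSet_Ioi heq, integral_add (hI.const_mul κ)
    (hK.const_mul A), integral_const_mul, integral_const_mul, hKv]
  have h3 : Real.log (1 + r ^ 2 / 1 ^ 2) ≤ 2 * r := by
    have h4 : 1 + r ^ 2 / 1 ^ 2 ≤ (1 + r) ^ 2 := by nlinarith
    have h5 := Real.log_le_log (by positivity) h4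
    rw [Real.log_pow] at h5
    have h6 := Real.log_le_sub_one_of_pos (show 0 < 1 + r by positivity)
    push_cast at h5
    linarith
  have h7 := mul_le_mul_of_nonneg_left hle hκ
  have h8 := mul_le_mul_of_nonneg_left h3 hA
  nlinarith

/-! ### the odd sum -/

theorem odd1_int {c x : ℝ} (hx : 0 < x) (hc : 0 ≤ c) :
    IntegrableOn (fun u : ℝ => c / u ^ 2) (Set.Ioi x) ∧
    ∫ u in Set.Ioi x, c / u ^ 2 = c / x := by
  have h1 : ∀ u ∈ Set.Ici x, HasDerivAt (fun u : ℝ => -(c / u)) (c / u ^ 2) u := by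
    intro u hu
    have hu0 : u ≠ 0 := (lt_of_lt_of_le hx hu).ne'
    have h2 := ((hasDerivAt_inv hu0).const_mul c).neg
    refine (HasDerivAt.congr_deriv (f := fun u : ℝ => -(c * u⁻¹)) h2 ?_)
    field_simp
  have h2 : ∀ u ∈ Set.Ioi x, 0 ≤ c / u ^ 2 := fun u _ => by positivity
  have h3 : Tendsto (fun u : ℝ => -(c / u)) atTop (𝓝 0) := by
    have := (tendsto_id.const_div_atTop (r := c) (l := (atTop : Filter ℝ))).neg
    rwa [neg_zero] at this
  refine ⟨integrableOn_Ioi_deriv_of_nonneg' h1 h2 h3, ?_⟩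
  rw [integral_Ioi_of_hasDerivAt_of_nonneg' h1 h2 h3]
  ring

theorem odd1_log {κ A c x : ℝ} (hx : 1 ≤ x) (hc : 0 ≤ c) (hκ : 0 ≤ κ) (hA : 0 ≤ A) :
    IntegrableOn (fun u : ℝ => c / u ^ 2 * (κ * Real.log u + A)) (Set.Ioi x) ∧
    ∫ u in Set.Ioi x, c / u ^ 2 * (κ * Real.log u + A) =
      c * (κ * (Real.log x + 1) + A) / x := by
  have hx0 : 0 < x := by linarith
  have h1 : ∀ u ∈ Set.Ici x, HasDerivAt (fun u : ℝ => -(c * (κ * (Real.log u + 1) + A) / u))
      (c / u ^ 2 * (κ * Real.log u + A)) u := by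
    intro u hu
    have hu0 : u ≠ 0 := (lt_of_lt_of_le hx0 hu).ne'
    have h2 : HasDerivAt (fun u : ℝ => c * (κ * (Real.log u + 1) + A)) (c * (κ * u⁻¹)) u :=
      ((((Real.hasDerivAt_log hu0).add_const 1).const_mul κ).add_const A).const_mul c
    have h3 := (h2.div (hasDerivAt_id u) hu0).neg
    refine h3.congr_deriv ?_
    simp only [id]
    field_simp
    ring
  have h2 : ∀ u ∈ Set.Ioi x, 0 ≤ c / u ^ 2 * (κ * Real.log u + A) := by
    intro u hu
    have : 0 ≤ Real.log u := Real.log_nonneg (hx.trans (le_of_lt hu))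
    positivity
  have h3 : Tendsto (fun u : ℝ => -(c * (κ * (Real.log u + 1) + A) / u)) atTop (𝓝 0) := by
    have a1 : Tendsto (fun u : ℝ => Real.log u / u) atTop (𝓝 0) := by
      have := Real.isLittleO_log_id_atTop.tendsto_div_nhds_zero
      exact this
    have a2 : Tendsto (fun u : ℝ => (c * κ + c * A) / u) atTop (𝓝 0) :=
      tendsto_id.const_div_atTop _
    have a3 := ((a1.const_mul (c * κ)).add a2).neg
    rw [mul_zero, add_zero, neg_zero] at a3
    refine a3.congr ?_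
    intro u
    ring
  refine ⟨integrableOn_Ioi_deriv_of_nonneg' h1 h2 h3, ?_⟩
  rw [integral_Ioi_of_hasDerivAt_of_nonneg' h1 h2 h3]
  ring

theorem odd1 (h : S_Abel) : S_Odd1 := by
  intro κ A hκ hA
  refine ⟨κ * (Real.log 3 + 1) + A, ?_⟩
  intro Z w hZ hw hW r hr
  have hr0 : 0 < r := by linarith
  have h3r : (1 : ℝ) ≤ 3 * r := by linarith
  set k : ℝ → ℝ := (Set.Ioi (3 * r)).indicator (fun u => 3 * r / u ^ 2) with hk
  have hinter : ∀ x : ℝ, Set.Ioi x ∩ Set.Ioi (3 * r) = Set.Ioi (max x (3 * r)) :=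
    fun x => Set.Ioi_inter_Ioi
  have hkB : (fun u => k u * (κ * Real.log u + A)) =
      (Set.Ioi (3 * r)).indicator (fun u => 3 * r / u ^ 2 * (κ * Real.log u + A)) := by
    funext u
    rw [hk]
    by_cases hu : u ∈ Set.Ioi (3 * r)
    · rw [Set.indicator_of_mem hu, Set.indicator_of_mem hu]
    · rw [Set.indicator_of_notMem hu, Set.indicator_of_notMem hu, zero_mul]
  have hki : IntegrableOn k (Set.Ioi 1) :=
    Integrable.indicator ((odd1_int one_pos (by positivity)).1) measurableSet_Ioi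
  have hkBi : IntegrableOn (fun u => k u * (κ * Real.log u + A)) (Set.Ioi 1) := by
    rw [hkB]
    exact Integrable.indicator ((odd1_log le_rfl (by positivity) hκ hA).1) measurableSet_Ioi
  have h1 := h Z w k (fun u => κ * Real.log u + A) hZ hw (fun u hu => by
    rw [hk]
    apply Set.indicator_nonneg
    intro u _
    positivity) hki hkBi hW
  have h2 : ∑ ρ ∈ Z, w ρ * ∫ u in Set.Ioi ‖ρ‖, k u =
      ∑ ρ ∈ Z, w ρ * min 1 (3 * r / ‖ρ‖) := by
    apply Finset.sum_congr rfl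
    intro ρ hρ
    have hρ1 := hZ ρ hρ
    have hρ0 : 0 < ‖ρ‖ := by linarith
    rw [hk, setIntegral_indicator measurableSet_Ioi, hinter]
    congr 1
    rcases le_total ‖ρ‖ (3 * r) with hle | hle
    · rw [max_eq_right hle, (odd1_int (by positivity) (by positivity)).2, div_self (by positivity),
        min_eq_left]
      rwa [le_div_iff₀ hρ0, one_mul]
    · rw [max_eq_left hle, (odd1_int hρ0 (by positivity)).2, min_eq_right]
      rwa [div_le_iff₀ hρ0, one_mul]
  rw [h2] at h1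
  refine h1.trans ?_
  rw [hkB, setIntegral_indicator measurableSet_Ioi, hinter, max_eq_right h3r,
    (odd1_log h3r (by positivity) hκ hA).2, Real.log_mul (by norm_num) (by positivity)]
  rw [mul_div_assoc, mul_comm (3 * r), div_mul_cancel₀ _ (by positivity)]
  linarith

end MP7ed9c3.Zr
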