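import Pool.Agent.Lib.MP_7ed9c3_nt.Zr.Factor
import Pool.Agent.Lib.MP_7ed9c3_nt.Zr.Jensen
import Pool.Agent.Lib.MP_7ed9c3_nt.Zr.LogZ
import Pool.Agent.Lib.MP_7ed9c3_nt.Zr.Abel
import Pool.Agent.Lib.MP_7ed9c3_nt.Zr.Sums
import Pool.Agent.Lib.MP_7ed9c3_nt.Zr.PL
import Pool.Agent.Lib.MP_7ed9c3_nt.Zr.Even
import Pool.Agent.Lib.MP_7ed9c3_nt.Zr.Odd
import Pool.Agent.Lib.MP_7ed9c3_nt.Zr.Reduce
import Pool.Agent.Lib.MP_7ed9c3_nt.Zr.Edge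
import Pool.Agent.Lib.MP_7ed9c3_nt.Zr.Shift
import Pool.Agent.Lib.MP_7ed9c3_nt.Zr.AsmZ1
import Pool.Agent.Lib.MP_7ed9c3_nt.Zr.AsmZ2

/-!
# MP_7ed9c3_nt: assembly of part Zr
-/

namespace MP7ed9c3.Zr

theorem z1All : S_Z1 :=
  zerosOf plz (evenz (logz factor) (even1 abelz)) (reduce (logz factor) (powz abelz)) edgez shift

theorem z2All : S_Z2 :=
  asmZ2 (jensen factor) (powz abelz) plz (odd (logz factor) (odd1 abelz)) edgez shift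

end MP7ed9c3.Zr
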