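import Pool.Agent.Lib.MP_7ed9c3_nt.Zr.Spec

/-!
# MP_7ed9c3_nt, part Zr: F1, dividing out the zeros in a ball
-/

set_option autoImplicit false

namespace MP7ed9c3.Zr

open Filter Topology

/-- an entire function that is not zero somewhere has finite order everywhere -/
theorem factor_order {f : ℂ → ℂ} (hf : Differentiable ℂ f) {z₀ : ℂ} (h₀ : f z₀ ≠ 0) (z : ℂ) :
    analyticOrderAt f z ≠ ⊤ := by
  intro h
  rw [analyticOrderAt_eq_top] at h
  have ha : AnalyticOnNhd ℂ f Set.univ := fun w _ => hf.analyticAt w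
  have := ha.eqOn_zero_of_preconnected_of_frequently_eq_zero isPreconnected_univ
    (Set.mem_univ z) (h.filter_mono nhdsWithin_le_nhds).frequently
  exact h₀ (this (Set.mem_univ z₀))

/-- the zeros in a ball are finite in number -/
theorem factor_finite {f : ℂ → ℂ} (hf : Differentiable ℂ f) {z₀ : ℂ} (h₀ : f z₀ ≠ 0) (R : ℝ) :
    {ρ : ℂ | ‖ρ‖ < R ∧ f ρ = 0}.Finite := by
  by_contra hinf
  have hsub : {ρ : ℂ | ‖ρ‖ < R ∧ f ρ = 0} ⊆ Metric.closedBall (0 : ℂ) R := by
    intro ρ hρ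
    rw [mem_closedBall_zero_iff]
    exact hρ.1.le
  obtain ⟨z, -, hz⟩ := Set.Infinite.exists_accPt_of_subset_isCompact hinf
    (isCompact_closedBall (0 : ℂ) R) hsub
  have ha : AnalyticOnNhd ℂ f Set.univ := fun w _ => hf.analyticAt w
  have hfr : ∃ᶠ w in 𝓝[≠] z, f w = 0 := by
    rw [accPt_iff_frequently_nhdsNE] at hz
    exact hz.mono fun w hw => hw.2
  exact h₀ (ha.eqOn_zero_of_preconnected_of_frequently_eq_zero isPreconnected_univ
    (Set.mem_univ z) hfr (Set.mem_univ z₀))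

/-- dividing out one zero -/
theorem factor_one {f : ℂ → ℂ} (hf : Differentiable ℂ f) {z₀ : ℂ} (h₀ : f z₀ ≠ 0) (ρ : ℂ) :
    ∃ f₁ : ℂ → ℂ, Differentiable ℂ f₁ ∧ f₁ ρ ≠ 0 ∧
      ∀ z, f z = (z - ρ) ^ analyticOrderNatAt f ρ * f₁ z := by
  obtain ⟨g, hg, hg0, hfg⟩ := (hf.analyticAt ρ).analyticOrderAt_ne_top.1 (factor_order hf h₀ ρ)
  set m := analyticOrderNatAt f ρ with hm
  classical
  set f₁ : ℂ → ℂ := Function.update (fun z => f z / (z - ρ) ^ m) ρ (g ρ) with hf₁
  have hne : ∀ z, z ≠ ρ → f₁ z = f z / (z - ρ) ^ m := fun z hz => by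
    rw [hf₁, Function.update_of_ne hz]
  have hρ : f₁ ρ = g ρ := by rw [hf₁, Function.update_self]
  have heq : f₁ =ᶠ[𝓝 ρ] g := by
    filter_upwards [hfg] with z hz
    by_cases h : z = ρ
    · rw [h, hρ]
    · rw [hne z h, hz, smul_eq_mul, mul_div_assoc, mul_comm, div_mul_cancel₀]
      exact pow_ne_zero _ (sub_ne_zero.mpr h)
  refine ⟨f₁, ?_, by rwa [hρ], ?_⟩
  · intro z
    by_cases h : z = ρ
    · rw [h]
      exact (hg.differentiableAt).congr_of_eventuallyEq heq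
    · have h1 : DifferentiableAt ℂ (fun z => f z / (z - ρ) ^ m) z := by
        apply DifferentiableAt.div (hf z)
        · fun_prop
        · exact pow_ne_zero _ (sub_ne_zero.mpr h)
      apply h1.congr_of_eventuallyEq
      filter_upwards [isOpen_ne.mem_nhds h] with w hw
      exact hne w hw
  · intro z
    by_cases h : z = ρ
    · rw [h]
      have h1 : f ρ = (ρ - ρ) ^ m • g ρ := hfg.self_of_nhds
      rw [h1, hρ, smul_eq_mul]
    · rw [hne z h, mul_div_cancel₀]
      exact pow_ne_zero _ (sub_ne_zero.mpr h)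

/-- dividing out finitely many points -/
theorem factor_many {f : ℂ → ℂ} (hf : Differentiable ℂ f) {z₀ : ℂ} (h₀ : f z₀ ≠ 0)
    (Z : Finset ℂ) :
    ∃ G : ℂ → ℂ, Differentiable ℂ G ∧ (∀ ρ ∈ Z, G ρ ≠ 0) ∧
      ∀ z, f z = (∏ ρ ∈ Z, (z - ρ) ^ analyticOrderNatAt f ρ) * G z := by
  classical
  induction Z using Finset.induction_on with
  | empty => exact ⟨f, hf, by simp, by simp⟩
  | insert ρ Z hρ ih =>
    obtain ⟨G, hG, hG0, hfG⟩ := ih
    have hGz : G z₀ ≠ 0 := by
      intro h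
      apply h₀
      rw [hfG, h, mul_zero]
    obtain ⟨G₁, hG₁, hG₁0, hGG⟩ := factor_one hG hGz ρ
    set P : ℂ → ℂ := fun z => ∏ ρ ∈ Z, (z - ρ) ^ analyticOrderNatAt f ρ with hP
    have hPd : Differentiable ℂ P := by
      rw [hP]
      fun_prop
    have hPρ : P ρ ≠ 0 := by
      rw [hP]
      simp only
      rw [Finset.prod_ne_zero_iff]
      intro σ hσ
      apply pow_ne_zero
      rw [sub_ne_zero]
      rintro rfl
      exact hρ hσ
    have hord : analyticOrderNatAt G ρ = analyticOrderNatAt f ρ := by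
      have h1 : f = P * G := by
        funext z
        rw [hfG z]
        rfl
      have h2 : analyticOrderAt P ρ = 0 := (hPd.analyticAt ρ).analyticOrderAt_eq_zero.2 hPρ
      have h3 : analyticOrderAt f ρ = analyticOrderAt G ρ := by
        rw [h1, analyticOrderAt_mul (hPd.analyticAt ρ) (hG.analyticAt ρ), h2, zero_add]
      rw [analyticOrderNatAt, analyticOrderNatAt, h3]
    refine ⟨G₁, hG₁, ?_, ?_⟩
    · intro σ hσ
      rw [Finset.mem_insert] at hσ
      rcases hσ with rfl | hσ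
      · exact hG₁0
      · intro h
        apply hG0 σ hσ
        rw [hGG, h, mul_zero]
    · intro z
      rw [Finset.prod_insert hρ, hfG z, hGG z, hord]
      ring

theorem factor : S_Factor := by
  intro Φ hΦ h1 R
  have h0 : Φ 0 ≠ 0 := by rw [h1]; exact one_ne_zero
  have hfin := factor_finite hΦ h0 R
  have hmem : ∀ ρ : ℂ, ρ ∈ zer Φ R ↔ ‖ρ‖ < R ∧ Φ ρ = 0 := by
    intro ρ
    rw [zer, dif_pos hfin, Set.Finite.mem_toFinset]
    rfl
  have hne0 : ∀ ρ ∈ zer Φ R, ρ ≠ 0 := by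
    intro ρ hρ h
    rw [hmem] at hρ
    rw [h] at hρ
    exact h0 hρ.2
  refine ⟨hfin, ?_, ?_⟩
  · intro ρ hρ
    refine ⟨hne0 ρ hρ, ?_⟩
    rw [hmem] at hρ
    rw [Nat.one_le_iff_ne_zero]
    intro h
    have h2 : analyticOrderAt Φ ρ = 0 := by
      rw [← Nat.cast_analyticOrderNatAt (factor_order hΦ h0 ρ), h]
      rfl
    exact (hΦ.analyticAt ρ).analyticOrderAt_eq_zero.1 h2 hρ.2
  · obtain ⟨G, hG, hG0, hΦG⟩ := factor_many hΦ h0 (zer Φ R)
    refine ⟨fun z => (∏ ρ ∈ zer Φ R, (-ρ) ^ analyticOrderNatAt Φ ρ) * G z,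
      hG.const_mul _, ?_, ?_⟩
    · intro z
      rw [hΦG z, prodZ]
      have : ∏ ρ ∈ zer Φ R, (z - ρ) ^ analyticOrderNatAt Φ ρ =
          (∏ ρ ∈ zer Φ R, (-ρ) ^ analyticOrderNatAt Φ ρ) *
          ∏ ρ ∈ zer Φ R, (1 - z / ρ) ^ analyticOrderNatAt Φ ρ := by
        rw [← Finset.prod_mul_distrib]
        apply Finset.prod_congr rfl
        intro ρ hρ
        rw [← mul_pow]
        congr 1
        have := hne0 ρ hρ
        field_simp
        ring
      rw [this]
      ring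
    · intro z hz
      apply mul_ne_zero
      · rw [Finset.prod_ne_zero_iff]
        intro ρ hρ
        exact pow_ne_zero _ (neg_ne_zero.mpr (hne0 ρ hρ))
      · by_cases h : Φ z = 0
        · exact hG0 z ((hmem z).2 ⟨hz, h⟩)
        · intro h'
          apply h
          rw [hΦG z, h', mul_zero]

end MP7ed9c3.Zr
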