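import Pool.Agent.Lib.MP_7ed9c3_nt.AllV

/-!
# MP_7ed9c3_nt, part Zr: zeros of an entire continuation (statements)

Let `F` be an entire function of finite order which agrees with the Euler product of an elliptic curve
over a number field for `Re s > 3/2`.  Z1: for every `κ < 2/π` the number of zeros in `|s| ≤ r` is larger
than `κ r log r` for arbitrarily large `r`.  Z2: if the order is less than 2, then the sum of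
`|Re ρ|/|ρ|²` over the zeros with `Re ρ < 0`, `|ρ| ≤ r` is larger than `κ log r` for arbitrarily large
`r`, for every `κ < 1`.

Every statement is a separate module; the complete proof is in the docstring.
-/

set_option autoImplicit false

namespace MP7ed9c3.Zr

open NumberField IsDedekindDomain Filter Topology MeasureTheory

/-- `F` has finite order. -/
def Ord (F : ℂ → ℂ) (C a : ℝ) : Prop := ∀ s : ℂ, ‖F s‖ ≤ Real.exp (C * (1 + ‖s‖) ^ a)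

open Classical in
/-- The zeros of `Φ` in the open ball of radius `R` around `0` (if they are finite in number). -/
noncomputable def zer (Φ : ℂ → ℂ) (R : ℝ) : Finset ℂ :=
  if h : {ρ : ℂ | ‖ρ‖ < R ∧ Φ ρ = 0}.Finite then h.toFinset else ∅

/-- The product of the factors `1 - z/ρ` over the zeros in the ball of radius `R`. -/
noncomputable def prodZ (Φ : ℂ → ℂ) (R : ℝ) (z : ℂ) : ℂ :=
  ∏ ρ ∈ zer Φ R, (1 - z / ρ) ^ analyticOrderNatAt Φ ρ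

/-- The number of zeros in `zer Φ R` with absolute value at most `t`, with multiplicity. -/
noncomputable def num (Φ : ℂ → ℂ) (R t : ℝ) : ℝ :=
  ∑ ρ ∈ zer Φ R with ‖ρ‖ ≤ t, (analyticOrderNatAt Φ ρ : ℝ)

/-- **F1, dividing out the zeros in a ball.**

Proof.  `Φ` is entire and not identically zero, so its zeros are isolated and the set of the zeros in
the compact ball `closedBall 0 R` is finite.  Induction over the finite set `Z` of the zeros: for an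
entire `f`, not identically `0`, and a point `ρ` there is an entire `f₁` with
`f z = (z - ρ)^m f₁ z`, `m = analyticOrderNatAt f ρ`, `f₁ ρ ≠ 0` (near `ρ` by the definition of the order;
define `f₁ z = f z/(z - ρ)^m` for `z ≠ ρ`, or iterate `dslope f ρ`,
`Differentiable.dslope`-type lemmas), and at the other points the orders do not change
(`(z - ρ)^m ≠ 0` there: `analyticOrderAt_mul`).  At the end `G(z) = f_last(z) ∏ (-ρ)^(m_ρ)` (`ρ ≠ 0` because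
`Φ 0 = 1`), as `z - ρ = (-ρ)(1 - z/ρ)`.  `G z ≠ 0` for `‖z‖ < R`: at a zero `z = ρ` of `Φ` because all of the
order has been divided out, elsewhere because `Φ z ≠ 0`. -/
def S_Factor : Prop :=
  ∀ Φ : ℂ → ℂ, Differentiable ℂ Φ → Φ 0 = 1 → ∀ R : ℝ,
    {ρ : ℂ | ‖ρ‖ < R ∧ Φ ρ = 0}.Finite ∧
    (∀ ρ ∈ zer Φ R, ρ ≠ 0 ∧ 1 ≤ analyticOrderNatAt Φ ρ) ∧
    ∃ G : ℂ → ℂ, Differentiable ℂ G ∧ (∀ z, Φ z = G z * prodZ Φ R z) ∧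
      ∀ z : ℂ, ‖z‖ < R → G z ≠ 0

/-- **F2, the number of zeros (Jensen)** (from F1).

Proof.  Let `t ≥ 1`, `G` from F1 for `Φ` and the radius `R' = 2t`; `G 0 = 1`.  For `‖z‖ = 6t` and
`ρ ∈ zer Φ (2t)`: `‖1 - z/ρ‖ ≥ ‖z‖/‖ρ‖ - 1 ≥ 2`.  So `‖G z‖ ≤ ‖Φ z‖/2^n ≤ exp(C (1+6t)^a)/2^n`, `n` the
number of zeros in `zer Φ (2t)` with multiplicity, and by the maximum principle (on `ball 0 (6t)`)
`1 = ‖G 0‖ ≤ exp(C (1+6t)^a)/2^n`, i.e. `n log 2 ≤ C (1+6t)^a ≤ C (7t)^a` (`a ≥ 0`, `C ≥ 0`).  For all `R`: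
`num Φ R t ≤ n`, because the zeros counted by `num Φ R t` are in `zer Φ (2t)` (`‖ρ‖ ≤ t < 2t`). -/
def S_Jensen : Prop :=
  ∀ (Φ : ℂ → ℂ) (C a : ℝ), Differentiable ℂ Φ → Φ 0 = 1 → 0 ≤ C → 0 ≤ a → Ord Φ C a →
    ∃ A : ℝ, ∀ R t : ℝ, 1 ≤ t → num Φ R t ≤ A * t ^ a

/-- **F3, the logarithm of the rest** (from F1).

Proof.  Let `R > 0`, `G = G_R` from F1; `G 0 = 1`.  For `‖z‖ = 2R` and `ρ ∈ zer Φ R`: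
`‖1 - z/ρ‖ ≥ ‖z‖/‖ρ‖ - 1 ≥ 1`; so `‖G z‖ ≤ ‖Φ z‖ ≤ exp(A_R)`, `A_R = C (1+2R)^a`, and by the maximum
principle this holds for `‖z‖ ≤ 2R`.  `G` has no zero in the ball of radius `R`, so there is `g = g_R`,
differentiable on this ball, with `exp (g z) = G z` and `g 0 = 0` (holomorphic logarithm on a ball:
see `Mathlib/Analysis/Complex/BranchLogRoot.lean`, or take a primitive of `G'/G`,
`DifferentiableOn.isExactOn_ball` in `Mathlib/Analysis/Complex/HasPrimitives.lean`).  `Re g ≤ A_R`, so by Borel-Caratheodory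
(`Complex.borelCaratheodory_zero`) `‖g z‖ ≤ 2 (A_R + 1) ‖z‖/(R - ‖z‖) ≤ 2 (A_R + 1)` for `‖z‖ ≤ R/2`.
Cauchy's estimates on the circle of radius `R/2`: with `α_k = g^(k)(0)/k!`, `|α_k| ≤ 2 (A_R+1) (2/R)^k`, and
`‖g z - ∑_{k ≤ N} α_k z^k‖ ≤ 4 (A_R+1) (2‖z‖/R)^(N+1)` for `‖z‖ ≤ R/4` (power series on the ball; `α_0 = 0`).
For `‖z‖ ≤ r` this tends to `0` as `R → ∞`, because `a < N + 1`.
The coefficients: near `0` let `ℓ(z) = Complex.log (Φ z)` (`Φ 0 = 1`).  The function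
`g(z) - ℓ(z) + ∑_{ρ ∈ zer Φ R} m_ρ Complex.log (1 - z/ρ)` is continuous near `0`, vanishes at `0`, and its
exponential is `1`, so it is `0` near `0`.  As `-log(1 - w) = ∑_{k ≥ 1} w^k/k`, `α_k = c_k + (1/k) ∑ m_ρ ρ^(-k)`
for `k ≥ 1`, where `c_k = ℓ^(k)(0)/k!` does not depend on `R`, `c_1 = Φ'(0)/Φ(0) = Φ'(0)`. -/
def S_Log : Prop :=
  ∀ (Φ : ℂ → ℂ) (C a : ℝ), Differentiable ℂ Φ → Φ 0 = 1 → 0 ≤ C → 0 ≤ a → Ord Φ C a →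
    ∃ c : ℕ → ℂ, c 1 = deriv Φ 0 ∧ ∀ N : ℕ, 1 ≤ N → a < N + 1 → ∀ r ε : ℝ, 0 < ε →
      ∃ R₀ : ℝ, ∀ R : ℝ, R₀ ≤ R → ∃ g : ℂ → ℂ,
        (∀ z : ℂ, ‖z‖ ≤ r → Φ z = Complex.exp (g z) * prodZ Φ R z) ∧
        ∀ z : ℂ, ‖z‖ ≤ r → ‖g z - ∑ k ∈ Finset.Icc 1 N, (c k + 1 / (k : ℂ) *
          ∑ ρ ∈ zer Φ R, (analyticOrderNatAt Φ ρ : ℂ) * (1 / ρ) ^ k) * z ^ k‖ ≤ ε

/-- **F4a, summation by parts.**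

Proof.  `∫_{‖ρ‖}^∞ k = ∫_1^∞ k(u) 1_{u > ‖ρ‖} du` (`1 ≤ ‖ρ‖`), so the left side is
`∫_1^∞ k(u) W(u) du` with `W(u) = ∑_{ρ ∈ Z, ‖ρ‖ < u} w ρ ≤ B u` (`k ≥ 0`). -/
def S_Abel : Prop :=
  ∀ (Z : Finset ℂ) (w : ℂ → ℝ) (k B : ℝ → ℝ), (∀ ρ ∈ Z, 1 ≤ ‖ρ‖) → (∀ ρ ∈ Z, 0 ≤ w ρ) →
    (∀ u : ℝ, 1 ≤ u → 0 ≤ k u) → IntegrableOn k (Set.Ioi 1) →
    IntegrableOn (fun u => k u * B u) (Set.Ioi 1) →
    (∀ t : ℝ, 1 ≤ t → ∑ ρ ∈ Z with ‖ρ‖ ≤ t, w ρ ≤ B t) →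
    ∑ ρ ∈ Z, w ρ * ∫ u in Set.Ioi ‖ρ‖, k u ≤ ∫ u in Set.Ioi 1, k u * B u

/-- **F4b, powers** (from F4a).

Proof.  `k(u) = p u^(-p-1)`, `∫_x^∞ k = x^(-p)`; `B(u) = A u^b`; the right side is
`∫_1^∞ A p u^(b-p-1) du = A p/(p-b)`. -/
def S_Pow : Prop :=
  ∀ A b p : ℝ, 0 ≤ A → 0 < b → b < p → ∃ A' : ℝ, ∀ (Z : Finset ℂ) (w : ℂ → ℝ),
    (∀ ρ ∈ Z, 1 ≤ ‖ρ‖) → (∀ ρ ∈ Z, 0 ≤ w ρ) →
    (∀ t : ℝ, 1 ≤ t → ∑ ρ ∈ Z with ‖ρ‖ ≤ t, w ρ ≤ A * t ^ b) →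
    ∑ ρ ∈ Z, w ρ * ‖ρ‖ ^ (-p) ≤ A'

/-- **F4c, the even sum** (from F4a).

Proof.  `k(u) = 2r²/(u(u²+r²))`, a primitive is `-log(1+r²/u²)`, so `∫_x^∞ k = log(1+r²/x²)`;
`B(u) = κ u log u + A`.  `A ∫_1^∞ k = A log(1+r²) ≤ 2 A r`.  `2κr² ∫_1^∞ log u/(u²+r²) du`:
`log u = log r + log(u/r) ≤ log r + 2 √(u/r)`; `∫_0^∞ du/(u²+r²) = π/(2r)` and
`∫_0^∞ √(u/r)/(u²+r²) du = c₀/r`, `c₀ = ∫_0^∞ √w/(1+w²) dw < ∞`.  Together at most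
`π κ r log r + 4 c₀ κ r + 2 A r`. -/
def S_Even1 : Prop :=
  ∀ κ A : ℝ, 0 ≤ κ → 0 ≤ A → ∃ A' : ℝ, ∀ (Z : Finset ℂ) (w : ℂ → ℝ),
    (∀ ρ ∈ Z, 1 ≤ ‖ρ‖) → (∀ ρ ∈ Z, 0 ≤ w ρ) →
    (∀ t : ℝ, 1 ≤ t → ∑ ρ ∈ Z with ‖ρ‖ ≤ t, w ρ ≤ κ * (t * Real.log t) + A) →
    ∀ r : ℝ, 1 ≤ r → ∑ ρ ∈ Z, w ρ * Real.log (1 + r ^ 2 / ‖ρ‖ ^ 2) ≤
      Real.pi * κ * (r * Real.log r) + A' * r

/-- **F4d, the odd sum** (from F4a).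

Proof.  `k(u) = 3r/u²` for `u > 3r` and `0` otherwise; `∫_x^∞ k = min 1 (3r/x)`.  `B(u) = κ log u + A`.
`∫_{3r}^∞ 3r u^(-2) (κ log u + A) du = κ (log(3r) + 1) + A` (a primitive of `log u/u²` is
`-(log u + 1)/u`).  `A' = κ (log 3 + 1) + A`. -/
def S_Odd1 : Prop :=
  ∀ κ A : ℝ, 0 ≤ κ → 0 ≤ A → ∃ A' : ℝ, ∀ (Z : Finset ℂ) (w : ℂ → ℝ),
    (∀ ρ ∈ Z, 1 ≤ ‖ρ‖) → (∀ ρ ∈ Z, 0 ≤ w ρ) →
    (∀ t : ℝ, 1 ≤ t → ∑ ρ ∈ Z with ‖ρ‖ ≤ t, w ρ ≤ κ * Real.log t + A) →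
    ∀ r : ℝ, 1 ≤ r → ∑ ρ ∈ Z, w ρ * min 1 (3 * r / ‖ρ‖) ≤ κ * Real.log r + A'

/-- **F5, Phragmen-Lindelof.**

Proof.  Adapt V1.lean (`V1.quad`, `phragLindC`).  There `GrowsC` is used twice: for the growth in the
quadrant (here: `‖F(2-z)‖ ≤ exp(|C| (3+‖z‖)^a)`, and `a < 2`; choose the exponent `max a 1 < 2` and a
constant for `‖z‖ ≥ 1`), and on the real axis (here: for `x ≥ 2` the hypothesis for `x - 2`: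
`(x-2) log(1+(x-2)) ≤ (x+1) log(x+1)`; for `0 ≤ x ≤ 2` `F(2-x)` is bounded by compactness).  Result:
`LeftBound F c R₁` for some `R₁ ≥ 0`.  Then for `Re s ≤ 2`: `3 - Re s ≤ 3 + ‖s‖`,
`log(1+‖2-s‖) ≤ log(3+‖s‖) ≤ log 3 + log(1+‖s‖)`, so
`c (3 - Re s) log(1+‖2-s‖) ≤ c ‖s‖ log(1+‖s‖) + c (3 log(1+‖s‖) + (3+‖s‖) log 3)`, at most
`c ‖s‖ log(1+‖s‖) + R' (1+‖s‖)`; for `Re s ≥ 2` use `B`. -/
def S_PL : Prop :=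
  ∀ (F : ℂ → ℂ) (c R B C a : ℝ), 1 ≤ c → Differentiable ℂ F → Ord F C a → a < 2 →
    (∀ s : ℂ, 2 ≤ s.re → ‖F s‖ ≤ B) →
    (∀ x : ℝ, 0 ≤ x → ‖F (-(x : ℂ))‖ ≤ Real.exp (c * (x * Real.log (1 + x)) + R * (1 + x))) →
    ∃ R' : ℝ, GrowsC F c R'

/-- **F6, the even part** (from F3, F4c).

Proof.  F3 with `N = 1`, `ε = 1`: for large `R`: `Φ(±r) = exp(g(±r)) prodZ Φ R (±r)`,
`‖g(±r) ∓ b r‖ ≤ 1` with the same `b`; so `‖Φ(r) Φ(-r)‖ ≤ e² ∏ ‖1 - r²/ρ²‖^m ≤ e² ∏ (1 + r²/‖ρ‖²)^m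
= e² exp(∑ m log(1 + r²/‖ρ‖²))`, and F4c with `Z = zer Φ R`. -/
def S_Even : Prop :=
  ∀ (Φ : ℂ → ℂ) (C a κ A : ℝ), Differentiable ℂ Φ → Φ 0 = 1 → 0 ≤ C → 0 ≤ a → Ord Φ C a →
    a < 2 → 0 ≤ κ → 0 ≤ A → (∀ ρ : ℂ, Φ ρ = 0 → 1 ≤ ‖ρ‖) →
    (∀ R t : ℝ, 1 ≤ t → num Φ R t ≤ κ * (t * Real.log t) + A) →
    ∃ A' : ℝ, ∀ r : ℝ, 1 ≤ r → ‖Φ r * Φ (-(r : ℂ))‖ ≤
      Real.exp (Real.pi * κ * (r * Real.log r) + A' * r)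

/-- **F7, the odd part** (from F3, F4d).

Proof.  F3 with `N = 1`, `ε = 1`: `Φ(±r) = exp(g(±r)) prodZ Φ R (±r)`, `‖g(±r) ∓ b r‖ ≤ 1`,
`b = Φ'(0) + ∑ m/ρ`.  `prodZ Φ R r ≠ 0` since all zeros have negative real part.  So
`‖Φ(-r)‖ ≤ ‖Φ r‖ exp(2 - 2 r Re b) ∏ (‖1+r/ρ‖/‖1-r/ρ‖)^m`.  For a zero `ρ`, `Re ρ = -β`, `β > 0`:
`‖ρ-r‖² = ‖ρ‖² + 2βr + r²`, `‖ρ+r‖² = ‖ρ‖² - 2βr + r²`; with `y = ‖ρ+r‖²/‖ρ-r‖²`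
`‖1+r/ρ‖/‖1-r/ρ‖ = √y ≤ exp((y-1)/2) = exp(-2βr/‖ρ-r‖²)`, and `-2 r Re(1/ρ) = 2 r β/‖ρ‖²`.  Together
the zero `ρ` contributes to the exponent `m` times
`2rβ (1/‖ρ‖² - 1/‖ρ-r‖²) = (2rβ/‖ρ‖²) (2βr + r²)/‖ρ-r‖² ≤ (2rβ/‖ρ‖²) min 1 (3r/‖ρ‖)`: `≤ 1` because
`‖ρ-r‖² ≥ 2βr + r²`; and if `‖ρ‖ ≥ 3r` then `(2βr + r²)/‖ρ-r‖² ≤ (2‖ρ‖r + r‖ρ‖)/‖ρ‖² = 3r/‖ρ‖`.  F4d with
`w ρ = m_ρ |Re ρ|/‖ρ‖²`: the exponent is at most `2 + 2r‖Φ'(0)‖ + 2r (κ log r + A')`. -/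
def S_Odd : Prop :=
  ∀ (Φ : ℂ → ℂ) (C a κ A : ℝ), Differentiable ℂ Φ → Φ 0 = 1 → 0 ≤ C → 0 ≤ a → Ord Φ C a →
    a < 2 → 0 ≤ κ → 0 ≤ A → (∀ ρ : ℂ, Φ ρ = 0 → ρ.re ≤ -1) →
    (∀ R t : ℝ, 1 ≤ t → ∑ ρ ∈ zer Φ R with ‖ρ‖ ≤ t,
      (analyticOrderNatAt Φ ρ : ℝ) * (|ρ.re| / ‖ρ‖ ^ 2) ≤ κ * Real.log t + A) →
    ∃ A' : ℝ, ∀ r : ℝ, 1 ≤ r → ‖Φ (-(r : ℂ))‖ ≤
      ‖Φ r‖ * Real.exp (2 * κ * (r * Real.log r) + A' * r)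

/-- **F8, from finite order to order 7/4** (from F3, F4b).

Proof.  Let `N ≥ 2` be a natural number with `a < N + 1`.  Elementary inequality:
`Re w + log ‖1 - w‖ ≤ 4 ‖w‖^(7/4)` for all complex `w` (for `‖w‖ ≤ 1/2`: `|log(1-w) + w| ≤ ‖w‖²`; for
`‖w‖ > 1/2`: `≤ ‖w‖ + log(1+‖w‖) ≤ 2‖w‖`; `Real.log 0 = 0` is harmless).  F4b with `b = 3/2`, `p = 7/4`,
`Z = zer Φ R`, `w = ` order: `∑ m ‖ρ‖^(-7/4) ≤ A₁` for all `R`, hence also `∑ m ‖ρ‖^(-k) ≤ A₁` for `k ≥ 2`.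
So the numbers `a_k(R) = c k + (1/k) ∑ m ρ^(-k)`, `2 ≤ k ≤ N`, are bounded; let `𝒰` be an ultrafilter on
`ℝ`, `𝒰 ≤ atTop`, and `a_k = lim_𝒰 a_k(R)`.  For fixed `z` and large `R` by F3 (`r = ‖z‖`, `ε = 1`), if
`Φ z ≠ 0`:
`log‖Φ z‖ ≤ 1 + Re(c_1 z) + Re ∑_{k=2}^N a_k(R) z^k + ∑ m (Re(z/ρ) + log‖1 - z/ρ‖)`, and the last sum
is at most `4 A₁ ‖z‖^(7/4)`.  In the limit: (*) `log‖Φ z‖ ≤ Re q(z) + A₂ (1+‖z‖)^(7/4)`,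
`q(z) = ∑_{k=2}^N a_k z^k`.  Suppose `q ≠ 0` and let `d ≥ 2` be the largest `k` with `a_k ≠ 0`.  There is
`θ ∈ [-π/2, π/2]` with `Re(a_d e^(idθ)) = -|a_d|` (`dθ` runs through an interval of length `dπ ≥ 2π`).  For
`z = x e^(iθ)`, `x → ∞`: `Re q(z) ≤ -|a_d| x^d + O(x^(d-1))`, `d ≥ 2 > 7/4`, so by (*) `log‖Φ z‖ → -∞`, but
`‖Φ z‖ ≥ B > 0` as `Re z ≥ 0`: contradiction.  So `q = 0` and (*) is the claim. -/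
def S_Reduce : Prop :=
  ∀ (Φ : ℂ → ℂ) (C a A B : ℝ), Differentiable ℂ Φ → Φ 0 = 1 → 0 ≤ C → 0 ≤ a → Ord Φ C a →
    0 ≤ A → 0 < B → (∀ ρ : ℂ, Φ ρ = 0 → 1 ≤ ‖ρ‖) →
    (∀ R t : ℝ, 1 ≤ t → num Φ R t ≤ A * t ^ (3 / 2 : ℝ)) → (∀ z : ℂ, 0 ≤ z.re → B ≤ ‖Φ z‖) →
    ∃ C' : ℝ, 0 ≤ C' ∧ Ord Φ C' (7 / 4)

/-- **F9, the Euler product for `Re s ≥ 2`.**

Proof.  As in Z2.lean (`eulerCos`) and `trace_const` in Z5.lean: there are `C, A` with `Sparse nm C`,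
`|tr (M v) v| ≤ nm v`, `|tr (M v) v| ≤ A √(nm v)`, and for `Re s ≥ 3/2` (A6, `eulerLog`)
`‖-log(locDen (M v) v s) - a_v (nm v)^(-s)‖ ≤ C₁/(nm v)²`, so for `Re s ≥ 2`
`‖log(locDen (M v) v s)‖ ≤ A (nm v)^(-3/2) + C₁ (nm v)^(-2)`, summable (A7), and
`∏' locDen⁻¹ = exp(∑' -log locDen)`.  So `|log‖F s‖| ≤ D`, `D` the sum. -/
def S_Edge : Prop :=
  ∀ (K : Type) [Field K] [NumberField K] (E : WeierstrassCurve K), E.IsElliptic →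
    ∀ M : HeightOneSpectrum (𝓞 K) → WeierstrassCurve (𝓞 K), (∀ v, IsMinAt E v (M v)) →
    ∃ B : ℝ, 0 < B ∧ ∀ s : ℂ, 2 ≤ s.re →
      B⁻¹ ≤ ‖∏' v : HeightOneSpectrum (𝓞 K), (locDen (M v) v s)⁻¹‖ ∧
      ‖∏' v : HeightOneSpectrum (𝓞 K), (locDen (M v) v s)⁻¹‖ ≤ B

/-- **F10, an entire function bounded above and below on a half plane: moving the centre.**

Proof.  `Φ(z) = F(3+z)/F 3` (`F 3 ≠ 0`).  `Ord`: `1+‖3+z‖ ≤ 4 (1+‖z‖)`, so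
`‖Φ z‖ ≤ exp(|C| 4^a (1+‖z‖)^a) B ≤ exp((|C| 4^a + log B) (1+‖z‖)^a)` (`a ≥ 0`, `B ≥ 1`).  The order of
`Φ` at `ζ` is the order of `F` at `3 + ζ` (composition with a translation,
`analyticOrderAt`-lemmas; a nonzero constant factor does not change it).  If `Φ ζ = 0` then
`F (3+ζ) = 0`, so `Re(3+ζ) ≤ 3/2`, `Re ζ ≤ -3/2`.  The zeros `ζ` of `Φ` with `‖ζ‖ ≤ t` correspond to zeros
`ρ = 3 + ζ` of `F` with `‖ρ‖ ≤ t + 3`, and if `Re ρ < 0` even `‖ρ‖ ≤ ‖ζ‖ ≤ t`, `|Re ζ| = |Re ρ| + 3`,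
`|Re ζ|/‖ζ‖² ≤ |Re ρ|/‖ρ‖² + 3/‖ζ‖²`; if `Re ρ ≥ 0` then `|Re ζ|/‖ζ‖² ≤ 3/‖ζ‖²`.  (The sets
of zeros are finite, so the `finsum`s are finite sums.) -/
def S_Shift : Prop :=
  ∀ (F : ℂ → ℂ) (C a B : ℝ), Differentiable ℂ F → 0 ≤ a → Ord F C a → 0 < B →
    (∀ s : ℂ, 2 ≤ s.re → B⁻¹ ≤ ‖F s‖ ∧ ‖F s‖ ≤ B) → (∀ s : ℂ, 3 / 2 < s.re → F s ≠ 0) →
    ∃ Φ : ℂ → ℂ, Differentiable ℂ Φ ∧ Φ 0 = 1 ∧ (∃ C' : ℝ, 0 ≤ C' ∧ Ord Φ C' a) ∧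
      (∃ C₀ : ℝ, 0 < C₀ ∧ ∀ z : ℂ, ‖F (3 + z)‖ = C₀ * ‖Φ z‖) ∧
      (∀ ρ : ℂ, Φ ρ = 0 → ρ.re ≤ -1) ∧
      (∀ R t : ℝ, 1 ≤ t → num Φ R t ≤
        ((∑ᶠ ρ ∈ Metric.closedBall (0 : ℂ) (t + 3), analyticOrderNatAt F ρ : ℕ) : ℝ)) ∧
      ∀ R t : ℝ, 1 ≤ t → ∑ ρ ∈ zer Φ R with ‖ρ‖ ≤ t,
          (analyticOrderNatAt Φ ρ : ℝ) * (|ρ.re| / ‖ρ‖ ^ 2) ≤
        (∑ᶠ ρ ∈ {ρ : ℂ | ‖ρ‖ ≤ t ∧ ρ.re < 0},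
          (analyticOrderNatAt F ρ : ℝ) * (|ρ.re| / ‖ρ‖ ^ 2)) +
        3 * ∑ ρ ∈ zer Φ R, (analyticOrderNatAt Φ ρ : ℝ) * ‖ρ‖ ^ (-(2 : ℝ))

/-- **Z1, the number of zeros** (from F5, F6, F8, F9, F10 and `growth2All`).

Proof.  Suppose that for some `κ < 2/π` and `r₀` the number of zeros is at most `κ r log r` for all
`r ≥ r₀`; we may assume `κ ≥ 0` (increase it) and `r₀ ≥ 3`.  `a ≥ 0` may be assumed (`Ord F C a` implies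
`Ord F |C| (max a 0)`).  Let `κ' = (κ + 2/π)/2 < 2/π` and `Φ` from F10.  For `t ≥ r₀`:
`num Φ R t ≤ κ (t+3) log(t+3) ≤ κ' t log t + A` (for large `t` the first is at most `κ' t log t`), and for
`1 ≤ t < r₀`: `num Φ R t ≤` the number for `r₀ + 3`.  So `num Φ R t ≤ κ' t log t + A` for all `t ≥ 1`, in
particular `≤ A' t^(3/2)`.  F8: `Ord Φ C' (7/4)`; then also `Ord F C'' (7/4)`.  F6:
`‖Φ r Φ(-r)‖ ≤ exp(π κ' r log r + A' r)` for `r ≥ 1`, and `‖Φ r‖` is bounded below, so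
`‖F(-x)‖ = C₀ ‖Φ(-(x+3))‖ ≤ exp(π κ' (x+3) log(x+3) + A'' (x+3)) ≤ exp(c x log(1+x) + R (1+x))` for
`x ≥ 0`, `c = max 1 (π κ') < 2`.  F5: `GrowsC F c R'`, contradicting `growth2All`. -/
def S_Z1 : Prop :=
  ∀ (K : Type) [Field K] [NumberField K] (E : WeierstrassCurve K), E.IsElliptic →
    ∀ M : HeightOneSpectrum (𝓞 K) → WeierstrassCurve (𝓞 K), (∀ v, IsMinAt E v (M v)) →
    ∀ F : ℂ → ℂ, Differentiable ℂ F →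
      (∀ s : ℂ, 3 / 2 < s.re → F s = ∏' v : HeightOneSpectrum (𝓞 K), (locDen (M v) v s)⁻¹) →
      (∃ C a : ℝ, ∀ s : ℂ, ‖F s‖ ≤ Real.exp (C * (1 + ‖s‖) ^ a)) →
      ∀ κ r₀ : ℝ, κ < 2 / Real.pi → ∃ r : ℝ, r₀ ≤ r ∧ κ * (r * Real.log r) <
        ((∑ᶠ ρ ∈ Metric.closedBall (0 : ℂ) r, analyticOrderNatAt F ρ : ℕ) : ℝ)

/-- **Z2, zeros in the left half plane** (from F2, F4b, F5, F7, F9, F10 and `growth2All`).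

Proof.  Suppose that for some `κ < 1` and `r₀` the sum is at most `κ log r` for all `r ≥ r₀`; we may
assume `κ ≥ 0`, `r₀ ≥ 3`, and `1 ≤ a < 2` (`Ord F C a` implies `Ord F |C| (max a 1)`).  `Φ` from F10.
F2: `num Φ R t ≤ A t^a`; F4b with `b = a`, `p = 2`: `∑_{zer Φ R} m ‖ρ‖^(-2) ≤ A₁` for all `R`.  So the hypothesis of F7 holds
for `κ` and some `A` (for `1 ≤ t < r₀` compare with `r₀`).  F7: `‖Φ(-r)‖ ≤ ‖Φ r‖ exp(2κ r log r + A' r)` for `r ≥ 1`, and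
`‖Φ r‖` is bounded, so `‖F(-x)‖ ≤ exp(c x log(1+x) + R (1+x))` for `x ≥ 0`, `c = max 1 (2κ) < 2`.  F5:
`GrowsC F c R'`, contradicting `growth2All`. -/
def S_Z2 : Prop :=
  ∀ (K : Type) [Field K] [NumberField K] (E : WeierstrassCurve K), E.IsElliptic →
    ∀ M : HeightOneSpectrum (𝓞 K) → WeierstrassCurve (𝓞 K), (∀ v, IsMinAt E v (M v)) →
    ∀ F : ℂ → ℂ, Differentiable ℂ F →
      (∀ s : ℂ, 3 / 2 < s.re → F s = ∏' v : HeightOneSpectrum (𝓞 K), (locDen (M v) v s)⁻¹) →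
      (∃ C a : ℝ, a < 2 ∧ ∀ s : ℂ, ‖F s‖ ≤ Real.exp (C * (1 + ‖s‖) ^ a)) →
      ∀ κ r₀ : ℝ, κ < 1 → ∃ r : ℝ, r₀ ≤ r ∧ κ * Real.log r <
        ∑ᶠ ρ ∈ {ρ : ℂ | ‖ρ‖ ≤ r ∧ ρ.re < 0},
          (analyticOrderNatAt F ρ : ℝ) * (|ρ.re| / ‖ρ‖ ^ 2)

end MP7ed9c3.Zr
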